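import Pool.Agent.Run7.h369.AsmL

/-!
# The Kummer class of a section on an elliptic quotient

(helper369.)
-/

set_option autoImplicit false
set_option linter.unusedSectionVars false

open WeierstrassCurve Pool.Agent.H901R3.MS Pool.Agent.TH954 Pool.Agent.TH942

namespace Run7.h369.AsmC

open Run7.h369.Ell Run7.h369.Bc Run7.h369.Kum Run7.h369.Par Run7.h369.Lev Run7.h369.AsmL
open Pool.Agent.Y157.PS

/-- an automorphism which changes the signs of the square roots -/
lemma exists_F {k κ : Type} [Field k] [CharZero k] [Field κ] [Algebra k κ] [IsAlgClosure k κ]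
    {D : Fin 3 → k} (hD : ∀ i, ¬ IsSquare (D i)) (hp : ¬ IsSquare (D 0 * D 1 * D 2)) :
    ∃ g : κ ≃ₐ[k] κ, ∀ i (δ : κ), δ ^ 2 = algebraMap k κ (D i) → g δ = -δ := by
  have hcl : IsAlgClosed κ := IsAlgClosure.isAlgClosed k
  choose δ hδ using fun i => IsAlgClosed.exists_pow_nat_eq (algebraMap k κ (D i)) (n := 2)
    (by norm_num)
  obtain ⟨g, hg⟩ := Fro.three hD hp hδ
  refine ⟨g, fun i ε hε => ?_⟩
  rw [← hδ i, sq_eq_sq_iff_eq_or_eq_neg] at hε
  rcases hε with h | h
  · rw [h, hg]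
  · rw [h, map_neg, hg]

/-- points with coordinates in a subfield -/
lemma pt_lift {k N Ω : Type} [Field k] [Field N] [Field Ω] [Algebra k N] [Algebra k Ω] {a b : k}
    (e : N →ₐ[k] Ω) (T : PM a b Ω)
    (hT : ∀ x y h, T = .some x y h → (∃ z, e z = x) ∧ ∃ z, e z = y) :
    ∃ T' : PM a b N, pm (sw a b) e T' = T := by
  rcases T with _ | ⟨x, y, h⟩
  · exact ⟨.zero, rfl⟩
  · obtain ⟨⟨x', rfl⟩, ⟨y', rfl⟩⟩ := hT x y h rfl
    have hn : ((sw a b).baseChange N).toAffine.Nonsingular x' y' :=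
      (Affine.baseChange_nonsingular (sw a b) (f := e) (RingHom.injective _) _ _).mp h
    exact ⟨.some _ _ hn, rfl⟩

/-- automorphisms which stabilise the trace of `W` on a subfield -/
lemma stab_non {N : Type} [Field N] {W : ValuationSubring N} {M : Subfield N} (f : N →+* N)
    (hst : ∀ z ∈ M, f z ∈ W ↔ z ∈ W) {z : N} (hz : z ∈ M) (hzn : z ∈ W.nonunits) :
    f z ∈ W.nonunits := by
  rw [nonunits_iff] at hzn ⊢
  refine ⟨(hst z hz).2 hzn.1, ?_⟩
  rcases hzn.2 with h | h
  · left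
    rw [h, map_zero]
  · right
    rw [← map_inv₀, hst _ (M.inv_mem hz)]
    exact h

section core

variable {k R Ω F : Type} [Field k] [CharZero k] [Field R] [Field Ω] [Field F] [Algebra k R]
  [Algebra R Ω] [Algebra k Ω] [IsScalarTower k R Ω] [IsAlgClosure R Ω] [Algebra k F]
  [Algebra F Ω] [IsScalarTower k F Ω] {x : R} {u t : k} {c : Fin 3 → k}

/-- `w` is fixed by the section -/
lemma w_fixed (h : Dis u t c) (N : IntermediateField F Ω) (s : N ≃ₐ[F] N)
    (W0 : ValuationSubring N) (M : Subfield N) (hst : ∀ z ∈ M, s z ∈ W0 ↔ z ∈ W0)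
    (hW0c : ∀ a : k, algebraMap k N a ∈ W0) {xF : F}
    (hW0x : algebraMap F N xF - algebraMap k N u ∈ W0.nonunits) {w : N} (hwM : w ∈ M)
    (hw : Eqw u t c (algebraMap F N xF) w) : s w = w := by
  have hcN : CharZero N := charZero_of_injective_algebraMap (algebraMap k N).injective
  have hsk : ∀ a : k, s (algebraMap k N a) = algebraMap k N a := by
    intro a
    rw [IsScalarTower.algebraMap_apply k F N]
    exact s.commutes _
  have hD : algebraMap k N (dd u t c) ≠ 0 := (_root_.map_ne_zero _).2 h.dd_ne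
  have h2 : (s w) ^ 2 = w ^ 2 := by
    apply mul_left_cancel₀ hD
    rw [hw]
    have h3 := congrArg s hw
    simp only [map_mul, map_pow, map_sub, hsk, s.commutes] at h3
    exact h3
  have h2U : ¬ (2 : N) ∈ W0.nonunits := by
    intro h3
    have h4 : IsU W0 (2 : N) := by
      have e1 : (2 : N) = algebraMap k N 2 := by rw [map_ofNat]
      refine ⟨two_ne_zero, by rw [e1]; exact hW0c _, ?_⟩
      rw [e1, ← map_inv₀]
      exact hW0c _
    exact h4.not_nonunit h3
  rcases sq_eq_sq_iff_eq_or_eq_neg.1 h2 with h3 | h3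
  · exact h3
  · exfalso
    obtain ⟨-, -, h4⟩ := w_unit h hW0c hW0x hw
    rcases h4 with h4 | h4
    · have h5 := stab_non (s : N →+* N) hst (M.sub_mem hwM M.one_mem) h4
      change s (w - 1) ∈ W0.nonunits at h5
      rw [map_sub, map_one, h3] at h5
      apply h2U
      have h6 := non_neg (non_add h4 h5)
      have e1 : -(w - 1 + (-w - 1)) = 2 := by ring
      rwa [e1] at h6
    · have h5 := stab_non (s : N →+* N) hst (M.add_mem hwM M.one_mem) h4
      change s (w + 1) ∈ W0.nonunits at h5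
      rw [map_add, map_one, h3] at h5
      apply h2U
      have h6 := non_add h4 h5
      have e1 : w + 1 + (-w + 1) = 2 := by ring
      rwa [e1] at h6

end core

section core2

variable {k R Ω N κ : Type} [Field k] [CharZero k] [Field R] [Field Ω] [Algebra k R]
  [Algebra R Ω] [Algebra k Ω] [IsScalarTower k R Ω] [IsAlgClosure R Ω] [Field N] [Algebra k N]
  [Field κ] [Algebra k κ] [IsAlgClosure k κ] {x : R} {u t : k} {c : Fin 3 → k}

open scoped Classical in
/-- the class of the section on the elliptic quotient -/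
theorem core (hx : Transcendental k x) (h : Dis u t c) (hns : NonSq t c)
    (hneg : ¬ IsSquare (-1 : k)) (n : ℕ) {w : Ω} (hw : Eqw u t c (algebraMap R Ω x) w)
    (L : IntermediateField R Ω)
    (hL : ∀ T : PM (aa u t c) (bb u t c) Ω, 2 ^ (2 * (n + 3) + 2) • T =
      pt h (algebraMap R Ω x) w (x_ne hx t) hw - qt h Ω → InP L.toSubfield T)
    (e : N →ₐ[k] Ω) (j : κ →ₐ[k] N) (hLN : ∀ z ∈ L, ∃ z', e z' = z)
    (s : (κ ≃ₐ[k] κ) → (N →ₐ[k] N)) (hmul : ∀ σ σ', s (σ * σ') = (s σ).comp (s σ'))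
    (hs : ∀ σ a, s σ (j a) = j (σ a)) (X : N) (hXe : e X = algebraMap R Ω x)
    (hsX : ∀ σ, s σ X = X) (w' : N) (hww : e w' = w) (hfix : ∀ σ, s σ w' = w')
    (hpw : ∀ σ : κ ≃ₐ[k] κ, ∃ (W : ValuationSubring N) (τ : N →ₐ[k] N),
      (∀ a : k, algebraMap k N a ∈ W) ∧ X - algebraMap k N u ∈ W.nonunits ∧
      (∀ z, τ z ∈ W ↔ z ∈ W) ∧ (∀ a, τ (j a) = j (σ a)) ∧ ∀ z : N, e z ∈ L → τ z = s σ z) :
    ∃ (hX : X ≠ algebraMap k N t) (hw' : Eqw u t c X w')
      (R' : PM (aa u t c) (bb u t c) N),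
      (∀ σ, pm (sw (aa u t c) (bb u t c)) (s σ) R' = R') ∧
      (2 ^ n • R' = pt h _ w' hX hw' - qt h N ∨ 2 ^ n • R' = pt h _ w' hX hw' + qt h N) := by
  have hcl : IsAlgClosed Ω := IsAlgClosure.isAlgClosed R
  have hcΩ : CharZero Ω := charZero_of_injective_algebraMap (algebraMap k Ω).injective
  have hcN : CharZero N := charZero_of_injective_algebraMap (algebraMap k N).injective
  have hkb : IsAlgClosed κ := IsAlgClosure.isAlgClosed k
  have hka : Algebra.IsAlgebraic k κ := IsAlgClosure.isAlgebraic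
  have hX : X ≠ algebraMap k N t := by
    intro h1
    apply x_ne (Ω := Ω) hx t
    rw [← hXe, h1]
    exact e.commutes t
  have hw' : Eqw u t c X w' := by
    apply (e : N →+* Ω).injective
    change e _ = e _
    simp only [map_mul, map_pow, map_sub, AlgHom.commutes, hXe, hww]
    exact hw
  refine ⟨hX, hw', ?_⟩
  have hePt : pm (sw (aa u t c) (bb u t c)) e (pt h _ w' hX hw') =
      pt h (algebraMap R Ω x) w (x_ne hx t) hw := pm_pt h hX hw' e (x_ne hx t) hw hXe hww
  have hjq : pm (sw (aa u t c) (bb u t c)) j (qt h κ) = qt h N := pm_qt h j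
  -- the division point
  obtain ⟨RΩ, hRΩ⟩ := exists_nsmul_base (disc4 h.roots) Ω
    (n := 2 ^ (2 * (n + 3) + 2)) Nat.one_le_two_pow
    (pt h (algebraMap R Ω x) w (x_ne hx t) hw - qt h Ω)
  have hRL := hL RΩ hRΩ
  obtain ⟨R0, hR0⟩ := pt_lift e RΩ (by
    intro X Y hXY hR
    rw [hR] at hRL
    exact ⟨hLN _ hRL.1, hLN _ hRL.2⟩)
  have hR0' : 2 ^ (2 * (n + 3) + 2) • R0 = pt h _ w' hX hw' -
      pm (sw (aa u t c) (bb u t c)) j (qt h κ) := by
    apply pm_injective (E := sw (aa u t c) (bb u t c)) e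
    rw [map_nsmul, hR0, hRΩ, map_sub, hePt, hjq, pm_qt]
  have hpmP : ∀ τ : N →ₐ[k] N, τ X = X → τ w' = w' → pm (sw (aa u t c) (bb u t c))
      τ (pt h _ w' hX hw') = pt h _ w' hX hw' := fun τ hτ1 hτ2 =>
    pm_pt h hX hw' _ hX hw' hτ1 hτ2
  obtain ⟨g, hg⟩ := exists_F (κ := κ)
    (D := fun i => 3 * rr u t c i ^ 2 + aa u t c) (nonsq_D h hns) (nonsq_prod h hneg)
  have hD0 : ∀ i, 3 * rr u t c i ^ 2 + aa u t c ≠ 0 := by
    intro i h0
    apply nonsq_D h hns i
    rw [h0]
    exact IsSquare.zero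
  have hk := kummer h.roots e j s hmul hs g hg hD0 n (pt h _ w' hX hw') R0 (qt h κ)
    (fun σ => pm_qt h _) (fun σ => hpmP (s σ) (hsX σ) (hfix σ)) hR0' (by
      intro σ
      obtain ⟨W, τ, h1, h2, h3, h4, h5⟩ := hpw σ
      have hτR : pm (sw (aa u t c) (bb u t c)) τ R0 =
          pm (sw (aa u t c) (bb u t c)) (s σ) R0 := by
        rcases R0 with _ | ⟨X, Y, hXY⟩
        · rfl
        · obtain ⟨h6, e6⟩ := pm_some (E := sw (aa u t c) (bb u t c)) e hXY
          rw [e6] at hR0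
          rw [← hR0] at hRL
          obtain ⟨h7, e7⟩ := pm_some (E := sw (aa u t c) (bb u t c)) τ hXY
          obtain ⟨h8, e8⟩ := pm_some (E := sw (aa u t c) (bb u t c)) (s σ) hXY
          rw [e7, e8, Affine.Point.some.injEq]
          exact ⟨h5 X hRL.1, h5 Y hRL.2⟩
      refine ⟨W, τ, h1, h3, h4, hτR, ?_, ?_⟩
      · -- `τ` fixes the point
        have h6 : pm (sw (aa u t c) (bb u t c)) τ
            (pt h _ w' hX hw' - qt h N) = pt h _ w' hX hw' - qt h N := by
          rw [← hjq, ← hR0', map_nsmul, hτR, ← map_nsmul, hR0', map_sub,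
            hpmP (s σ) (hsX σ) (hfix σ), hjq, pm_qt]
        rw [map_sub, pm_qt] at h6
        exact sub_left_injective h6
      · rw [hjq]
        obtain ⟨-, -, h6⟩ := w_unit h h1 h2 hw'
        rcases h6 with h6 | h6
        · left
          exact same_at h W h1 hX hw' (u_ne h N) (eqw_one N) (one_mem W) h2 h6
        · right
          have h7 : -qt h N = pt h (algebraMap k N u) (-1) (u_ne h N) (neg_w (eqw_one N)) :=
            neg_pt h (u_ne h N) (eqw_one N)
          rw [h7]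
          refine same_at h W h1 hX hw' (u_ne h N) (neg_w (eqw_one N)) (neg_mem (one_mem W)) h2 ?_
          rw [sub_neg_eq_add]
          exact h6)
  obtain ⟨R', hR1, hR2⟩ := hk
  rw [hjq] at hR2
  exact ⟨R', hR1, hR2⟩

end core2

end Run7.h369.AsmC
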