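import Pool.Agent.Y157.PS.All
import Pool.Agent.Y574.PS.RTS

/-!
# The maximal unramified geometrically pro-2 extension is closed under halving points

(helper369.)
-/

set_option autoImplicit false
set_option linter.all false

open Polynomial FF

namespace Run7.h369.CloA

open Pool.Agent.Y157.PS

section places

variable {κ R M : Type} [Field κ] [Field R] [Field M] [Algebra κ R] [Algebra R M]
  [Algebra κ M] [IsScalarTower κ R M]

lemma ord_shift {W : Place κ M} {X : M} {c c' : κ} (h0 : X - algebraMap κ M c ≠ 0)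
    (h : W.ord (X - algebraMap κ M c) < 0) :
    W.ord (X - algebraMap κ M c') = W.ord (X - algebraMap κ M c) := by
  by_cases hc : c = c'
  · rw [hc]
  · have hcc : c - c' ≠ 0 := sub_ne_zero.2 hc
    have h1 : algebraMap κ M (c - c') ≠ 0 := (_root_.map_ne_zero _).2 hcc
    have h2 : X - algebraMap κ M c' = (X - algebraMap κ M c) + algebraMap κ M (c - c') := by
      rw [map_sub]
      ring
    rw [h2, (W.ord_add_eq h0 h1 (by rw [W.ord_const hcc]; exact h)).2]

/-- the order is even -/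
lemma even_ord (W : Place κ M) {X Y : M} {c : Fin 3 → κ} (hc : Function.Injective c)
    (hY : Y ^ 2 = (X - algebraMap κ M (c 0)) * (X - algebraMap κ M (c 1)) *
      (X - algebraMap κ M (c 2))) (hne : ∀ i, X - algebraMap κ M (c i) ≠ 0) (j : Fin 3) :
    (2 : ℤ) ∣ W.ord (X - algebraMap κ M (c j)) := by
  have hsum : 2 * W.ord Y = W.ord (X - algebraMap κ M (c 0)) + W.ord (X - algebraMap κ M (c 1)) +
      W.ord (X - algebraMap κ M (c 2)) := by
    have h1 := congrArg W.ord hY
    rw [W.ord_pow, W.ord_mul (mul_ne_zero (hne 0) (hne 1)) (hne 2),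
      W.ord_mul (hne 0) (hne 1)] at h1
    exact_mod_cast h1
  by_cases hneg : ∃ i, W.ord (X - algebraMap κ M (c i)) < 0
  · obtain ⟨i, hi⟩ := hneg
    have h1 : ∀ l, W.ord (X - algebraMap κ M (c l)) = W.ord (X - algebraMap κ M (c i)) :=
      fun l => ord_shift (hne i) hi
    rw [h1 0, h1 1, h1 2] at hsum
    rw [h1 j]
    omega
  · push Not at hneg
    by_cases hj : W.ord (X - algebraMap κ M (c j)) = 0
    · rw [hj]
      exact dvd_zero _
    · have hpos : 0 < W.ord (X - algebraMap κ M (c j)) := lt_of_le_of_ne (hneg j) (Ne.symm hj)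
      have h1 : ∀ l, l ≠ j → W.ord (X - algebraMap κ M (c l)) = 0 := fun l hl =>
        ord_sub_const hpos (fun h => hl (hc h).symm)
      fin_cases j
      · have e1 := h1 1 (by decide)
        have e2 := h1 2 (by decide)
        change (2 : ℤ) ∣ W.ord (X - algebraMap κ M (c 0))
        omega
      · have e1 := h1 0 (by decide)
        have e2 := h1 2 (by decide)
        change (2 : ℤ) ∣ W.ord (X - algebraMap κ M (c 1))
        omega
      · have e1 := h1 0 (by decide)
        have e2 := h1 1 (by decide)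
        change (2 : ℤ) ∣ W.ord (X - algebraMap κ M (c 2))
        omega

lemma root_half [IsAlgClosed κ] {x : R} {B : Finset κ} {Y0 : M} (hC : Cov 2 κ R M x B Y0)
    {X Y : M} {c : Fin 3 → κ} (hc : Function.Injective c)
    (hY : Y ^ 2 = (X - algebraMap κ M (c 0)) * (X - algebraMap κ M (c 1)) *
      (X - algebraMap κ M (c 2))) (j : Fin 3) : ∃ h : M, h ^ 2 = X - algebraMap κ M (c j) := by
  by_cases hne : ∀ i, X - algebraMap κ M (c i) ≠ 0
  · exact hC.root _ (hne j) fun W => by exact_mod_cast even_ord W hc hY hne j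
  · push Not at hne
    obtain ⟨i, hi⟩ := hne
    obtain ⟨θ, hθ⟩ : ∃ θ : κ, θ ^ 2 = c i - c j :=
      IsAlgClosed.exists_pow_nat_eq _ (by norm_num)
    refine ⟨algebraMap κ M θ, ?_⟩
    rw [← map_pow, hθ, map_sub, sub_eq_zero.1 hi]

end places

section absI

variable {κ R F Ω : Type} [Field κ] [IsAlgClosed κ] [CharZero κ]
    [Field R] [Field F] [Field Ω] [Algebra κ R] [Algebra R Ω] [Algebra κ Ω]
    [IsScalarTower κ R Ω] [IsAlgClosure R Ω] [Algebra F Ω]

theorem cloI (hCOV : S_COV)
    (x' : R) (hrat : RatF κ x') (B : Finset κ) (hdvd : 2 ∣ B.card) (h3 : 3 ≤ B.card)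
    (Y0 : Ω) (hY : Y0 ^ 2 = ∏ e ∈ B, (algebraMap R Ω x' - algebraMap κ Ω e))
    (N : IntermediateField F Ω)
    (hN : ∀ z, z ∈ maxPro 2 κ (IntermediateField.adjoin R {Y0}) Ω ↔ z ∈ N)
    {c : Fin 3 → κ} (hc : Function.Injective c) {X Y : Ω} (hXN : X ∈ N) (hYN : Y ∈ N)
    (hXY : Y ^ 2 = (X - algebraMap κ Ω (c 0)) * (X - algebraMap κ Ω (c 1)) *
      (X - algebraMap κ Ω (c 2))) (j : Fin 3) :
    ∃ h ∈ N, h ^ 2 = X - algebraMap κ Ω (c j) := by
  haveI : Fact (Nat.Prime 2) := ⟨Nat.prime_two⟩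
  obtain ⟨M, hM⟩ : ∃ M : IntermediateField R Ω,
      ∀ z, z ∈ M ↔ z ∈ maxPro 2 κ (IntermediateField.adjoin R {Y0}) Ω :=
    ⟨(maxPro 2 κ (IntermediateField.adjoin R {Y0}) Ω).restrictScalars R, fun z => Iff.rfl⟩
  have hYM : Y0 ∈ M := by
    rw [hM]
    exact (maxPro 2 κ (IntermediateField.adjoin R {Y0}) Ω).algebraMap_mem
      ⟨Y0, IntermediateField.mem_adjoin_simple_self _ _⟩
  have hCov : Cov 2 κ R M x' B ⟨Y0, hYM⟩ :=
    hCOV 2 κ R Ω x' hrat B hdvd h3 Y0 hY M hM ⟨Y0, hYM⟩ rfl
  have hXM : X ∈ M := (hM _).2 ((hN _).2 hXN)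
  have hYM' : Y ∈ M := (hM _).2 ((hN _).2 hYN)
  obtain ⟨h, hh⟩ := root_half hCov (X := ⟨X, hXM⟩) (Y := ⟨Y, hYM'⟩) hc (by
    apply Subtype.ext
    exact hXY) j
  refine ⟨h.1, (hN _).1 ((hM _).1 h.2), ?_⟩
  exact congrArg (algebraMap M Ω) hh

end absI

section main

/-- `geomPro 2` contains the square roots which are needed to halve the points of the curve
`y² = (x - c 0) (x - c 1) (x - c 2)` -/
theorem clo (k F Ω : Type) [Field k] [Field F] [Field Ω] [Algebra k F]
    [Algebra F Ω] [Algebra k Ω] [IsScalarTower k F Ω] [IsAlgClosed Ω] [Algebra.IsAlgebraic F Ω]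
    [CharZero k] (f : k[X]) (hsep : f.Separable) (hdvd : 2 ∣ f.natDegree) (h3 : 3 ≤ f.natDegree)
    (d : k) (hd0 : d ≠ 0) (x y : F) (hx : Transcendental k x)
    (hxy : algebraMap k F d * y ^ 2 = aeval x f)
    (hF : IntermediateField.adjoin k {x, y} = (⊤ : IntermediateField k F))
    {c : Fin 3 → k} (hc : Function.Injective c) {X Y : Ω} (hXN : X ∈ geomPro 2 k F Ω)
    (hYN : Y ∈ geomPro 2 k F Ω)
    (hXY : Y ^ 2 = (X - algebraMap k Ω (c 0)) * (X - algebraMap k Ω (c 1)) *
      (X - algebraMap k Ω (c 2))) (j : Fin 3) :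
    ∃ h ∈ geomPro 2 k F Ω, h ^ 2 = X - algebraMap k Ω (c j) := by
  classical
  haveI : Fact (Nat.Prime 2) := ⟨Nat.prime_two⟩
  have hℓp : (2 : ℕ).Prime := Fact.out
  have hac : IsAlgClosure k (algebraicClosure k Ω) := inferInstance
  have hkb : IsAlgClosed (algebraicClosure k Ω) := hac.1
  have hch : CharZero (algebraicClosure k Ω) :=
    charZero_of_injective_algebraMap (algebraMap k (algebraicClosure k Ω)).injective
  have hf0 : f ≠ 0 := hsep.ne_zero
  have hlck0 : f.leadingCoeff ≠ 0 := leadingCoeff_ne_zero.2 hf0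
  obtain ⟨δ, hδ⟩ : ∃ δ : algebraicClosure k Ω, δ ^ 2 =
      algebraMap k (algebraicClosure k Ω) (d / f.leadingCoeff) :=
    IsAlgClosed.exists_pow_nat_eq _ hℓp.pos
  have hδ0 : δ ≠ 0 := by
    rintro rfl
    rw [zero_pow hℓp.ne_zero] at hδ
    exact (_root_.map_ne_zero _).2 (div_ne_zero hd0 hlck0) hδ.symm
  set P := f.map (algebraMap k (algebraicClosure k Ω)) with hP
  have hlc0 : algebraMap k (algebraicClosure k Ω) f.leadingCoeff ≠ 0 :=
    (_root_.map_ne_zero _).2 hlck0
  have hPsep : P.Separable := hsep.map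
  have hP0 : P ≠ 0 := hPsep.ne_zero
  have hnd : P.roots.Nodup := nodup_roots hPsep
  have hPdeg : P.natDegree = f.natDegree := natDegree_map_of_leadingCoeff_ne_zero _ hlc0
  set B : Finset (algebraicClosure k Ω) := P.roots.toFinset with hBdef
  have hcard : B.card = f.natDegree := by
    rw [hBdef, Multiset.toFinset_card_of_nodup hnd, ← hPdeg]
    exact (IsAlgClosed.splits P).natDegree_eq_card_roots.symm
  have hPx : ∀ z : Ω, P.eval₂ (algebraMap (algebraicClosure k Ω) Ω) z =
      algebraMap (algebraicClosure k Ω) Ω (algebraMap k (algebraicClosure k Ω) f.leadingCoeff) *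
        ∏ e ∈ B, (z - algebraMap (algebraicClosure k Ω) Ω e) := by
    intro z
    have h1 := (IsAlgClosed.splits P).eq_prod_roots
    have h5 : P.leadingCoeff = algebraMap k (algebraicClosure k Ω) f.leadingCoeff :=
      leadingCoeff_map_of_leadingCoeff_ne_zero _ hlc0
    rw [h5] at h1
    have h6 : ∏ e ∈ B, (z - algebraMap (algebraicClosure k Ω) Ω e) =
        (P.roots.map fun e => z - algebraMap (algebraicClosure k Ω) Ω e).prod := by
      rw [hBdef, Finset.prod, Multiset.toFinset_val, Multiset.dedup_eq_self.2 hnd]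
    rw [h6]
    conv_lhs => rw [h1]
    rw [eval₂_mul, eval₂_C, ← coe_eval₂RingHom, map_multiset_prod, Multiset.map_map]
    congr 2
    refine Multiset.map_congr rfl fun a _ => ?_
    simp
  have hfx : algebraMap F Ω (aeval x f) =
      P.eval₂ (algebraMap (algebraicClosure k Ω) Ω) (algebraMap F Ω x) := by
    rw [aeval_def, hom_eval₂, hP, eval₂_map, ← IsScalarTower.algebraMap_eq k F Ω,
      ← IsScalarTower.algebraMap_eq k (algebraicClosure k Ω) Ω]
  set Y0 : Ω := (δ : Ω) * algebraMap F Ω y with hY0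
  have hY : Y0 ^ 2 = ∏ e ∈ B, (algebraMap F Ω x - algebraMap (algebraicClosure k Ω) Ω e) := by
    have h1 := congrArg (algebraMap F Ω) hxy
    rw [map_mul, map_pow, ← IsScalarTower.algebraMap_apply, hfx, hPx] at h1
    have h5 : algebraMap (algebraicClosure k Ω) Ω
        (algebraMap k (algebraicClosure k Ω) f.leadingCoeff) ≠ 0 := (_root_.map_ne_zero _).2 hlc0
    have h6 : (δ : Ω) ^ 2 = algebraMap k Ω d / algebraMap (algebraicClosure k Ω) Ω
        (algebraMap k (algebraicClosure k Ω) f.leadingCoeff) := by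
      have h7 := congrArg (algebraMap (algebraicClosure k Ω) Ω) hδ
      rw [map_pow, map_div₀, map_div₀, ← IsScalarTower.algebraMap_apply] at h7
      exact h7
    rw [hY0, mul_pow, h6, div_mul_eq_mul_div, h1, mul_div_cancel_left₀ _ h5]
  have hX0 : Transcendental k (algebraMap F Ω x) :=
    (transcendental_algebraMap_iff (R := k) (algebraMap F Ω).injective (a := x)).2 hx
  have hrat := ratF_adj (trans_up hX0)
  have hYR : Y0 ^ 2 ∈ IntermediateField.adjoin (algebraicClosure k Ω) {algebraMap F Ω x} := by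
    rw [hY]
    exact prod_mem fun e _ => sub_mem (IntermediateField.mem_adjoin_simple_self _ _)
      (IntermediateField.algebraMap_mem _ e)
  have hclR := closure_R hF δ hδ0 hℓp.pos hYR
  exact cloI (R := IntermediateField.adjoin (algebraicClosure k Ω) {algebraMap F Ω x}) a_cov
    ⟨algebraMap F Ω x, IntermediateField.mem_adjoin_simple_self _ _⟩ hrat B
    (by rw [hcard]; exact hdvd) (by rw [hcard]; exact h3) Y0 hY (geomPro 2 k F Ω)
    (fun z => maxPro_geom 2 k hF δ hδ0 z)
    (c := fun i => algebraMap k (algebraicClosure k Ω) (c i))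
    ((algebraMap k (algebraicClosure k Ω)).injective.comp hc) hXN hYN hXY j

end main

end Run7.h369.CloA
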