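import Pool.Agent.Y157.PS.Tools
import Pool.Agent.Y157.PC.Stm

/-!
# Subfields which are unramified at a valuation ring and closed under square roots of units

(helper369.)
-/

set_option autoImplicit false
set_option linter.all false

namespace Run7.h369.CloB

open Pool.Agent.Y157.PS Pool.Agent.Y157.PC

section

variable {R Ω : Type} [Field R] [Field Ω] [Algebra R Ω] (W : ValuationSubring Ω)

/-- the values of the nonzero elements of `S` are values of elements of `R` -/
def Good (S : Subfield Ω) : Prop :=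
  ∀ z ∈ S, z ≠ 0 → ∃ t : R, t ≠ 0 ∧ IsU W (z / algebraMap R Ω t)

variable {W}

lemma isU_add_non {u v : Ω} (hu : IsU W u) (hv : v ∈ W.nonunits) : IsU W (u + v) := by
  apply isU_of_not_nonunit (add_mem hu.2.1 (non_mem hv))
  intro h
  apply hu.not_nonunit
  have := non_sub h hv
  rwa [add_sub_cancel_right] at this

/-- the subfield of the elements `a + b β` -/
def ext (S : Subfield Ω) {u β : Ω} (hu : u ∈ S) (hβ : β ^ 2 = u) (hβS : β ∉ S) : Subfield Ω where
  carrier := {z | ∃ a ∈ S, ∃ b ∈ S, z = a + b * β}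
  mul_mem' := by
    rintro _ _ ⟨a, ha, b, hb, rfl⟩ ⟨c, hc, d, hd, rfl⟩
    refine ⟨a * c + b * d * u, S.add_mem (S.mul_mem ha hc) (S.mul_mem (S.mul_mem hb hd) hu),
      a * d + b * c, S.add_mem (S.mul_mem ha hd) (S.mul_mem hb hc), ?_⟩
    rw [← hβ]
    ring
  one_mem' := ⟨1, S.one_mem, 0, S.zero_mem, by ring⟩
  add_mem' := by
    rintro _ _ ⟨a, ha, b, hb, rfl⟩ ⟨c, hc, d, hd, rfl⟩
    exact ⟨a + c, S.add_mem ha hc, b + d, S.add_mem hb hd, by ring⟩
  zero_mem' := ⟨0, S.zero_mem, 0, S.zero_mem, by ring⟩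
  neg_mem' := by
    rintro _ ⟨a, ha, b, hb, rfl⟩
    exact ⟨-a, S.neg_mem ha, -b, S.neg_mem hb, by ring⟩
  inv_mem' := by
    rintro _ ⟨a, ha, b, hb, rfl⟩
    by_cases h0 : a ^ 2 - b ^ 2 * u = 0
    · have h1 : (a - b * β) * (a + b * β) = 0 := by rw [← h0, ← hβ]; ring
      rcases mul_eq_zero.1 h1 with h2 | h2
      · have hb0 : b = 0 := by
          by_contra hb0
          apply hβS
          have h3 : β = a / b := by
            rw [eq_div_iff hb0]
            linear_combination -h2
          rw [h3]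
          exact S.div_mem ha hb
        rw [hb0, zero_mul, sub_zero] at h2
        rw [hb0, h2, zero_mul, add_zero, inv_zero]
        exact ⟨0, S.zero_mem, 0, S.zero_mem, by ring⟩
      · rw [h2, inv_zero]
        exact ⟨0, S.zero_mem, 0, S.zero_mem, by ring⟩
    · have hN : a ^ 2 - b ^ 2 * u ∈ S :=
        S.sub_mem (S.pow_mem ha 2) (S.mul_mem (S.pow_mem hb 2) hu)
      refine ⟨a / (a ^ 2 - b ^ 2 * u), S.div_mem ha hN, -b / (a ^ 2 - b ^ 2 * u),
        S.div_mem (S.neg_mem hb) hN, ?_⟩
      apply inv_eq_of_mul_eq_one_right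
      rw [← hβ] at h0 ⊢
      field_simp
      ring

lemma mem_ext {S : Subfield Ω} {u β : Ω} {hu : u ∈ S} {hβ : β ^ 2 = u} {hβS : β ∉ S} {z : Ω} :
    z ∈ ext S hu hβ hβS ↔ ∃ a ∈ S, ∃ b ∈ S, z = a + b * β := Iff.rfl

lemma good_ext (h2 : IsU W (2 : Ω)) {S : Subfield Ω} (hS : Good (R := R) W S) {u β : Ω} (hu : u ∈ S)
    (hβ : β ^ 2 = u) (hβS : β ∉ S) (huU : IsU W u) : Good (R := R) W (ext S hu hβ hβS) := by
  have hβU : IsU W β := isU_of_pow (n := 2) (by norm_num) (by rw [hβ]; exact huU)
  -- the elements `c + β`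
  have key : ∀ c ∈ S, c + β ≠ 0 → ∃ t : R, t ≠ 0 ∧ IsU W ((c + β) / algebraMap R Ω t) := by
    intro c hc hne
    by_cases hcW : c ∈ W
    · by_cases hcn : c ∈ W.nonunits
      · refine ⟨1, one_ne_zero, ?_⟩
        rw [map_one, div_one, add_comm]
        exact isU_add_non hβU hcn
      · have hcU := isU_of_not_nonunit hcW hcn
        by_cases h3 : c + β ∈ W.nonunits
        · have h4 : IsU W (c - β) := by
            apply isU_of_not_nonunit (sub_mem hcW hβU.2.1)
            intro h5
            have h6 := non_add h3 h5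
            have h7 : c + β + (c - β) = 2 * c := by ring
            rw [h7] at h6
            exact (h2.mul hcU).not_nonunit h6
          have h5 : c ^ 2 - u ∈ S := S.sub_mem (S.pow_mem hc 2) hu
          have h6 : c ^ 2 - u = (c + β) * (c - β) := by rw [← hβ]; ring
          have h7 : c ^ 2 - u ≠ 0 := by rw [h6]; exact mul_ne_zero hne h4.1
          obtain ⟨t, ht, ht'⟩ := hS _ h5 h7
          refine ⟨t, ht, ?_⟩
          have h8 : (c + β) / algebraMap R Ω t = (c ^ 2 - u) / algebraMap R Ω t / (c - β) := by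
            rw [h6, mul_div_right_comm, mul_div_cancel_right₀ _ h4.1]
          rw [h8]
          exact ht'.div h4
        · refine ⟨1, one_ne_zero, ?_⟩
          rw [map_one, div_one]
          exact isU_of_not_nonunit (add_mem hcW hβU.2.1) h3
    · have hc0 : c ≠ 0 := fun h => hcW (by rw [h]; exact zero_mem _)
      obtain ⟨t, ht, ht'⟩ := hS c hc hc0
      refine ⟨t, ht, ?_⟩
      have h3 : (c + β) / algebraMap R Ω t = c / algebraMap R Ω t * (1 + β * c⁻¹) := by
        field_simp
      rw [h3]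
      refine ht'.mul (isU_add_non isU_one (non_mul hβU.2.1 ?_))
      rw [nonunits_iff]
      refine ⟨(W.mem_or_inv_mem c).resolve_left hcW, Or.inr ?_⟩
      rw [inv_inv]
      exact hcW
  rintro z ⟨a, ha, b, hb, rfl⟩ hz
  by_cases hb0 : b = 0
  · rw [hb0, zero_mul, add_zero] at hz ⊢
    exact hS a ha hz
  · have h3 : a + b * β = b * (a / b + β) := by field_simp
    rw [h3] at hz ⊢
    obtain ⟨t1, ht1, ht1'⟩ := hS b hb hb0
    obtain ⟨t2, ht2, ht2'⟩ := key (a / b) (S.div_mem ha hb) (right_ne_zero_of_mul hz)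
    refine ⟨t1 * t2, mul_ne_zero ht1 ht2, ?_⟩
    rw [map_mul, mul_div_mul_comm]
    exact ht1'.mul ht2'

/-- there is a good subfield which is closed under the square roots of units -/
theorem exists_good (h2 : IsU W (2 : Ω)) : ∃ S : Subfield Ω, (∀ z : R, algebraMap R Ω z ∈ S) ∧
    Good (R := R) W S ∧ ∀ u ∈ S, IsU W u → ∀ β, β ^ 2 = u → β ∈ S := by
  obtain ⟨S, hRS, hmax⟩ := zorn_le_nonempty₀ {S : Subfield Ω | Good (R := R) W S} (by
    intro c hc hchain S0 hS0
    refine ⟨sSup c, ?_, fun S hS => le_sSup hS⟩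
    intro z hz hz0
    rw [Subfield.mem_sSup_of_directedOn ⟨S0, hS0⟩ hchain.directedOn] at hz
    obtain ⟨S, hS, hzS⟩ := hz
    exact hc hS z hzS hz0) (algebraMap R Ω).fieldRange (by
      rintro _ ⟨t, rfl⟩ ht
      refine ⟨t, fun h => ht (by rw [h, map_zero]), ?_⟩
      rw [div_self ht]
      exact isU_one)
  refine ⟨S, fun z => hRS ⟨z, rfl⟩, hmax.prop, fun u hu huU β hβ => ?_⟩
  by_contra hβS
  have h3 : S ≤ ext S hu hβ hβS := fun a ha => ⟨a, ha, 0, S.zero_mem, by ring⟩
  have h4 := hmax.le_of_ge (good_ext h2 hmax.prop hu hβ hβS huU) h3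
  exact hβS (h4 ⟨0, S.zero_mem, 1, S.one_mem, by ring⟩)

/-- such a field contains the square roots which are needed to halve points -/
theorem root_half {k : Type} [Field k] [Algebra k Ω] (hW : ∀ c : k, algebraMap k Ω c ∈ W)
    {S : Subfield Ω} (hk : ∀ c : k, algebraMap k Ω c ∈ S)
    (hcl : ∀ u ∈ S, IsU W u → ∀ β, β ^ 2 = u → β ∈ S)
    [IsAlgClosed Ω] {r : Fin 3 → k} (hr : Function.Injective r) {X Y : Ω} (hX : X ∈ S)
    (hYS : Y ∈ S) (hY : Y ^ 2 = (X - algebraMap k Ω (r 0)) * (X - algebraMap k Ω (r 1)) *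
      (X - algebraMap k Ω (r 2))) (j : Fin 3) :
    ∃ β ∈ S, β ^ 2 = X - algebraMap k Ω (r j) := by
  have hkU : ∀ c : k, c ≠ 0 → IsU W (algebraMap k Ω c) := fun c hc =>
    ⟨(_root_.map_ne_zero _).2 hc, hW c, by rw [← map_inv₀]; exact hW _⟩
  have hXr : ∀ i, X - algebraMap k Ω (r i) ∈ S := fun i => S.sub_mem hX (hk _)
  -- an element which is a unit times a square
  have key : ∀ g v : Ω, g ∈ S → v ∈ S → v ≠ 0 → IsU W (g / v ^ 2) → ∃ β ∈ S, β ^ 2 = g := by
    intro g v hg hv hv0 hU
    obtain ⟨β, hβ⟩ : ∃ β : Ω, β ^ 2 = g / v ^ 2 := IsAlgClosed.exists_pow_nat_eq _ (by norm_num)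
    refine ⟨β * v, S.mul_mem (hcl _ (S.div_mem hg (S.pow_mem hv 2)) hU β hβ) hv, ?_⟩
    rw [mul_pow, hβ, div_mul_cancel₀ _ (pow_ne_zero 2 hv0)]
  by_cases hne : ∀ i, X - algebraMap k Ω (r i) ≠ 0
  · have hY0 : Y ≠ 0 := by
      intro h0
      rw [h0, zero_pow two_ne_zero] at hY
      exact mul_ne_zero (mul_ne_zero (hne 0) (hne 1)) (hne 2) hY.symm
    by_cases hXW : X ∈ W
    · by_cases hu : X - algebraMap k Ω (r j) ∈ W.nonunits
      · -- the other factors are units
        have hoth : ∀ i, i ≠ j → IsU W (X - algebraMap k Ω (r i)) := by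
          intro i hi
          have h1 : X - algebraMap k Ω (r i) = algebraMap k Ω (r j - r i) +
              (X - algebraMap k Ω (r j)) := by
            rw [map_sub]
            ring
          rw [h1]
          exact isU_add_non (hkU _ (sub_ne_zero.2 fun h => hi (hr h).symm)) hu
        refine key _ Y (hXr j) hYS hY0 ?_
        have h3 : ∃ v, IsU W v ∧ Y ^ 2 = (X - algebraMap k Ω (r j)) * v := by
          fin_cases j
          · exact ⟨_, (hoth 1 (by decide)).mul (hoth 2 (by decide)), by
              rw [hY]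
              change _ = (X - algebraMap k Ω (r 0)) * _
              ring⟩
          · exact ⟨_, (hoth 0 (by decide)).mul (hoth 2 (by decide)), by
              rw [hY]
              change _ = (X - algebraMap k Ω (r 1)) * _
              ring⟩
          · exact ⟨_, (hoth 0 (by decide)).mul (hoth 1 (by decide)), by
              rw [hY]
              change _ = (X - algebraMap k Ω (r 2)) * _
              ring⟩
        obtain ⟨v, hv, e⟩ := h3
        rw [e]
        have h4 : (X - algebraMap k Ω (r j)) / ((X - algebraMap k Ω (r j)) * v) = v⁻¹ := by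
          rw [div_mul_eq_div_div, div_self (hne j), one_div]
        rw [h4]
        exact hv.inv
      · refine key _ 1 (hXr j) S.one_mem one_ne_zero ?_
        rw [one_pow, div_one]
        exact isU_of_not_nonunit (sub_mem hXW (hW _)) hu
    · have hX0 : X ≠ 0 := fun h => hXW (by rw [h]; exact zero_mem _)
      have hXi : X⁻¹ ∈ W.nonunits := by
        rw [nonunits_iff]
        refine ⟨(W.mem_or_inv_mem X).resolve_left hXW, Or.inr ?_⟩
        rw [inv_inv]
        exact hXW
      have hq : ∀ i, IsU W ((X - algebraMap k Ω (r i)) / X) := by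
        intro i
        have h1 : (X - algebraMap k Ω (r i)) / X = 1 + (-algebraMap k Ω (r i)) * X⁻¹ := by
          field_simp
          ring
        rw [h1]
        exact isU_add_non isU_one (non_mul (neg_mem (hW _)) hXi)
      refine key _ (Y / X) (hXr j) (S.div_mem hYS hX) (div_ne_zero hY0 hX0) ?_
      have h1 : (X - algebraMap k Ω (r j)) / (Y / X) ^ 2 =
          ((X - algebraMap k Ω (r j)) / X) / (((X - algebraMap k Ω (r 0)) / X) *
            ((X - algebraMap k Ω (r 1)) / X) * ((X - algebraMap k Ω (r 2)) / X)) := by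
        rw [div_pow, hY]
        have n0 := hne 0
        have n1 := hne 1
        have n2 := hne 2
        field_simp
      rw [h1]
      exact (hq j).div (((hq 0).mul (hq 1)).mul (hq 2))
  · push Not at hne
    obtain ⟨i, hi⟩ := hne
    have h1 : X - algebraMap k Ω (r j) = algebraMap k Ω (r i - r j) := by
      rw [map_sub, ← sub_eq_zero.1 hi]
    rw [h1]
    by_cases hij : r i - r j = 0
    · exact ⟨0, S.zero_mem, by rw [hij, map_zero, zero_pow two_ne_zero]⟩
    · refine key _ 1 (hk _) S.one_mem one_ne_zero ?_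
      rw [one_pow, div_one]
      exact hkU _ hij

end

end Run7.h369.CloB
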