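import Pool.Agent.Run7.h369.Bc

/-!
# The field generated by the division points of a point over `ℚ(x)`

(helper369.)
-/

set_option autoImplicit false
set_option linter.unusedSectionVars false

open WeierstrassCurve Pool.Agent.H901R3.MS Pool.Agent.TH954 Pool.Agent.TH942

namespace Run7.h369.Lev

open Run7.h369.Ell Run7.h369.Bc

section coords

variable {K : Type} [Field K] [CharZero K] {a b : K} {M : Type} [Field M] [Algebra K M]

/-- points with coordinates in a subfield -/
lemma inP_iff (S : IntermediateField K M) (T : PM a b M) :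
    InP S.toSubfield T ↔ ∃ T' : PM a b S, pm (sw a b) S.val T' = T := by
  constructor
  · intro h
    rcases T with _ | ⟨x, y, hxy⟩
    · exact ⟨.zero, rfl⟩
    · obtain ⟨hx, hy⟩ := h
      have hn : ((sw a b).baseChange S).toAffine.Nonsingular (⟨x, hx⟩ : S) (⟨y, hy⟩ : S) :=
        (Affine.baseChange_nonsingular (sw a b) (f := S.val) (RingHom.injective _) _ _).mp hxy
      exact ⟨.some _ _ hn, rfl⟩
  · rintro ⟨T', rfl⟩
    rcases T' with _ | ⟨x, y, hxy⟩
    · exact trivial
    · exact ⟨x.2, y.2⟩

open scoped Classical in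
lemma range_add {M' : Type} [Field M'] [Algebra K M'] (f : M' →ₐ[K] M) {T T' : PM a b M}
    (h : ∃ T1, pm (sw a b) f T1 = T) (h' : ∃ T1, pm (sw a b) f T1 = T') :
    ∃ T1, pm (sw a b) f T1 = T + T' := by
  obtain ⟨T1, rfl⟩ := h
  obtain ⟨T2, rfl⟩ := h'
  exact ⟨T1 + T2, map_add _ _ _⟩

open scoped Classical in
lemma range_neg {M' : Type} [Field M'] [Algebra K M'] (f : M' →ₐ[K] M) {T : PM a b M}
    (h : ∃ T1, pm (sw a b) f T1 = T) : ∃ T1, pm (sw a b) f T1 = -T := by
  obtain ⟨T1, rfl⟩ := h
  exact ⟨-T1, map_neg _ _⟩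

open scoped Classical in
lemma inP_add {S : Subfield M} (hS : ∀ c : K, algebraMap K M c ∈ S) {T T' : PM a b M}
    (h : InP S T) (h' : InP S T') : InP S (T + T') := by
  let S' : IntermediateField K M := S.toIntermediateField hS
  have e : S'.toSubfield = S := by ext; rfl
  rw [← e] at h h' ⊢
  rw [inP_iff] at h h' ⊢
  exact range_add _ h h'

open scoped Classical in
lemma inP_neg {S : Subfield M} (hS : ∀ c : K, algebraMap K M c ∈ S) {T : PM a b M}
    (h : InP S T) : InP S (-T) := by
  let S' : IntermediateField K M := S.toIntermediateField hS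
  have e : S'.toSubfield = S := by ext; rfl
  rw [← e] at h ⊢
  rw [inP_iff] at h ⊢
  exact range_neg _ h

end coords

section level

variable {K : Type} [Field K] [CharZero K] {a b : K} {r : Fin 3 → K}
  {R Ω : Type} [Field R] [Field Ω] [Algebra K R] [Algebra R Ω] [Algebra K Ω]
  [IsScalarTower K R Ω] [IsAlgClosure R Ω]

/-- the coordinates of a point -/
def crds (T : PM a b Ω) : Set Ω :=
  match T with
  | .zero => ∅
  | .some x y _ => {x, y}

lemma crds_finite (T : PM a b Ω) : (crds T).Finite := by
  rcases T with _ | ⟨x, y, h⟩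
  · exact Set.finite_empty
  · exact Set.toFinite {x, y}

open scoped Classical in
/-- the level field -/
theorem exists_level (h : Roots a b r) (P Q : PM a b Ω)
    (hσ : ∀ σ : Ω ≃ₐ[R] Ω, (pm (sw a b) ((σ : Ω →ₐ[R] Ω).restrictScalars K) P = P ∨
      pm (sw a b) ((σ : Ω →ₐ[R] Ω).restrictScalars K) P = -P) ∧
      pm (sw a b) ((σ : Ω →ₐ[R] Ω).restrictScalars K) Q = Q) {m : ℕ} (hm : 1 ≤ m) :
    ∃ L : IntermediateField R Ω, FiniteDimensional R L ∧ IsGalois R L ∧
      (∀ T : PM a b Ω, m • T = P - Q → InP L.toSubfield T) ∧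
      ∀ S : Subfield Ω, (∀ z : R, algebraMap R Ω z ∈ S) →
        (∀ T : PM a b Ω, (m • T = P - Q ∨ m • T = -P - Q) → InP S T) → ∀ z ∈ L, z ∈ S := by
  have hcl : IsAlgClosed Ω := IsAlgClosure.isAlgClosed R
  have halg : Algebra.IsAlgebraic R Ω := IsAlgClosure.isAlgebraic
  have hcΩ : CharZero Ω := charZero_of_injective_algebraMap (algebraMap K Ω).injective
  have hcR : CharZero R := charZero_of_injective_algebraMap (algebraMap K R).injective
  -- finiteness
  have hfib : ∀ C : PM a b Ω, {T : PM a b Ω | m • T = C}.Finite := by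
    intro C
    obtain ⟨hf, -, -⟩ := card_base_lt (disc4 h) Ω hm
    by_cases hne : ∃ T0 : PM a b Ω, m • T0 = C
    · obtain ⟨T0, hT0⟩ := hne
      refine (hf.image fun X => T0 + X).subset ?_
      intro T hT
      refine ⟨T - T0, ?_, ?_⟩
      · change m • (T - T0) = 0
        have hT' : m • T = C := hT
        rw [smul_sub, hT', hT0, sub_self]
      · change T0 + (T - T0) = T
        abel
    · push Not at hne
      convert Set.finite_empty (α := PM a b Ω)
      ext T
      simp only [Set.mem_ofPred_eq, Set.mem_empty_iff_false, iff_false]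
      exact hne T
  set 𝒮 : Set (PM a b Ω) := {T | m • T = P - Q ∨ m • T = -P - Q} with h𝒮
  have h𝒮f : 𝒮.Finite := ((hfib (P - Q)).union (hfib (-P - Q))).subset fun T hT => hT
  set S0 : Set Ω := ⋃ T ∈ 𝒮, crds T with hS0
  have hS0f : S0.Finite := h𝒮f.biUnion fun T _ => crds_finite T
  have hstab : ∀ (σ : Ω ≃ₐ[R] Ω), ∀ z ∈ S0, σ z ∈ S0 := by
    intro σ z hz
    rw [hS0, Set.mem_iUnion₂] at hz
    obtain ⟨T, hT, hzT⟩ := hz
    rw [hS0, Set.mem_iUnion₂]
    refine ⟨pm (sw a b) ((σ : Ω →ₐ[R] Ω).restrictScalars K) T, ?_, ?_⟩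
    · obtain ⟨h1, h2⟩ := hσ σ
      rcases hT with hT | hT
      · have h3 : m • pm (sw a b) ((σ : Ω →ₐ[R] Ω).restrictScalars K) T =
            pm (sw a b) ((σ : Ω →ₐ[R] Ω).restrictScalars K) P - Q := by
          rw [← map_nsmul, hT, map_sub, h2]
        rcases h1 with h1 | h1
        · left
          rw [h3, h1]
        · right
          rw [h3, h1]
      · have h3 : m • pm (sw a b) ((σ : Ω →ₐ[R] Ω).restrictScalars K) T =
            -pm (sw a b) ((σ : Ω →ₐ[R] Ω).restrictScalars K) P - Q := by
          rw [← map_nsmul, hT, map_sub, map_neg, h2]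
        rcases h1 with h1 | h1
        · right
          rw [h3, h1]
        · left
          rw [h3, h1, neg_neg]
    · rcases T with _ | ⟨x, y, hxy⟩
      · exact hzT.elim
      · have hzT' : z ∈ ({x, y} : Set Ω) := hzT
        change σ z ∈ ({σ x, σ y} : Set Ω)
        rcases hzT' with rfl | hz'
        · exact Set.mem_insert _ _
        · rw [Set.mem_singleton_iff] at hz'
          rw [hz']
          exact Set.mem_insert_of_mem _ rfl
  have hfin : Finite S0 := hS0f
  refine ⟨IntermediateField.adjoin R S0, ?_, ?_, ?_, ?_⟩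
  · exact IntermediateField.finiteDimensional_adjoin fun z _ =>
      (Algebra.IsAlgebraic.isAlgebraic z).isIntegral
  · have hn : Normal R (IntermediateField.adjoin R S0) := by
      have hnΩ : Normal R Ω := IsAlgClosure.normal R Ω
      rw [IntermediateField.normal_iff_forall_map_le']
      intro σ
      rw [IntermediateField.adjoin_map]
      rw [IntermediateField.adjoin_le_iff]
      rintro _ ⟨z, hz, rfl⟩
      exact IntermediateField.subset_adjoin R S0 (hstab σ z hz)
    exact ⟨⟩
  · intro T hT
    rcases T with _ | ⟨x, y, hxy⟩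
    · exact trivial
    · have h1 : ∀ z ∈ ({x, y} : Set Ω), z ∈ S0 := by
        intro z hz
        rw [hS0, Set.mem_iUnion₂]
        exact ⟨_, Or.inl hT, hz⟩
      exact ⟨IntermediateField.subset_adjoin R S0 (h1 x (Set.mem_insert _ _)),
        IntermediateField.subset_adjoin R S0 (h1 y (Set.mem_insert_of_mem _ rfl))⟩
  · intro S hS hT z hz
    have hle : IntermediateField.adjoin R S0 ≤ S.toIntermediateField hS := by
      rw [IntermediateField.adjoin_le_iff]
      intro w hw
      rw [hS0, Set.mem_iUnion₂] at hw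
      obtain ⟨T, hT', hwT⟩ := hw
      have h2 := hT T hT'
      rcases T with _ | ⟨x, y, hxy⟩
      · exact hwT.elim
      · have hwT' : w ∈ ({x, y} : Set Ω) := hwT
        rcases hwT' with rfl | hw'
        · exact h2.1
        · rw [Set.mem_singleton_iff] at hw'
          rw [hw']
          exact h2.2
    exact hle hz

end level

end Run7.h369.Lev
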