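import Pool.Agent.Run7.h369.Par
import Pool.Agent.Run7.h369.Lev
import Pool.Agent.Run7.h369.CloA
import Pool.Agent.Run7.h369.CloB
import Pool.Agent.Y157.PS.Num

/-!
# The level field of an elliptic quotient

(helper369.)
-/

set_option autoImplicit false
set_option linter.unusedSectionVars false

open WeierstrassCurve Pool.Agent.H901R3.MS Pool.Agent.TH954 Pool.Agent.TH942

namespace Run7.h369.AsmL

open Run7.h369.Ell Run7.h369.Bc Run7.h369.Kum Run7.h369.Par Run7.h369.Lev

section basic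

variable {k : Type} [Field k] [CharZero k] {u t : k} {c : Fin 3 → k}

/-- the equation of the curve in the extension `Φ` -/
abbrev Eqw (u t : k) (c : Fin 3 → k) {Φ : Type} [Field Φ] [Algebra k Φ] (X w : Φ) : Prop :=
  algebraMap k Φ (dd u t c) * w ^ 2 = (X - algebraMap k Φ t) *
    ((X - algebraMap k Φ (c 0)) * (X - algebraMap k Φ (c 1)) * (X - algebraMap k Φ (c 2)))

lemma eqw_one (Φ : Type) [Field Φ] [Algebra k Φ] : Eqw u t c (algebraMap k Φ u) (1 : Φ) := by
  unfold Eqw dd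
  simp only [map_mul, map_sub]
  ring

lemma eqw_neg {Φ : Type} [Field Φ] [Algebra k Φ] {X w : Φ} (h : Eqw u t c X w) :
    Eqw u t c X (-w) := neg_w h

lemma u_ne (h : Dis u t c) (Φ : Type) [Field Φ] [Algebra k Φ] :
    algebraMap k Φ u ≠ algebraMap k Φ t := fun e => h.ut ((algebraMap k Φ).injective e)

/-- the point `(u, 1)` -/
def qt (h : Dis u t c) (Φ : Type) [Field Φ] [Algebra k Φ] : PM (aa u t c) (bb u t c) Φ :=
  pt h (algebraMap k Φ u) 1 (u_ne h Φ) (eqw_one Φ)

lemma pm_qt (h : Dis u t c) {Φ Φ' : Type} [Field Φ] [Algebra k Φ] [Field Φ'] [Algebra k Φ']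
    (f : Φ →ₐ[k] Φ') : pm (sw (aa u t c) (bb u t c)) f (qt h Φ) = qt h Φ' :=
  pm_pt h (u_ne h Φ) (eqw_one Φ) f (u_ne h Φ') (eqw_one Φ') (f.commutes u) (map_one f)

end basic

section level

variable {k R Ω : Type} [Field k] [CharZero k] [Field R] [Field Ω] [Algebra k R] [Algebra R Ω]
  [Algebra k Ω] [IsScalarTower k R Ω] [IsAlgClosure R Ω] {x : R} {u t : k} {c : Fin 3 → k}

lemma x_ne (hx : Transcendental k x) (t : k) : algebraMap R Ω x ≠ algebraMap k Ω t := by
  intro e
  rw [IsScalarTower.algebraMap_apply k R Ω] at e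
  apply hx
  rw [(algebraMap R Ω).injective e]
  exact isAlgebraic_algebraMap t

open scoped Classical in
/-- the level field -/
theorem exists_L (hx : Transcendental k x) (h : Dis u t c) (m : ℕ) :
    ∃ (w : Ω) (hw : Eqw u t c (algebraMap R Ω x) w) (L : IntermediateField R Ω),
      FiniteDimensional R L ∧ IsGalois R L ∧
      (∀ T : PM (aa u t c) (bb u t c) Ω, 2 ^ m • T =
        pt h (algebraMap R Ω x) w (x_ne hx t) hw - qt h Ω → InP L.toSubfield T) ∧
      ∀ S : Subfield Ω, (∀ z : R, algebraMap R Ω z ∈ S) → w ∈ S →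
        (∀ X Y, Y ^ 2 = (X - algebraMap k Ω (rr u t c 0)) * (X - algebraMap k Ω (rr u t c 1)) *
          (X - algebraMap k Ω (rr u t c 2)) → X ∈ S → Y ∈ S →
            ∀ j, ∃ β ∈ S, β ^ 2 = X - algebraMap k Ω (rr u t c j)) →
        ∀ z ∈ L, z ∈ S := by
  have hcl : IsAlgClosed Ω := IsAlgClosure.isAlgClosed R
  have hdΩ : algebraMap k Ω (dd u t c) ≠ 0 := (_root_.map_ne_zero _).2 h.dd_ne
  obtain ⟨w, hw⟩ : ∃ w : Ω, Eqw u t c (algebraMap R Ω x) w := by
    obtain ⟨w, hw⟩ := IsAlgClosed.exists_pow_nat_eq ((algebraMap R Ω x - algebraMap k Ω t) *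
      ((algebraMap R Ω x - algebraMap k Ω (c 0)) * (algebraMap R Ω x - algebraMap k Ω (c 1)) *
        (algebraMap R Ω x - algebraMap k Ω (c 2))) / algebraMap k Ω (dd u t c)) (n := 2)
      (by norm_num)
    refine ⟨w, ?_⟩
    unfold Eqw
    rw [hw, mul_div_cancel₀ _ hdΩ]
  set P := pt h (algebraMap R Ω x) w (x_ne hx t) hw with hP
  have hσ : ∀ σ : Ω ≃ₐ[R] Ω,
      (pm (sw (aa u t c) (bb u t c)) ((σ : Ω →ₐ[R] Ω).restrictScalars k) P = P ∨
        pm (sw (aa u t c) (bb u t c)) ((σ : Ω →ₐ[R] Ω).restrictScalars k) P = -P) ∧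
      pm (sw (aa u t c) (bb u t c)) ((σ : Ω →ₐ[R] Ω).restrictScalars k) (qt h Ω) = qt h Ω := by
    intro σ
    refine ⟨?_, pm_qt h _⟩
    have h1 : ((σ : Ω →ₐ[R] Ω).restrictScalars k) (algebraMap R Ω x) = algebraMap R Ω x :=
      σ.commutes x
    have h2 : (σ w) ^ 2 = w ^ 2 := by
      apply mul_left_cancel₀ hdΩ
      rw [hw]
      have h3 := congrArg ((σ : Ω →ₐ[R] Ω).restrictScalars k) hw
      simp only [map_mul, map_pow, map_sub, AlgHom.commutes, h1] at h3
      exact h3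
    rcases sq_eq_sq_iff_eq_or_eq_neg.1 h2 with h3 | h3
    · exact Or.inl (pm_pt h (x_ne hx t) hw _ (x_ne hx t) hw h1 h3)
    · right
      rw [hP, neg_pt]
      exact pm_pt h (x_ne hx t) hw _ (x_ne hx t) (neg_w hw) h1 h3
  obtain ⟨L, hL1, hL2, hL3, hL4⟩ := exists_level h.roots P (qt h Ω) hσ (m := 2 ^ m)
    Nat.one_le_two_pow
  refine ⟨w, hw, L, hL1, hL2, hL3, fun S hR hwS hcS z hz => ?_⟩
  have hkS : ∀ a : k, algebraMap k Ω a ∈ S := by
    intro a
    rw [IsScalarTower.algebraMap_apply k R Ω]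
    exact hR _
  have hPS : InP S P := by
    refine ⟨?_, ?_⟩
    · exact S.add_mem (S.div_mem (hkS _) (S.sub_mem (hR x) (hkS _))) (hkS _)
    · exact S.div_mem (S.mul_mem (hkS _) hwS) (S.pow_mem (S.sub_mem (hR x) (hkS _)) 2)
  have hQS : InP S (qt h Ω) := by
    refine ⟨?_, ?_⟩
    · exact S.add_mem (S.div_mem (hkS _) (S.sub_mem (hkS _) (hkS _))) (hkS _)
    · exact S.div_mem (S.mul_mem (hkS _) S.one_mem) (S.pow_mem (S.sub_mem (hkS _) (hkS _)) 2)
  refine hL4 S hR ?_ z hz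
  intro T hT
  refine pow_memP h.roots S hkS hcS m T ?_
  rcases hT with hT | hT
  · rw [hT, sub_eq_add_neg]
    exact inP_add hkS hPS (inP_neg hkS hQS)
  · rw [hT, sub_eq_add_neg]
    exact inP_add hkS (inP_neg hkS hPS) (inP_neg hkS hQS)

open Pool.Agent.Y157.PS Pool.Agent.Y157.PC Run7.h369.CloB

/-- `w` is a unit above `u` -/
lemma w_unit (h : Dis u t c) {N : Type} [Field N] [Algebra k N] {W : ValuationSubring N}
    (hW : ∀ a : k, algebraMap k N a ∈ W) {X w : N} (hX : X - algebraMap k N u ∈ W.nonunits)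
    (hw : Eqw u t c X w) : IsU W (w ^ 2) ∧ IsU W w ∧ (w - 1 ∈ W.nonunits ∨ w + 1 ∈ W.nonunits) := by
  have hkU : ∀ z : k, z ≠ 0 → IsU W (algebraMap k N z) := fun z hz =>
    ⟨(_root_.map_ne_zero _).2 hz, hW z, by rw [← map_inv₀]; exact hW _⟩
  have hne : ∀ a : k, u ≠ a → IsU W (X - algebraMap k N a) := by
    intro a ha
    have e1 : X - algebraMap k N a = algebraMap k N (u - a) + (X - algebraMap k N u) := by
      rw [map_sub]
      ring
    rw [e1]
    exact isU_add_non (hkU _ (sub_ne_zero.2 ha)) hX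
  have hD := hkU _ h.dd_ne
  have h1 : IsU W (w ^ 2) := by
    have e1 : w ^ 2 = (X - algebraMap k N t) * ((X - algebraMap k N (c 0)) *
        (X - algebraMap k N (c 1)) * (X - algebraMap k N (c 2))) / algebraMap k N (dd u t c) := by
      rw [eq_div_iff hD.1, mul_comm]
      exact hw
    rw [e1]
    exact ((hne _ h.ut).mul (((hne _ (h.uc 0)).mul (hne _ (h.uc 1))).mul (hne _ (h.uc 2)))).div hD
  have h2 : IsU W w := isU_of_pow (n := 2) (by norm_num) h1
  refine ⟨h1, h2, ?_⟩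
  -- the square is 1 at `W`
  have h3 : w ^ 2 - 1 ∈ W.nonunits := by
    have hut : IsU W (algebraMap k N u - algebraMap k N t) := by
      rw [← map_sub]
      exact hkU _ (sub_ne_zero.2 h.ut)
    have e1 : algebraMap k N (dd u t c) * (w ^ 2 - 1) =
        ((X - algebraMap k N (c 0)) * (X - algebraMap k N (c 1)) * (X - algebraMap k N (c 2)) +
          (algebraMap k N u - algebraMap k N t) * (X - algebraMap k N (c 1)) *
            (X - algebraMap k N (c 2)) +
          (algebraMap k N u - algebraMap k N t) * (algebraMap k N u - algebraMap k N (c 0)) *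
            (X - algebraMap k N (c 2)) +
          (algebraMap k N u - algebraMap k N t) * (algebraMap k N u - algebraMap k N (c 0)) *
            (algebraMap k N u - algebraMap k N (c 1))) * (X - algebraMap k N u) := by
      have e2 : algebraMap k N (dd u t c) = (algebraMap k N u - algebraMap k N t) *
          ((algebraMap k N u - algebraMap k N (c 0)) * (algebraMap k N u - algebraMap k N (c 1)) *
            (algebraMap k N u - algebraMap k N (c 2))) := by
        unfold dd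
        simp only [map_mul, map_sub]
      have e3 : algebraMap k N (dd u t c) * w ^ 2 = _ := hw
      rw [mul_sub, e3, mul_one, e2]
      ring
    have hXW : X ∈ W := by
      have := add_mem (non_mem hX) (hW u)
      rwa [sub_add_cancel] at this
    refine non_of_isU_mul hD ?_
    rw [e1]
    have hs : ∀ a b : k, algebraMap k N a - algebraMap k N b ∈ W := fun a b =>
      sub_mem (hW _) (hW _)
    have hs' : ∀ a : k, X - algebraMap k N a ∈ W := fun a => sub_mem hXW (hW _)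
    exact non_mul (add_mem (add_mem (add_mem (mul_mem (mul_mem (hs' _) (hs' _)) (hs' _))
      (mul_mem (mul_mem (hs _ _) (hs' _)) (hs' _))) (mul_mem (mul_mem (hs _ _) (hs _ _)) (hs' _)))
      (mul_mem (mul_mem (hs _ _) (hs _ _)) (hs _ _))) hX
  by_contra hcon
  rw [not_or] at hcon
  have u1 := isU_of_not_nonunit (sub_mem h2.2.1 (one_mem W)) hcon.1
  have u2 := isU_of_not_nonunit (add_mem h2.2.1 (one_mem W)) hcon.2
  have h4 := (u1.mul u2).not_nonunit
  have e1 : (w - 1) * (w + 1) = w ^ 2 - 1 := by ring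
  rw [e1] at h4
  exact h4 h3

/-- the level field is unramified above `u` -/
theorem unr_L (h : Dis u t c) {w : Ω} (hw : Eqw u t c (algebraMap R Ω x) w)
    (L : IntermediateField R Ω)
    (hL : ∀ S : Subfield Ω, (∀ z : R, algebraMap R Ω z ∈ S) → w ∈ S →
        (∀ X Y, Y ^ 2 = (X - algebraMap k Ω (rr u t c 0)) * (X - algebraMap k Ω (rr u t c 1)) *
          (X - algebraMap k Ω (rr u t c 2)) → X ∈ S → Y ∈ S →
            ∀ j, ∃ β ∈ S, β ^ 2 = X - algebraMap k Ω (rr u t c j)) →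
        ∀ z ∈ L, z ∈ S) (W : ValuationSubring Ω) (hW : ∀ a : k, algebraMap k Ω a ∈ W)
    (hX : algebraMap R Ω x - algebraMap k Ω u ∈ W.nonunits) :
    ∀ z ∈ L, z ≠ 0 → ∃ s : R, s ≠ 0 ∧ IsU W (z / algebraMap R Ω s) := by
  have hcl : IsAlgClosed Ω := IsAlgClosure.isAlgClosed R
  have hcΩ : CharZero Ω := charZero_of_injective_algebraMap (algebraMap k Ω).injective
  have h2 : IsU W (2 : Ω) := by
    have e1 : (2 : Ω) = algebraMap k Ω 2 := by rw [map_ofNat]
    refine ⟨two_ne_zero, by rw [e1]; exact hW _, ?_⟩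
    rw [e1, ← map_inv₀]
    exact hW _
  obtain ⟨S, hRS, hgood, hroot⟩ := exists_good (R := R) (W := W) h2
  have hkS : ∀ a : k, algebraMap k Ω a ∈ S := by
    intro a
    rw [IsScalarTower.algebraMap_apply k R Ω]
    exact hRS _
  have hwS : w ∈ S := by
    obtain ⟨h3, -, -⟩ := w_unit h hW hX hw
    refine hroot (w ^ 2) ?_ h3 w rfl
    have e1 : w ^ 2 = (algebraMap R Ω x - algebraMap k Ω t) *
        ((algebraMap R Ω x - algebraMap k Ω (c 0)) *
        (algebraMap R Ω x - algebraMap k Ω (c 1)) * (algebraMap R Ω x - algebraMap k Ω (c 2))) /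
          algebraMap k Ω (dd u t c) := by
      rw [eq_div_iff ((_root_.map_ne_zero _).2 h.dd_ne), mul_comm]
      exact hw
    rw [e1]
    have hs : ∀ a : k, algebraMap R Ω x - algebraMap k Ω a ∈ S := fun a =>
      S.sub_mem (hRS _) (hkS _)
    exact S.div_mem (S.mul_mem (hs _) (S.mul_mem (S.mul_mem (hs _) (hs _)) (hs _))) (hkS _)
  intro z hz hz0
  refine hgood z (hL S hRS hwS ?_ z hz) hz0
  intro X Y hXY hXS hYS j
  exact root_half hW hkS hroot h.roots.inj hXS hYS hXY j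

end level

section pro

open Pool.Agent.Y157.PS Polynomial

variable {k R Ω : Type} [Field k] [CharZero k] [Field R] [Field Ω] [Algebra k R] [Algebra R Ω]
  [Algebra k Ω] [IsScalarTower k R Ω] [IsAlgClosure R Ω] {x : R} {u t : k} {c : Fin 3 → k}

/-- the level field is contained in the maximal unramified geometrically pro-2 extension, and `w` is
a product of square roots of the functions `(x - e) / (x - e')` -/
theorem pro_L (h : Dis u t c) {w : Ω} (hw : Eqw u t c (algebraMap R Ω x) w)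
    (F : Type) [Field F] [Algebra k F] [Algebra F Ω] [IsScalarTower k F Ω]
    [Algebra.IsAlgebraic F Ω] (f : k[X]) (hsep : f.Separable) (hdvd : 2 ∣ f.natDegree)
    (h3 : 3 ≤ f.natDegree) (d : k) (hd0 : d ≠ 0) (xF yF : F) (hx : Transcendental k xF)
    (hxy : algebraMap k F d * yF ^ 2 = aeval xF f)
    (hF : IntermediateField.adjoin k {xF, yF} = (⊤ : IntermediateField k F))
    (hxx : algebraMap F Ω xF = algebraMap R Ω x)
    (hRF : ∀ z : R, algebraMap R Ω z ∈ (algebraMap F Ω).range)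
    (ht : aeval t f = 0) (hc : ∀ j, aeval (c j) f = 0) :
    (∃ (z : Fin 3 → geomPro 2 k F Ω) (δ : algebraicClosure k Ω),
      (∀ j, ((z j : geomPro 2 k F Ω) : Ω) ^ 2 * (algebraMap R Ω x - algebraMap k Ω t) =
        (algebraMap R Ω x - algebraMap k Ω (c j))) ∧
      w = (δ : Ω) * ((z 0 : Ω) * (z 1 : Ω) * (z 2 : Ω) *
        (algebraMap R Ω x - algebraMap k Ω t) ^ 2)) ∧
    ∀ L : IntermediateField R Ω,
      (∀ S : Subfield Ω, (∀ z : R, algebraMap R Ω z ∈ S) → w ∈ S →
        (∀ X Y, Y ^ 2 = (X - algebraMap k Ω (rr u t c 0)) * (X - algebraMap k Ω (rr u t c 1)) *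
          (X - algebraMap k Ω (rr u t c 2)) → X ∈ S → Y ∈ S →
            ∀ j, ∃ β ∈ S, β ^ 2 = X - algebraMap k Ω (rr u t c j)) →
        ∀ z ∈ L, z ∈ S) → ∀ z ∈ L, z ∈ geomPro 2 k F Ω := by
  have hcl : IsAlgClosed Ω := IsAlgClosure.isAlgClosed R
  have : Fact (Nat.Prime 2) := ⟨Nat.prime_two⟩
  have hX0 : Transcendental k (algebraMap R Ω x) := by
    rw [← hxx]
    exact (transcendental_algebraMap_iff (R := k) (algebraMap F Ω).injective (a := xF)).2 hx
  have hne : ∀ a : k, algebraMap R Ω x - algebraMap k Ω a ≠ 0 := by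
    intro a ha
    apply hX0
    rw [sub_eq_zero.1 ha]
    exact isAlgebraic_algebraMap a
  have hroot : ∀ a : k, aeval a f = 0 → aeval (algebraMap k (algebraicClosure k Ω) a) f = 0 := by
    intro a ha
    rw [aeval_algebraMap_apply, ha, map_zero]
  have hz : ∀ j, ∃ z : geomPro 2 k F Ω, ((z : geomPro 2 k F Ω) : Ω) ^ 2 *
      (algebraMap R Ω x - algebraMap k Ω t) = (algebraMap R Ω x - algebraMap k Ω (c j)) := by
    intro j
    obtain ⟨z, hz⟩ := a_rts 2 k F Ω f hsep hdvd h3 d hd0 xF yF hx hxy hF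
      (algebraMap k (algebraicClosure k Ω) (c j)) (algebraMap k (algebraicClosure k Ω) t)
      (hroot _ (hc j)) (hroot _ ht)
    refine ⟨z, ?_⟩
    rw [hz, hxx]
    exact div_mul_cancel₀ _ (hne t)
  choose z hz using hz
  have hp : algebraMap k Ω (dd u t c) ≠ 0 := (_root_.map_ne_zero _).2 h.dd_ne
  have hsq : ((z 0 : Ω) * (z 1 : Ω) * (z 2 : Ω) *
        (algebraMap R Ω x - algebraMap k Ω t) ^ 2) ^ 2 = (algebraMap R Ω x - algebraMap k Ω t) *
      ((algebraMap R Ω x - algebraMap k Ω (c 0)) * (algebraMap R Ω x - algebraMap k Ω (c 1)) *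
        (algebraMap R Ω x - algebraMap k Ω (c 2))) := by
    rw [← hz 0, ← hz 1, ← hz 2]
    ring
  have hq0 : (z 0 : Ω) * (z 1 : Ω) * (z 2 : Ω) *
        (algebraMap R Ω x - algebraMap k Ω t) ^ 2 ≠ 0 := by
    intro h0
    rw [h0, zero_pow two_ne_zero] at hsq
    exact mul_ne_zero (hne t) (mul_ne_zero (mul_ne_zero (hne _) (hne _)) (hne _)) hsq.symm
  have hw1 : algebraMap k Ω (dd u t c) * w ^ 2 = ((z 0 : Ω) * (z 1 : Ω) * (z 2 : Ω) *
        (algebraMap R Ω x - algebraMap k Ω t) ^ 2) ^ 2 := by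
    rw [hsq]
    exact hw
  have hδ : IsAlgebraic k (w / ((z 0 : Ω) * (z 1 : Ω) * (z 2 : Ω) *
        (algebraMap R Ω x - algebraMap k Ω t) ^ 2)) := by
    have h4 : (w / ((z 0 : Ω) * (z 1 : Ω) * (z 2 : Ω) *
        (algebraMap R Ω x - algebraMap k Ω t) ^ 2)) ^ 2 = algebraMap k Ω (dd u t c)⁻¹ := by
      rw [div_pow, ← hw1, map_inv₀, div_mul_eq_div_div_swap, div_self, one_div]
      intro h0
      rw [h0, mul_zero] at hw1
      exact pow_ne_zero 2 hq0 hw1.symm
    refine IsAlgebraic.of_pow (n := 2) (by norm_num) ?_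
    rw [h4]
    exact isAlgebraic_algebraMap _
  have hwe : w = (w / ((z 0 : Ω) * (z 1 : Ω) * (z 2 : Ω) *
        (algebraMap R Ω x - algebraMap k Ω t) ^ 2)) * ((z 0 : Ω) * (z 1 : Ω) * (z 2 : Ω) *
        (algebraMap R Ω x - algebraMap k Ω t) ^ 2) := (div_mul_cancel₀ _ hq0).symm
  have hmem : (w / ((z 0 : Ω) * (z 1 : Ω) * (z 2 : Ω) *
        (algebraMap R Ω x - algebraMap k Ω t) ^ 2)) ∈ algebraicClosure k Ω := by
    rw [mem_algebraicClosure_iff]
    exact hδ
  refine ⟨⟨z, ⟨_, hmem⟩, hz, hwe⟩, fun L hL => ?_⟩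
  have hRM : ∀ z : R, algebraMap R Ω z ∈ (geomPro 2 k F Ω).toSubfield := by
    intro z
    obtain ⟨z', hz'⟩ := hRF z
    rw [← hz']
    exact (geomPro 2 k F Ω).algebraMap_mem z'
  have hkM : ∀ a : k, algebraMap k Ω a ∈ (geomPro 2 k F Ω).toSubfield := by
    intro a
    rw [IsScalarTower.algebraMap_apply k R Ω]
    exact hRM _
  refine hL (geomPro 2 k F Ω).toSubfield hRM ?_ ?_
  · rw [hwe]
    exact Subfield.mul_mem _ (const_geomPro 2 k (F := F) ⟨_, hmem⟩)
      (Subfield.mul_mem _ (Subfield.mul_mem _ (Subfield.mul_mem _ (z 0).2 (z 1).2) (z 2).2)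
        (Subfield.pow_mem _ (Subfield.sub_mem _ (hRM _) (hkM _)) 2))
  · intro X Y hXY hXS hYS j
    exact CloA.clo k F Ω f hsep hdvd h3 d hd0 xF yF hx hxy hF h.roots.inj hXS hYS hXY j

end pro

end Run7.h369.AsmL
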