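import Pool.Agent.H901R3.MS.Defs

/-!
# Halving points on `y² = (x - r₁) (x - r₂) (x - r₃)`

(helper369.)
-/

set_option autoImplicit false
set_option linter.unusedSectionVars false

open WeierstrassCurve Pool.Agent.H901R3.MS

namespace Run7.h369.Ell

variable {M : Type} [Field M]

/-- `a`, `b` are the coefficients of `(x - r₁) (x - r₂) (x - r₃)`, with different roots -/
structure Roots (a b : M) (r : Fin 3 → M) : Prop where
  sum : r 0 + r 1 + r 2 = 0
  ha : a = r 0 * r 1 + r 0 * r 2 + r 1 * r 2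
  hb : b = -(r 0 * r 1 * r 2)
  inj : Function.Injective r

variable {a b : M} {r : Fin 3 → M}

lemma Roots.ne01 (h : Roots a b r) : r 0 ≠ r 1 := h.inj.ne (by decide)
lemma Roots.ne02 (h : Roots a b r) : r 0 ≠ r 2 := h.inj.ne (by decide)
lemma Roots.ne12 (h : Roots a b r) : r 1 ≠ r 2 := h.inj.ne (by decide)

lemma Roots.fac (h : Roots a b r) (x : M) :
    x ^ 3 + a * x + b = (x - r 0) * (x - r 1) * (x - r 2) := by
  have h1 : r 2 = -(r 0 + r 1) := by linear_combination h.sum
  rw [h.ha, h.hb, h1]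
  ring

lemma Roots.root (h : Roots a b r) (j : Fin 3) : r j ^ 3 + a * r j + b = 0 := by
  rw [h.fac]
  fin_cases j <;> simp

lemma Roots.eqn (h : Roots a b r) {x y : M} (he : Eqn a b x y) :
    y ^ 2 = (x - r 0) * (x - r 1) * (x - r 2) := by
  rw [← h.fac]
  exact he

lemma Roots.disc (h : Roots a b r) (h2 : (2 : M) ≠ 0) : Disc a b := by
  unfold Disc
  have h1 : 4 * a ^ 3 + 27 * b ^ 2 = -((r 0 - r 1) * (r 0 - r 2) * (r 1 - r 2)) ^ 2 := by
    have h1 : r 2 = -(r 0 + r 1) := by linear_combination h.sum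
    rw [h.ha, h.hb, h1]
    ring
  rw [h1]
  refine mul_ne_zero h2 (neg_ne_zero.2 (pow_ne_zero _ ?_))
  exact mul_ne_zero (mul_ne_zero (sub_ne_zero.2 h.ne01) (sub_ne_zero.2 h.ne02))
    (sub_ne_zero.2 h.ne12)

/-- the coordinates are in the subfield `S` -/
def InS (S : Subfield M) : Pt a b → Prop
  | Affine.Point.zero => True
  | Affine.Point.some x y _ => x ∈ S ∧ y ∈ S

lemma nons_root (h : Roots a b r) (h2 : (2 : M) ≠ 0) (j : Fin 3) :
    (CV a b).toAffine.Nonsingular (r j) 0 := by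
  rw [nonsingular_iff (h.disc h2)]
  unfold Eqn
  rw [h.root]
  norm_num

open scoped Classical in
/-- a point of order two -/
lemma two_tors (h : Roots a b r) (h2 : (2 : M) ≠ 0) {P : Pt a b} (hP : P + P = 0) :
    P = 0 ∨ ∃ j, P = .some (r j) 0 (nons_root h h2 j) := by
  rcases P with _ | ⟨x, y, hxy⟩
  · exact Or.inl rfl
  · right
    have e := h.eqn (eqn_of hxy)
    have hn : (CV a b).toAffine.Nonsingular x (-y) := by
      rw [nonsingular_iff (h.disc h2)]
      have := eqn_of hxy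
      unfold Eqn at this ⊢
      rw [neg_sq]
      exact this
    have h3 := eq_neg_of_add_eq_zero_left hP
    rw [neg_some' hxy hn, Affine.Point.some.injEq] at h3
    have hy : y = 0 := by
      have h4 : 2 * y = 0 := by linear_combination h3.2
      exact (mul_eq_zero.1 h4).resolve_left h2
    subst hy
    have h5 : (x - r 0) * (x - r 1) * (x - r 2) = 0 := by rw [← e]; norm_num
    rcases mul_eq_zero.1 h5 with h6 | h6
    · rcases mul_eq_zero.1 h6 with h7 | h7
      · have h8 := sub_eq_zero.1 h7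
        subst h8
        exact ⟨0, rfl⟩
      · have h8 := sub_eq_zero.1 h7
        subst h8
        exact ⟨1, rfl⟩
    · have h8 := sub_eq_zero.1 h6
      subst h8
      exact ⟨2, rfl⟩

open scoped Classical in
lemma add_root (h : Roots a b r) (h2 : (2 : M) ≠ 0) (j : Fin 3) :
    (.some (r j) 0 (nons_root h h2 j) + .some (r j) 0 (nons_root h h2 j) : Pt a b) = 0 :=
  add_opp _ _ rfl (by norm_num)

open scoped Classical in
/-- duplication -/
lemma dbl (h2 : (2 : M) ≠ 0) {x y : M}
    (hxy : (CV a b).toAffine.Nonsingular x y) (hy : y ≠ 0) :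
    ∃ x0 y0 h0, (.some x y hxy + .some x y hxy : Pt a b) = .some x0 y0 h0 ∧
      ∀ t, t ^ 3 + a * t + b = 0 → (x0 - t) * (2 * y) ^ 2 = ((x - t) ^ 2 - (3 * t ^ 2 + a)) ^ 2 := by
  have hy' : y ≠ -y := by
    intro h3
    have h4 : 2 * y = 0 := by linear_combination h3
    rcases mul_eq_zero.1 h4 with h5 | h5
    · exact h2 h5
    · exact hy h5
  obtain ⟨h0, e⟩ := add_dbl hxy hxy rfl hy' _ _ _ rfl rfl rfl
  refine ⟨_, _, h0, e, fun t ht => ?_⟩
  have e1 := eqn_of hxy
  unfold Eqn at e1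
  have h2y : 2 * y ≠ 0 := mul_ne_zero h2 hy
  have e2 : (((3 * x ^ 2 + a) / (2 * y)) ^ 2 - x - x - t) * (2 * y) ^ 2 =
      (3 * x ^ 2 + a) ^ 2 - (2 * x + t) * (4 * y ^ 2) := by
    rw [sub_mul, sub_mul, sub_mul, div_pow, div_mul_cancel₀ _ (pow_ne_zero 2 h2y)]
    ring
  rw [e2, e1]
  have hb' : b = -t ^ 3 - a * t := by linear_combination ht
  rw [hb']
  ring

open scoped Classical in
/-- the halves of a point of order two -/
lemma half_root (h : Roots a b r) (h2 : (2 : M) ≠ 0) (j : Fin 3) {x y : M}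
    (hxy : (CV a b).toAffine.Nonsingular x y)
    (hd : (.some x y hxy + .some x y hxy : Pt a b) = .some (r j) 0 (nons_root h h2 j)) :
    (x - r j) ^ 2 = 3 * r j ^ 2 + a := by
  by_cases hy : y = 0
  · exfalso
    have h3 : (.some x y hxy + .some x y hxy : Pt a b) = 0 :=
      add_opp _ _ rfl (by rw [hy]; norm_num)
    rw [h3] at hd
    cases hd
  · obtain ⟨x0, y0, h0, e, hf⟩ := dbl h2 hxy hy
    rw [hd, Affine.Point.some.injEq] at e
    have h3 := hf (r j) (h.root j)
    rw [← e.1, sub_self, zero_mul] at h3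
    have h4 := pow_eq_zero_iff (two_ne_zero) |>.1 h3.symm
    linear_combination h4

open scoped Classical in
/-- halving a point -/
theorem half_mem (h : Roots a b r) (h2 : (2 : M) ≠ 0) (S : Subfield M) (hr : ∀ j, r j ∈ S)
    (Q : Pt a b) (hQ : ∀ x y h, Q + Q = .some x y h → ∀ j, ∃ β ∈ S, β ^ 2 = x - r j) :
    InS S Q := by
  rcases Q with _ | ⟨x, y, hxy⟩
  · trivial
  · by_cases hy : y = 0
    · have h3 : (.some x y hxy + .some x y hxy : Pt a b) = 0 :=
        add_opp _ _ rfl (by rw [hy]; norm_num)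
      rcases two_tors h h2 h3 with h4 | ⟨j, h4⟩
      · cases h4
      · rw [h4]
        exact ⟨hr j, S.zero_mem⟩
    · obtain ⟨x0, y0, h0, e, hf⟩ := dbl h2 hxy hy
      have hα : ∀ j, ∃ α ∈ S, α * (2 * y) = (x - r j) ^ 2 - (3 * r j ^ 2 + a) := by
        intro j
        obtain ⟨β, hβ, hβ2⟩ := hQ _ _ _ e j
        have h3 := hf (r j) (h.root j)
        rw [← hβ2, ← mul_pow, sq_eq_sq_iff_eq_or_eq_neg] at h3
        rcases h3 with h3 | h3
        · exact ⟨β, hβ, h3⟩
        · exact ⟨-β, S.neg_mem hβ, by rw [neg_mul, h3, neg_neg]⟩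
      choose α hα1 hα2 using hα
      have hs : r 2 = -(r 0 + r 1) := by linear_combination h.sum
      have e1 : (α 0 - α 1) * y = (r 1 - r 0) * (x - r 2) := by
        apply mul_left_cancel₀ h2
        rw [hs]
        linear_combination hα2 0 - hα2 1
      have e2 : (α 0 - α 2) * y = (r 2 - r 0) * (x - r 1) := by
        apply mul_left_cancel₀ h2
        rw [hs]
        have e3 := hα2 0
        have e4 := hα2 2
        rw [hs] at e4
        linear_combination e3 - e4
      have e5 : y * ((r 2 - r 0) * (α 0 - α 1) - (r 1 - r 0) * (α 0 - α 2)) =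
          (r 1 - r 0) * (r 2 - r 0) * (r 1 - r 2) := by
        linear_combination (r 2 - r 0) * e1 - (r 1 - r 0) * e2
      have n1 : (r 1 - r 0) * (r 2 - r 0) * (r 1 - r 2) ≠ 0 :=
        mul_ne_zero (mul_ne_zero (sub_ne_zero.2 h.ne01.symm) (sub_ne_zero.2 h.ne02.symm))
          (sub_ne_zero.2 h.ne12)
      have n2 : (r 2 - r 0) * (α 0 - α 1) - (r 1 - r 0) * (α 0 - α 2) ≠ 0 := by
        intro h3
        rw [h3, mul_zero] at e5
        exact n1 e5.symm
      have hyS : y ∈ S := by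
        rw [eq_div_of_mul_eq n2 e5]
        refine S.div_mem ?_ ?_
        · exact S.mul_mem (S.mul_mem (S.sub_mem (hr _) (hr _)) (S.sub_mem (hr _) (hr _)))
            (S.sub_mem (hr _) (hr _))
        · exact S.sub_mem (S.mul_mem (S.sub_mem (hr _) (hr _)) (S.sub_mem (hα1 _) (hα1 _)))
            (S.mul_mem (S.sub_mem (hr _) (hr _)) (S.sub_mem (hα1 _) (hα1 _)))
      refine ⟨?_, hyS⟩
      have n3 : r 1 - r 0 ≠ 0 := sub_ne_zero.2 h.ne01.symm
      have e6 : x = (α 0 - α 1) * y / (r 1 - r 0) + r 2 := by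
        rw [e1, mul_div_cancel_left₀ _ n3]
        ring
      rw [e6]
      exact S.add_mem (S.div_mem (S.mul_mem (S.sub_mem (hα1 _) (hα1 _)) hyS)
        (S.sub_mem (hr _) (hr _))) (hr _)

open scoped Classical in
/-- division by a power of two -/
theorem pow_mem (h : Roots a b r) (h2 : (2 : M) ≠ 0) (S : Subfield M) (hr : ∀ j, r j ∈ S)
    (hcl : ∀ x y, Eqn a b x y → x ∈ S → y ∈ S → ∀ j, ∃ β ∈ S, β ^ 2 = x - r j) (m : ℕ) :
    ∀ Q : Pt a b, InS S (2 ^ m • Q) → InS S Q := by
  induction m with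
  | zero =>
    intro Q hQ
    rwa [pow_zero, one_smul] at hQ
  | succ m ih =>
    intro Q hQ
    have h3 : InS S (Q + Q) := by
      apply ih
      rw [pow_succ, mul_smul, two_smul] at hQ
      exact hQ
    refine half_mem h h2 S hr Q fun x y h' e => ?_
    rw [e] at h3
    exact hcl x y (eqn_of h') h3.1 h3.2

end Run7.h369.Ell
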