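import Mathlib

/-!
# An automorphism that changes the signs of three square roots

(helper369.)
-/

set_option autoImplicit false

namespace Run7.h369.Fro

variable {K κ : Type} [Field K] [CharZero K] [Field κ] [Algebra K κ] [IsAlgClosure K κ]

/-- an automorphism that changes the sign of one square root -/
lemma one {c : K} (hc : ¬ IsSquare c) {δ : κ} (hδ : δ ^ 2 = algebraMap K κ c) :
    ∃ g : κ ≃ₐ[K] κ, g δ = -δ := by
  have hcl : IsAlgClosed κ := IsAlgClosure.isAlgClosed K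
  have halg : Algebra.IsAlgebraic K κ := IsAlgClosure.isAlgebraic
  by_contra hne
  push Not at hne
  have hfix : ∀ g : κ ≃ₐ[K] κ, g δ = δ := by
    intro g
    have h1 : (g δ) ^ 2 = δ ^ 2 := by rw [← map_pow, hδ, g.commutes]
    rcases sq_eq_sq_iff_eq_or_eq_neg.1 h1 with h2 | h2
    · exact h2
    · exact absurd h2 (hne g)
  have hG : IsGalois K κ := inferInstance
  have h2 : δ ∈ (⊥ : IntermediateField K κ) := by
    rw [← (InfiniteGalois.fixedField_bot : IntermediateField.fixedField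
      (⊤ : Subgroup (κ ≃ₐ[K] κ)) = ⊥)]
    rintro ⟨g, -⟩
    exact hfix g
  obtain ⟨q, hq⟩ := IntermediateField.mem_bot.1 h2
  apply hc
  refine ⟨q, ?_⟩
  apply (algebraMap K κ).injective
  rw [map_mul, hq, ← hδ, sq]

lemma sgn {c : K} {δ : κ} (hδ : δ ^ 2 = algebraMap K κ c) (g : κ ≃ₐ[K] κ) :
    g δ = δ ∨ g δ = -δ := by
  have h1 : (g δ) ^ 2 = δ ^ 2 := by rw [← map_pow, hδ, g.commutes]
  exact sq_eq_sq_iff_eq_or_eq_neg.1 h1

lemma two {c d : K} (hc : ¬ IsSquare c) (hd : ¬ IsSquare d) {δ ε : κ}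
    (hδ : δ ^ 2 = algebraMap K κ c) (hε : ε ^ 2 = algebraMap K κ d) :
    ∃ g : κ ≃ₐ[K] κ, g δ = -δ ∧ g ε = -ε := by
  obtain ⟨g, hg⟩ := one hc hδ
  obtain ⟨h, hh⟩ := one hd hε
  rcases sgn hε g with h1 | h1
  · rcases sgn hδ h with h2 | h2
    · refine ⟨g * h, ?_, ?_⟩
      · change g (h δ) = _
        rw [h2, hg]
      · change g (h ε) = _
        rw [hh, map_neg, h1]
    · exact ⟨h, h2, hh⟩
  · exact ⟨g, hg, h1⟩

lemma three' {c d : K} (hc : ¬ IsSquare c) (hd : ¬ IsSquare d) {δ ε θ : κ} {t : K}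
    (hδ : δ ^ 2 = algebraMap K κ c) (hε : ε ^ 2 = algebraMap K κ d)
    (hθ : θ ^ 2 = algebraMap K κ t) {h : κ ≃ₐ[K] κ} (h1 : h δ = δ) (h2 : h ε = ε)
    (h3 : h θ = -θ) : ∃ g : κ ≃ₐ[K] κ, g δ = -δ ∧ g ε = -ε ∧ g θ = -θ := by
  obtain ⟨g, hg1, hg2⟩ := two hc hd hδ hε
  rcases sgn hθ g with h4 | h4
  · refine ⟨g * h, ?_, ?_, ?_⟩
    · change g (h δ) = _
      rw [h1, hg1]
    · change g (h ε) = _
      rw [h2, hg2]
    · change g (h θ) = _
      rw [h3, map_neg, h4]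
  · exact ⟨g, hg1, hg2, h4⟩

/-- an automorphism that changes the signs of three square roots -/
theorem three {c : Fin 3 → K} (hc : ∀ j, ¬ IsSquare (c j)) (hp : ¬ IsSquare (c 0 * c 1 * c 2))
    {δ : Fin 3 → κ} (hδ : ∀ j, δ j ^ 2 = algebraMap K κ (c j)) :
    ∃ g : κ ≃ₐ[K] κ, ∀ j, g (δ j) = -δ j := by
  have hπ : (δ 0 * δ 1 * δ 2) ^ 2 = algebraMap K κ (c 0 * c 1 * c 2) := by
    rw [mul_pow, mul_pow, hδ, hδ, hδ, map_mul, map_mul]
  obtain ⟨h, hh⟩ := one hp hπ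
  have h0 : ∀ j, δ j ≠ 0 := by
    intro j hj
    have h1 := hδ j
    rw [hj, zero_pow two_ne_zero] at h1
    apply hc j
    have h2 : c j = 0 := (map_eq_zero _).1 h1.symm
    rw [h2]
    exact IsSquare.zero
  have hcz : CharZero κ := charZero_of_injective_algebraMap (algebraMap K κ).injective
  have hne : δ 0 * δ 1 * δ 2 ≠ 0 := mul_ne_zero (mul_ne_zero (h0 0) (h0 1)) (h0 2)
  have hbad : δ 0 * δ 1 * δ 2 ≠ -(δ 0 * δ 1 * δ 2) := by
    intro h1
    have h2 : (2 : κ) * (δ 0 * δ 1 * δ 2) = 0 := by linear_combination h1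
    rcases mul_eq_zero.1 h2 with h3 | h3
    · exact two_ne_zero h3
    · exact hne h3
  have hall : ∀ g : κ ≃ₐ[K] κ, g (δ 0) = -δ 0 → g (δ 1) = -δ 1 → g (δ 2) = -δ 2 →
      ∃ g : κ ≃ₐ[K] κ, ∀ j, g (δ j) = -δ j := by
    intro g e0 e1 e2
    refine ⟨g, fun j => ?_⟩
    fin_cases j
    · exact e0
    · exact e1
    · exact e2
  rw [map_mul, map_mul] at hh
  rcases sgn (hδ 0) h with e0 | e0 <;> rcases sgn (hδ 1) h with e1 | e1 <;>
    rcases sgn (hδ 2) h with e2 | e2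
  · exfalso
    rw [e0, e1, e2] at hh
    exact hbad hh
  · obtain ⟨g, g0, g1, g2⟩ := three' (hc 0) (hc 1) (hδ 0) (hδ 1) (hδ 2) e0 e1 e2
    exact hall g g0 g1 g2
  · obtain ⟨g, g0, g1, g2⟩ := three' (hc 0) (hc 2) (hδ 0) (hδ 2) (hδ 1) e0 e2 e1
    exact hall g g0 g2 g1
  · exfalso
    rw [e0, e1, e2] at hh
    apply hbad
    linear_combination hh
  · obtain ⟨g, g0, g1, g2⟩ := three' (hc 1) (hc 2) (hδ 1) (hδ 2) (hδ 0) e1 e2 e0
    exact hall g g2 g0 g1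
  · exfalso
    rw [e0, e1, e2] at hh
    apply hbad
    linear_combination hh
  · exfalso
    rw [e0, e1, e2] at hh
    apply hbad
    linear_combination hh
  · exact hall h e0 e1 e2

end Run7.h369.Fro
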