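import Pool.Agent.Run7.h369.Rig

/-!
# The rigidity theorem for the points of order `2^m` of a divisible group

(helper369.)
-/

set_option autoImplicit false
set_option linter.unusedSectionVars false

open Matrix Run7.h369.Rig

namespace Run7.h369.Tor

section parity

variable {m : ℕ}

lemma parity (z : ZMod (2 ^ m)) : ∃ q : ZMod (2 ^ m), z = 2 * q ∨ z = 2 * q + 1 := by
  have : NeZero (2 ^ m) := ⟨pow_ne_zero _ two_ne_zero⟩
  obtain ⟨k, h | h⟩ := Nat.even_or_odd' z.val
  · refine ⟨k, Or.inl ?_⟩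
    conv_lhs => rw [← ZMod.natCast_zmod_val z, h]
    push_cast
    rfl
  · refine ⟨k, Or.inr ?_⟩
    conv_lhs => rw [← ZMod.natCast_zmod_val z, h]
    push_cast
    rfl

/-- reduction modulo two -/
def red2 (hm : m ≠ 0) : ZMod (2 ^ m) →+* ZMod 2 := ZMod.castHom (dvd_pow_self 2 hm) (ZMod 2)

lemma red2_zero (hm : m ≠ 0) {z : ZMod (2 ^ m)} (h : red2 hm z = 0) : ∃ q, z = 2 * q := by
  obtain ⟨q, h1 | h1⟩ := parity z
  · exact ⟨q, h1⟩
  · exfalso
    rw [h1, map_add, map_mul, map_one, map_ofNat] at h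
    have h2 : (2 : ZMod 2) = 0 := by decide
    rw [h2, zero_mul, zero_add] at h
    exact one_ne_zero h

lemma red2_two (hm : m ≠ 0) (z : ZMod (2 ^ m)) : red2 hm (2 * z) = 0 := by
  rw [map_mul, map_ofNat]
  have h2 : (2 : ZMod 2) = 0 := by decide
  rw [h2, zero_mul]

/-- matrices over the field with two elements without eigenvectors -/
lemma mat2 : ∀ p q r s : ZMod 2,
    (∀ x y : ZMod 2, (x, y) ≠ (0, 0) → (p * x + q * y, r * x + s * y) ≠ (0, 0) ∧
      (p * x + q * y, r * x + s * y) ≠ (x, y)) →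
    p * p + q * r + p + 1 = 0 ∧ p * q + q * s + q = 0 ∧ r * p + s * r + r = 0 ∧
      r * q + s * s + s + 1 = 0 := by
  decide

lemma ev_iff {m : ℕ} (hm : m ≠ 0) (x y : ZMod (2 ^ m)) :
    (∃ w, ![x, y] = (2 : ZMod (2 ^ m)) • w) ↔ red2 hm x = 0 ∧ red2 hm y = 0 := by
  constructor
  · rintro ⟨w, hw⟩
    have h1 : x = 2 * w 0 := congrFun hw 0
    have h2 : y = 2 * w 1 := congrFun hw 1
    rw [h1, h2, red2_two, red2_two]
    exact ⟨rfl, rfl⟩
  · rintro ⟨h1, h2⟩
    obtain ⟨x', rfl⟩ := red2_zero hm h1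
    obtain ⟨y', rfl⟩ := red2_zero hm h2
    refine ⟨![x', y'], ?_⟩
    ext i
    fin_cases i <;> rfl

lemma red2_lift {m : ℕ} (hm : m ≠ 0) (x : ZMod 2) : ∃ x' : ZMod (2 ^ m), red2 hm x' = x := by
  refine ⟨(x.val : ZMod (2 ^ m)), ?_⟩
  rw [map_natCast, ZMod.natCast_zmod_val]

lemma mulVec2 {R : Type*} [CommRing R] (p q r s x y : R) :
    !![p, q; r, s] *ᵥ ![x, y] = ![p * x + q * y, r * x + s * y] := by
  ext i
  fin_cases i <;> simp [Matrix.mulVec, dotProduct, Fin.sum_univ_two]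

/-- a matrix without eigenvectors modulo two -/
lemma mat_A {m : ℕ} (hm : m ≠ 0) (A1 : Matrix (Fin 2) (Fin 2) (ZMod (2 ^ m)))
    (hA : ∀ v : Fin 2 → ZMod (2 ^ m), (¬ ∃ w, v = (2 : ZMod (2 ^ m)) • w) →
      (¬ ∃ w, A1 *ᵥ v = (2 : ZMod (2 ^ m)) • w) ∧
        ¬ ∃ w, A1 *ᵥ v = v + (2 : ZMod (2 ^ m)) • w) :
    ∃ X, A1 * A1 + A1 + 1 = (2 : ZMod (2 ^ m)) • X := by
  obtain ⟨p, q, r, s, rfl⟩ : ∃ p q r s, A1 = !![p, q; r, s] :=
    ⟨_, _, _, _, Matrix.eta_fin_two A1⟩
  have h1 := mat2 (red2 hm p) (red2 hm q) (red2 hm r) (red2 hm s) (by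
    intro x y hxy
    obtain ⟨x', rfl⟩ := red2_lift hm x
    obtain ⟨y', rfl⟩ := red2_lift hm y
    have h2 := hA ![x', y'] (by
      rw [ev_iff hm]
      rintro ⟨h3, h4⟩
      exact hxy (by rw [h3, h4]))
    rw [mulVec2, ev_iff hm] at h2
    refine ⟨fun h4 => h2.1 ?_, fun h4 => h2.2 ?_⟩
    · rw [Prod.mk.injEq] at h4
      simp only [map_add, map_mul]
      exact h4
    · rw [Prod.mk.injEq] at h4
      obtain ⟨w1, hw1⟩ := red2_zero hm (z := p * x' + q * y' - x') (by
        simp only [map_add, map_mul, map_sub]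
        rw [h4.1, sub_self])
      obtain ⟨w2, hw2⟩ := red2_zero hm (z := r * x' + s * y' - y') (by
        simp only [map_add, map_mul, map_sub]
        rw [h4.2, sub_self])
      refine ⟨![w1, w2], ?_⟩
      have e1 : p * x' + q * y' = x' + 2 * w1 := by linear_combination hw1
      have e2 : r * x' + s * y' = y' + 2 * w2 := by linear_combination hw2
      rw [e1, e2]
      ext i
      fin_cases i <;> rfl)
  obtain ⟨h2, h3, h4, h5⟩ := h1
  have g2 : red2 hm (p * p + q * r + p + 1) = 0 := by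
    simp only [map_add, map_mul, map_one]
    exact h2
  have g3 : red2 hm (p * q + q * s + q) = 0 := by
    simp only [map_add, map_mul]
    exact h3
  have g4 : red2 hm (r * p + s * r + r) = 0 := by
    simp only [map_add, map_mul]
    exact h4
  have g5 : red2 hm (r * q + s * s + s + 1) = 0 := by
    simp only [map_add, map_mul, map_one]
    exact h5
  obtain ⟨p', hp'⟩ := red2_zero hm g2
  obtain ⟨q', hq'⟩ := red2_zero hm g3
  obtain ⟨r', hr'⟩ := red2_zero hm g4
  obtain ⟨s', hs'⟩ := red2_zero hm g5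
  refine ⟨!![p', q'; r', s'], ?_⟩
  rw [Matrix.one_fin_two, Matrix.mul_fin_two]
  ext i j
  fin_cases i <;> fin_cases j
  · change p * p + q * r + p + 1 = 2 * p'
    exact hp'
  · change p * q + q * s + q + 0 = 2 * q'
    rw [add_zero]
    exact hq'
  · change r * p + s * r + r + 0 = 2 * r'
    rw [add_zero]
    exact hr'
  · change r * q + s * s + s + 1 = 2 * s'
    exact hs'

end parity

section abs

variable {A : Type*} [AddCommGroup A] {T : Fin 3 → A}

/-- the points of order two of a divisible group -/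
structure Data (T : Fin 3 → A) : Prop where
  div : ∀ P : A, ∃ Q, Q + Q = P
  two : ∀ j, T j + T j = 0
  ne0 : ∀ j, T j ≠ 0
  inj : Function.Injective T
  all : ∀ P : A, P + P = 0 → P = 0 ∨ ∃ j, P = T j

lemma Data.neg (h : Data T) (j : Fin 3) : -T j = T j := neg_eq_of_add_eq_zero_left (h.two j)

lemma Data.sum (h : Data T) : T 0 + T 1 = T 2 := by
  have h1 : (T 0 + T 1) + (T 0 + T 1) = 0 := by
    rw [add_add_add_comm, h.two, h.two, add_zero]
  rcases h.all _ h1 with h2 | ⟨j, h2⟩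
  · exfalso
    have h3 : T 0 = T 1 := by
      rw [eq_neg_of_add_eq_zero_left h2, h.neg]
    exact absurd (h.inj h3) (by decide)
  · fin_cases j
    · exfalso
      exact h.ne0 1 (by simpa using h2)
    · exfalso
      exact h.ne0 0 (by simpa using h2)
    · exact h2

lemma Data.divp (h : Data T) (k : ℕ) (P : A) : ∃ Q, 2 ^ k • Q = P := by
  induction k with
  | zero => exact ⟨P, by rw [pow_zero, one_smul]⟩
  | succ k ih =>
    obtain ⟨Q, hQ⟩ := ih
    obtain ⟨Q', hQ'⟩ := h.div Q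
    exact ⟨Q', by rw [pow_succ, mul_smul, two_smul, hQ', hQ]⟩

/-- the elements of order dividing `2^m` -/
def tors (A : Type*) [AddCommGroup A] (m : ℕ) : AddSubgroup A where
  carrier := {x | 2 ^ m • x = 0}
  zero_mem' := smul_zero _
  add_mem' := by
    intro x y hx hy
    change 2 ^ m • (x + y) = 0
    rw [smul_add, hx, hy, add_zero]
  neg_mem' := by
    intro x hx
    change 2 ^ m • (-x) = 0
    rw [smul_neg, hx, neg_zero]

lemma mem_tors {m : ℕ} {x : A} : x ∈ tors A m ↔ 2 ^ m • x = 0 := Iff.rfl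

instance torsMod (m : ℕ) : Module (ZMod (2 ^ m)) (tors A m) :=
  AddCommGroup.zmodModule fun x => Subtype.ext (by
    rw [AddSubgroup.coe_nsmul, x.2]
    rfl)

/-- the homomorphism given by two elements -/
def phi {m : ℕ} (B0 B1 : tors A m) : (Fin 2 → ZMod (2 ^ m)) →ₗ[ZMod (2 ^ m)] tors A m where
  toFun v := v 0 • B0 + v 1 • B1
  map_add' v w := by
    simp only [Pi.add_apply, add_smul]
    abel
  map_smul' c v := by
    simp only [Pi.smul_apply, smul_eq_mul, mul_smul, smul_add, RingHom.id_apply]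

lemma smul_pow {m : ℕ} (k : ℕ) (x : tors A m) :
    ((((2 : ZMod (2 ^ m)) ^ k • x : tors A m)) : A) = 2 ^ k • (x : A) := by
  have h1 : ((2 : ZMod (2 ^ m)) ^ k) = ((2 ^ k : ℕ) : ZMod (2 ^ m)) := by push_cast; rfl
  rw [h1, Nat.cast_smul_eq_nsmul, AddSubgroup.coe_nsmul]

/-- coordinates on the group of the elements of order dividing `2^m` -/
lemma Data.bij (h : Data T) {m : ℕ} (hm : m ≠ 0) (B0 B1 : tors A m)
    (h0 : 2 ^ (m - 1) • (B0 : A) = T 0) (h1 : 2 ^ (m - 1) • (B1 : A) = T 1) :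
    Function.Bijective (phi B0 B1) := by
  have hval : ∀ v : Fin 2 → ZMod (2 ^ m), 2 ^ (m - 1) • ((phi B0 B1 v : tors A m) : A) = 0 →
      ∃ w : Fin 2 → ZMod (2 ^ m), v = (2 : ZMod (2 ^ m)) • w := by
    intro v hv
    obtain ⟨p, hp⟩ := parity (v 0)
    obtain ⟨q, hq⟩ := parity (v 1)
    have e0 : ((((2 : ZMod (2 ^ m)) ^ (m - 1)) • phi B0 B1 v : tors A m)) = 0 := by
      apply Subtype.ext
      rw [smul_pow]
      exact hv
    have z0 : ∀ (B : tors A m) (x : ZMod (2 ^ m)),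
        ((2 : ZMod (2 ^ m)) ^ (m - 1)) • ((2 * x) • B) = 0 := by
      intro B x
      rw [smul_smul, ← mul_assoc, ← pow_succ, Nat.sub_add_cancel (Nat.one_le_iff_ne_zero.2 hm),
        two_pow_zero, zero_mul, zero_smul]
    have z1 : ∀ (B : tors A m) (x : ZMod (2 ^ m)),
        ((2 : ZMod (2 ^ m)) ^ (m - 1)) • ((2 * x + 1) • B) = (2 : ZMod (2 ^ m)) ^ (m - 1) • B := by
      intro B x
      rw [add_smul, smul_add, z0, zero_add, one_smul]
    change ((2 : ZMod (2 ^ m)) ^ (m - 1)) • (v 0 • B0 + v 1 • B1) = 0 at e0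
    rw [smul_add] at e0
    have c0 : ((((2 : ZMod (2 ^ m)) ^ (m - 1)) • B0 : tors A m) : A) = T 0 := by
      rw [smul_pow, h0]
    have c1 : ((((2 : ZMod (2 ^ m)) ^ (m - 1)) • B1 : tors A m) : A) = T 1 := by
      rw [smul_pow, h1]
    rcases hp with hp | hp <;> rcases hq with hq | hq
    · refine ⟨![p, q], ?_⟩
      ext i
      fin_cases i
      · exact hp
      · exact hq
    · exfalso
      rw [hp, hq, z0, z1, zero_add] at e0
      rw [e0] at c1
      exact h.ne0 1 c1.symm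
    · exfalso
      rw [hp, hq, z0, z1, add_zero] at e0
      rw [e0] at c0
      exact h.ne0 0 c0.symm
    · exfalso
      rw [hp, hq, z1, z1] at e0
      have e1 : ((((2 : ZMod (2 ^ m)) ^ (m - 1)) • B0 + ((2 : ZMod (2 ^ m)) ^ (m - 1)) • B1 :
          tors A m) : A) = 0 := by rw [e0]; rfl
      rw [AddSubgroup.coe_add, c0, c1, h.sum] at e1
      exact h.ne0 2 e1
  constructor
  · rw [injective_iff_map_eq_zero]
    intro v hv
    have key : ∀ k, k ≤ m → ∃ w : Fin 2 → ZMod (2 ^ m), v = ((2 : ZMod (2 ^ m)) ^ k) • w := by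
      intro k
      induction k with
      | zero => exact fun _ => ⟨v, by rw [pow_zero, one_smul]⟩
      | succ k ih =>
        intro hk
        obtain ⟨w, hw⟩ := ih (by omega)
        obtain ⟨w', hw'⟩ := hval w (by
          rw [hw, map_smul] at hv
          have h3 : 2 ^ (m - 1 - k) • (((2 : ZMod (2 ^ m)) ^ k • phi B0 B1 w : tors A m) : A) =
              0 := by
            rw [hv]
            exact smul_zero _
          rw [smul_pow, ← mul_smul, ← pow_add] at h3
          have e1 : m - 1 - k + k = m - 1 := by omega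
          rw [e1] at h3
          exact h3)
        exact ⟨w', by rw [hw, hw', smul_smul, pow_succ]⟩
    obtain ⟨w, hw⟩ := key m le_rfl
    rw [hw, two_pow_zero, zero_smul]
  · have key : ∀ k, k ≤ m → ∀ x : tors A m, 2 ^ k • (x : A) = 0 → ∃ v, phi B0 B1 v = x := by
      intro k
      induction k with
      | zero =>
        intro _ x hx
        rw [pow_zero, one_smul] at hx
        exact ⟨0, by rw [map_zero]; exact Subtype.ext hx.symm⟩
      | succ k ih =>
        intro hk x hx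
        have h2 : 2 ^ k • (x : A) + 2 ^ k • (x : A) = 0 := by
          rw [← two_smul ℕ (2 ^ k • (x : A)), ← mul_smul, ← pow_succ']
          exact hx
        have h3 : ∃ u, ((phi B0 B1 (((2 : ZMod (2 ^ m)) ^ (m - 1)) • u) : tors A m) : A) =
            2 ^ k • (x : A) := by
          have f0 : ∀ u, ((phi B0 B1 (((2 : ZMod (2 ^ m)) ^ (m - 1)) • u) : tors A m) : A) =
              2 ^ (m - 1) • ((phi B0 B1 u : tors A m) : A) := by
            intro u
            rw [map_smul, smul_pow]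
          rcases h.all _ h2 with h4 | ⟨j, h4⟩
          · exact ⟨0, by rw [h4, smul_zero, map_zero]; rfl⟩
          · fin_cases j
            · refine ⟨![1, 0], ?_⟩
              rw [h4, f0]
              change 2 ^ (m - 1) • (((1 : ZMod (2 ^ m)) • B0 + (0 : ZMod (2 ^ m)) • B1 :
                tors A m) : A) = T 0
              rw [one_smul, zero_smul, add_zero, h0]
            · refine ⟨![0, 1], ?_⟩
              rw [h4, f0]
              change 2 ^ (m - 1) • (((0 : ZMod (2 ^ m)) • B0 + (1 : ZMod (2 ^ m)) • B1 :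
                tors A m) : A) = T 1
              rw [one_smul, zero_smul, zero_add, h1]
            · refine ⟨![1, 1], ?_⟩
              rw [h4, f0]
              change 2 ^ (m - 1) • (((1 : ZMod (2 ^ m)) • B0 + (1 : ZMod (2 ^ m)) • B1 :
                tors A m) : A) = T 2
              rw [one_smul, one_smul, AddSubgroup.coe_add, smul_add, h0, h1, h.sum]
        obtain ⟨u, hu⟩ := h3
        obtain ⟨v, hv⟩ := ih (by omega) (x - phi B0 B1 (((2 : ZMod (2 ^ m)) ^ (m - 1 - k)) • u)) (by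
          rw [AddSubgroup.coe_sub, smul_sub, ← hu, map_smul, map_smul, smul_pow, smul_pow,
            ← mul_smul, ← pow_add]
          have e1 : k + (m - 1 - k) = m - 1 := by omega
          rw [e1, sub_self])
        exact ⟨v + ((2 : ZMod (2 ^ m)) ^ (m - 1 - k)) • u, by rw [map_add, hv, sub_add_cancel]⟩
    intro x
    exact key m le_rfl x x.2

end abs

section main

variable {A : Type*} [AddCommGroup A] {T : Fin 3 → A} {G : Type*} [Group G]
  [DistribMulAction G A]

/-- the action on the elements of order dividing `2^m` -/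
def actT (m : ℕ) (g : G) : tors A m →ₗ[ZMod (2 ^ m)] tors A m :=
  AddMonoidHom.toZModLinearMap (2 ^ m) (AddMonoidHom.mk' (fun x => (⟨g • (x : A), by
    rw [mem_tors, smul_comm, x.2]
    exact smul_zero g⟩ : tors A m)) (fun x y => Subtype.ext (smul_add g (x : A) (y : A))))

lemma coe_actT (m : ℕ) (g : G) (x : tors A m) : ((actT m g x : tors A m) : A) = g • (x : A) := rfl

/-- the matrices of the action -/
noncomputable def rep {m : ℕ} (e : (Fin 2 → ZMod (2 ^ m)) ≃ₗ[ZMod (2 ^ m)] tors A m) :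
    G →* Matrix (Fin 2) (Fin 2) (ZMod (2 ^ m)) where
  toFun g := LinearMap.toMatrix' (e.symm.toLinearMap ∘ₗ actT m g ∘ₗ e.toLinearMap)
  map_one' := by
    have h1 : e.symm.toLinearMap ∘ₗ actT m (1 : G) ∘ₗ e.toLinearMap = LinearMap.id := by
      apply LinearMap.ext
      intro v
      change e.symm (actT m (1 : G) (e v)) = v
      have h2 : actT m (1 : G) (e v) = e v := Subtype.ext (by rw [coe_actT, one_smul])
      rw [h2, e.symm_apply_apply]
    rw [h1, LinearMap.toMatrix'_id]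
  map_mul' g g' := by
    rw [← LinearMap.toMatrix'_comp]
    congr 1
    apply LinearMap.ext
    intro v
    change e.symm (actT m (g * g') (e v)) = e.symm (actT m g (e (e.symm (actT m g' (e v)))))
    rw [e.apply_symm_apply]
    congr 1
    exact Subtype.ext (by rw [coe_actT, coe_actT, coe_actT, mul_smul])

lemma rep_spec {m : ℕ} (e : (Fin 2 → ZMod (2 ^ m)) ≃ₗ[ZMod (2 ^ m)] tors A m) (g : G)
    (v : Fin 2 → ZMod (2 ^ m)) :
    ((e (rep e g *ᵥ v) : tors A m) : A) = g • ((e v : tors A m) : A) := by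
  have h1 : rep e g *ᵥ v = e.symm (actT m g (e v)) :=
    LinearMap.toMatrix'_mulVec (e.symm.toLinearMap ∘ₗ actT m g ∘ₗ e.toLinearMap) v
  rw [h1, e.apply_symm_apply, coe_actT]

/-- **The rigidity theorem**, abstract form. -/
theorem rigid_abs (h : Data T) (n : ℕ) (hfix : ∀ (g : G) j, g • T j = T j) (F : G)
    (hF : ∀ C j, C + C = T j → F • C ≠ C ∧ F • C ≠ -C) (α : G → A)
    (hα : ∀ g g', α (g * g') = α g + g • α g') (hα' : ∀ g, 2 ^ (2 * (n + 3) + 2) • α g = 0)
    (Q : A) (hQ : ∀ g : G, 2 ^ (2 * (n + 3) + 2) • (g • Q - Q) = 0)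
    (hP : ∀ g, (∃ t, 2 ^ (2 * (n + 3) + 2) • t = 0 ∧ α g = g • t - t) ∨
      ∃ t, 2 ^ (2 * (n + 3) + 2) • t = 0 ∧ α g + 2 • (g • Q - Q) = g • t - t) :
    (∃ t, 2 ^ (2 * (n + 3) + 2) • t = 0 ∧
        ∀ g, 2 ^ (2 * (n + 3) + 2 - n) • (α g - (g • t - t)) = 0) ∨
      (∃ t, 2 ^ (2 * (n + 3) + 2) • t = 0 ∧
        ∀ g, 2 ^ (2 * (n + 3) + 2 - n) • (α g + 2 • (g • Q - Q) - (g • t - t)) = 0) := by
  set m := 2 * (n + 3) + 2 with hm
  have hm0 : m ≠ 0 := by omega
  obtain ⟨b0, hb0⟩ := h.divp (m - 1) (T 0)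
  obtain ⟨b1, hb1⟩ := h.divp (m - 1) (T 1)
  have htw : ∀ (b : A) j, 2 ^ (m - 1) • b = T j → b ∈ tors A m := by
    intro b j hb
    rw [mem_tors]
    have e1 : m = m - 1 + 1 := by omega
    rw [e1, pow_succ', mul_smul, hb, two_smul, h.two]
  obtain ⟨e, he⟩ : ∃ e : (Fin 2 → ZMod (2 ^ m)) ≃ₗ[ZMod (2 ^ m)] tors A m,
      ∀ v, e v = phi ⟨b0, htw b0 0 hb0⟩ ⟨b1, htw b1 1 hb1⟩ v :=
    ⟨LinearEquiv.ofBijective _ (h.bij hm0 ⟨b0, htw b0 0 hb0⟩ ⟨b1, htw b1 1 hb1⟩ hb0 hb1),
      fun v => rfl⟩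
  -- the elements of order two
  have hT : ∀ v : Fin 2 → ZMod (2 ^ m), (2 ^ (m - 1) • ((e v : tors A m) : A) = 0) ∨
      ∃ j, 2 ^ (m - 1) • ((e v : tors A m) : A) = T j := by
    intro v
    refine h.all _ ?_
    rw [← two_smul ℕ (2 ^ (m - 1) • ((e v : tors A m) : A)), ← mul_smul, ← pow_succ',
      Nat.sub_add_cancel (by omega)]
    exact (e v).2
  have hT0 : ∀ v : Fin 2 → ZMod (2 ^ m), 2 ^ (m - 1) • ((e v : tors A m) : A) = 0 →
      ∃ w, v = (2 : ZMod (2 ^ m)) • w := by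
    intro v hv
    have h1 : (2 : ZMod (2 ^ m)) ^ (m - 1) • v = 0 := by
      apply e.injective
      rw [map_smul, map_zero]
      apply Subtype.ext
      rw [smul_pow]
      exact hv
    obtain ⟨w, hw⟩ := div_vec (by omega) v h1
    have e1 : m - (m - 1) = 1 := by omega
    rw [e1, pow_one] at hw
    exact ⟨w, hw⟩
  -- the matrix of `F`
  obtain ⟨A1, hA1⟩ : ∃ A1, rep e F = 1 + (2 : ZMod (2 ^ m)) • A1 := by
    have h1 : ∀ v, ∃ w, (rep e F - 1) *ᵥ v = (2 : ZMod (2 ^ m)) • w := by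
      intro v
      apply hT0
      rw [Matrix.sub_mulVec, Matrix.one_mulVec, map_sub, AddSubgroup.coe_sub, rep_spec, smul_sub,
        smul_comm]
      rcases hT v with h2 | ⟨j, h2⟩
      · rw [h2, smul_zero, sub_zero]
      · rw [h2, hfix, sub_self]
    have h2 : ∀ i j, ∃ w : ZMod (2 ^ m), (rep e F - 1) i j = 2 * w := by
      intro i j
      obtain ⟨w, hw⟩ := h1 (Pi.single j 1)
      refine ⟨w i, ?_⟩
      rw [Matrix.mulVec_single_one] at hw
      exact congrFun hw i
    choose W hW using h2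
    refine ⟨Matrix.of W, ?_⟩
    ext i j
    have h3 := hW i j
    rw [Matrix.sub_apply] at h3
    rw [Matrix.add_apply, Matrix.smul_apply, smul_eq_mul, Matrix.of_apply]
    linear_combination h3
  -- `A1` has no eigenvector modulo 2
  have hA2 : ∀ v : Fin 2 → ZMod (2 ^ m), (¬ ∃ w, v = (2 : ZMod (2 ^ m)) • w) →
      (¬ ∃ w, A1 *ᵥ v = (2 : ZMod (2 ^ m)) • w) ∧
        ¬ ∃ w, A1 *ᵥ v = v + (2 : ZMod (2 ^ m)) • w := by
    intro v hv
    have h1 : ∃ j, 2 ^ (m - 1) • ((e v : tors A m) : A) = T j :=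
      (hT v).resolve_left fun h2 => hv (hT0 v h2)
    obtain ⟨j, hj⟩ := h1
    have hC : 2 ^ (m - 2) • ((e v : tors A m) : A) + 2 ^ (m - 2) • ((e v : tors A m) : A) =
        T j := by
      rw [← hj, ← two_smul ℕ (2 ^ (m - 2) • ((e v : tors A m) : A)), ← mul_smul, ← pow_succ']
      have e1 : m - 2 + 1 = m - 1 := by omega
      rw [e1]
    obtain ⟨h2, h3⟩ := hF _ j hC
    have h4 : F • (2 ^ (m - 2) • ((e v : tors A m) : A)) = 2 ^ (m - 2) • ((e v : tors A m) : A) +
        2 ^ (m - 1) • ((e (A1 *ᵥ v) : tors A m) : A) := by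
      rw [smul_comm, ← rep_spec e, hA1, Matrix.add_mulVec, Matrix.one_mulVec, Matrix.smul_mulVec,
        map_add, AddSubgroup.coe_add, smul_add, map_smul]
      have e1 : (2 : ZMod (2 ^ m)) = 2 ^ 1 := (pow_one 2).symm
      rw [e1, smul_pow, ← mul_smul, ← pow_add]
      have e2 : m - 2 + 1 = m - 1 := by omega
      rw [e2]
    have h5 : ∀ w, 2 ^ (m - 1) • ((e ((2 : ZMod (2 ^ m)) • w) : tors A m) : A) = 0 := by
      intro w
      rw [map_smul]
      have e1 : (2 : ZMod (2 ^ m)) = 2 ^ 1 := (pow_one 2).symm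
      rw [e1, smul_pow, ← mul_smul, ← pow_add, Nat.sub_add_cancel (by omega)]
      exact (e w).2
    constructor
    · rintro ⟨w, hw⟩
      apply h2
      rw [h4, hw, h5, add_zero]
    · rintro ⟨w, hw⟩
      apply h3
      rw [h4, hw, map_add, AddSubgroup.coe_add, smul_add, h5, add_zero, hj]
      have h6 := h.neg j
      rw [eq_neg_iff_add_eq_zero]
      rw [add_right_comm, hC, h.two]
  obtain ⟨X, hX⟩ := mat_A hm0 A1 hA2
  -- the cocycles
  have hcoc : ∀ c : G → A, (∀ g g', c (g * g') = c g + g • c g') → (hc : ∀ g, 2 ^ m • c g = 0) →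
      Coc (rep e) (fun g => e.symm ⟨c g, hc g⟩) := by
    intro c hc1 hc g g'
    apply e.injective
    rw [map_add, e.apply_symm_apply, e.apply_symm_apply]
    apply Subtype.ext
    rw [AddSubgroup.coe_add, rep_spec, e.apply_symm_apply]
    exact hc1 g g'
  obtain ⟨β, hβ⟩ : ∃ β : G → A, ∀ g, β g = -((2 : ℕ) • (g • Q - Q)) := ⟨_, fun _ => rfl⟩
  have hβ1 : ∀ g g' : G, β (g * g') = β g + g • β g' := by
    intro g g'
    rw [hβ, hβ, hβ, mul_smul, smul_neg, smul_comm g (2 : ℕ), smul_sub g, ← neg_add, ← smul_add]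
    congr 2
    abel
  have hβ2 : ∀ g : G, 2 ^ m • β g = 0 := by
    intro g
    rw [hβ, smul_neg, smul_comm, hQ, smul_zero, neg_zero]
  have hbd : ∀ (g : G) (t : tors A m), ((e ((rep e g - 1) *ᵥ (e.symm t)) : tors A m) : A) =
      g • (t : A) - t := by
    intro g t
    rw [Matrix.sub_mulVec, Matrix.one_mulVec, map_sub, AddSubgroup.coe_sub, rep_spec,
      e.apply_symm_apply]
  have hsm : ∀ (x : tors A m) (v : Fin 2 → ZMod (2 ^ m)),
      e.symm x = (2 : ZMod (2 ^ m)) ^ (n + 3 - 3) • v → 2 ^ (m - n) • (x : A) = 0 := by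
    intro x v hx
    have h1 : x = (2 : ZMod (2 ^ m)) ^ n • e v := by
      have h2 : e (e.symm x) = e ((2 : ZMod (2 ^ m)) ^ (n + 3 - 3) • v) := by rw [hx]
      rw [e.apply_symm_apply, map_smul, Nat.add_sub_cancel] at h2
      exact h2
    rw [h1, smul_pow, ← mul_smul, ← pow_add]
    have e1 : m - n + n = m := by omega
    rw [e1]
    exact (e v).2
  have hmemF : -(F • Q - Q) ∈ tors A m := by rw [mem_tors, smul_neg, hQ, neg_zero]
  have hβF : ∃ t, e.symm (⟨β F, hβ2 F⟩ : tors A m) = (2 : ZMod (2 ^ m)) • t := by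
    refine ⟨e.symm ⟨-(F • Q - Q), hmemF⟩, ?_⟩
    apply e.injective
    rw [e.apply_symm_apply, map_smul, e.apply_symm_apply]
    apply Subtype.ext
    have e1 : (2 : ZMod (2 ^ m)) = 2 ^ 1 := (pow_one 2).symm
    rw [e1, smul_pow, pow_one]
    change β F = (2 : ℕ) • -(F • Q - Q)
    rw [hβ, smul_neg]
  have hr := rigid (j := n + 3) (by omega) hA1 hX (hcoc α hα hα') (hcoc β hβ1 hβ2) hβF (by
      intro g
      rcases hP g with ⟨t, ht, h1⟩ | ⟨t, ht, h1⟩
      · left
        refine ⟨e.symm ⟨t, ht⟩, ?_⟩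
        apply e.injective
        apply Subtype.ext
        rw [e.apply_symm_apply, hbd]
        exact h1
      · right
        refine ⟨e.symm ⟨t, ht⟩, ?_⟩
        apply e.injective
        apply Subtype.ext
        rw [hbd, map_sub, e.apply_symm_apply, e.apply_symm_apply, AddSubgroup.coe_sub]
        rw [← h1]
        change α g - β g = _
        rw [hβ, sub_neg_eq_add])
  rcases hr with ⟨t, ht⟩ | ⟨t, ht⟩
  · left
    refine ⟨e t, (e t).2, fun g => ?_⟩
    obtain ⟨v, hv⟩ := ht g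
    have h1 := hsm ((⟨α g, hα' g⟩ : tors A m) - (e ((rep e g - 1) *ᵥ t))) v (by
      rw [map_sub, e.symm_apply_apply]
      exact hv)
    rw [AddSubgroup.coe_sub] at h1
    have h2 := hbd g (e t)
    rw [e.symm_apply_apply] at h2
    rw [h2] at h1
    exact h1
  · right
    refine ⟨e t, (e t).2, fun g => ?_⟩
    obtain ⟨v, hv⟩ := ht g
    have h1 := hsm ((⟨α g, hα' g⟩ : tors A m) - ⟨β g, hβ2 g⟩ - (e ((rep e g - 1) *ᵥ t))) v (by
      rw [map_sub, map_sub, e.symm_apply_apply]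
      exact hv)
    rw [AddSubgroup.coe_sub, AddSubgroup.coe_sub] at h1
    have h2 := hbd g (e t)
    rw [e.symm_apply_apply] at h2
    rw [h2] at h1
    change 2 ^ (m - n) • (α g - β g - _) = 0 at h1
    rw [hβ, sub_neg_eq_add] at h1
    exact h1

end main

end Run7.h369.Tor
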