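import Pool.Agent.TH954.STor
import Pool.Agent.Run7.h369.Ell
import Pool.Agent.Run7.h369.Tor
import Pool.Agent.Run7.h369.Fro

/-!
# The points of `y² = (x - r₁) (x - r₂) (x - r₃)` over extensions of the base field

(helper369.)
-/

set_option autoImplicit false
set_option linter.unusedSectionVars false

open WeierstrassCurve Pool.Agent.H901R3.MS Pool.Agent.TH954 Pool.Agent.TH942

namespace Run7.h369.Bc

open Run7.h369.Ell

variable {K : Type} [Field K] [CharZero K] {a b : K} {r : Fin 3 → K}
  {M : Type} [Field M] [Algebra K M]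

/-- the points of the curve over the extension `M` of `K` -/
abbrev PM (a b : K) (M : Type) [Field M] [Algebra K M] : Type :=
  ((sw a b).baseChange M).toAffine.Point

lemma roots_map (h : Roots a b r) :
    Roots (algebraMap K M a) (algebraMap K M b) (fun j => algebraMap K M (r j)) where
  sum := by rw [← map_add, ← map_add, h.sum, map_zero]
  ha := by simp only [← map_mul, ← map_add]; rw [← h.ha]
  hb := by simp only [← map_mul, ← map_neg]; rw [← h.hb]
  inj := (algebraMap K M).injective.comp h.inj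

lemma two_ne (M : Type) [Field M] [Algebra K M] : (2 : M) ≠ 0 := by
  have : CharZero M := charZero_of_injective_algebraMap (algebraMap K M).injective
  exact two_ne_zero

lemma disc4 (h : Roots a b r) : 4 * a ^ 3 + 27 * b ^ 2 ≠ 0 := by
  have h1 := h.disc (two_ne_zero : (2 : K) ≠ 0)
  unfold Disc at h1
  exact right_ne_zero_of_mul h1

lemma nons (h : Roots a b r) (M : Type) [Field M] [Algebra K M] (j : Fin 3) :
    ((sw a b).baseChange M).toAffine.Nonsingular (algebraMap K M (r j)) 0 := by
  have key : ∀ W : WeierstrassCurve M, W = CV (algebraMap K M a) (algebraMap K M b) →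
      W.toAffine.Nonsingular (algebraMap K M (r j)) 0 := by
    rintro _ rfl
    exact nons_root (roots_map h) (two_ne (K := K) M) j
  exact key _ (base_eq a b M)

/-- the points of order two -/
def TT (h : Roots a b r) (M : Type) [Field M] [Algebra K M] (j : Fin 3) : PM a b M :=
  .some _ _ (nons h M j)

/-- the coordinates are in the subfield `S` -/
def InP (S : Subfield M) : PM a b M → Prop
  | Affine.Point.zero => True
  | Affine.Point.some x y _ => x ∈ S ∧ y ∈ S

open scoped Classical in
lemma TT_add (h : Roots a b r) (M : Type) [Field M] [Algebra K M] (j : Fin 3) :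
    TT h M j + TT h M j = 0 := by
  have key : ∀ (W : WeierstrassCurve M), W = CV (algebraMap K M a) (algebraMap K M b) →
      ∀ hn : W.toAffine.Nonsingular (algebraMap K M (r j)) 0,
      (.some _ _ hn + .some _ _ hn : W.toAffine.Point) = 0 := by
    rintro _ rfl hn
    exact add_root (roots_map h) (two_ne (K := K) M) j
  exact key _ (base_eq a b M) (nons h M j)

lemma TT_ne (h : Roots a b r) (M : Type) [Field M] [Algebra K M] (j : Fin 3) :
    TT h M j ≠ 0 := by
  intro h1
  cases h1

lemma TT_inj (h : Roots a b r) (M : Type) [Field M] [Algebra K M] :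
    Function.Injective (TT h M) := by
  intro i j hij
  unfold TT at hij
  rw [Affine.Point.some.injEq] at hij
  exact h.inj ((algebraMap K M).injective hij.1)

open scoped Classical in
lemma TT_all (h : Roots a b r) (P : PM a b M) (hP : P + P = 0) : P = 0 ∨ ∃ j, P = TT h M j := by
  have key : ∀ (W : WeierstrassCurve M), W = CV (algebraMap K M a) (algebraMap K M b) →
      ∀ (hn : ∀ j, W.toAffine.Nonsingular (algebraMap K M (r j)) 0) (P : W.toAffine.Point),
      P + P = 0 → P = 0 ∨ ∃ j, P = .some _ _ (hn j) := by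
    rintro _ rfl hn P hP
    exact two_tors (roots_map h) (two_ne (K := K) M) hP
  exact key _ (base_eq a b M) (nons h M) P hP

open scoped Classical in
lemma TT_data (h : Roots a b r) (M : Type) [Field M] [Algebra K M] [IsAlgClosed M] :
    Tor.Data (TT h M) where
  div P := by
    have : CharZero M := charZero_of_injective_algebraMap (algebraMap K M).injective
    obtain ⟨Q, hQ⟩ := exists_nsmul_base (disc4 h) M (n := 2) (by norm_num) P
    exact ⟨Q, by rw [← hQ, two_smul]⟩
  two := TT_add h M
  ne0 := TT_ne h M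
  inj := TT_inj h M
  all P hP := TT_all h P hP

open scoped Classical in
/-- the halves of the points of order two -/
lemma half_TT (h : Roots a b r) (j : Fin 3) {C : PM a b M} (hC : C + C = TT h M j) :
    ∃ x y hxy, C = .some x y hxy ∧
      (x - algebraMap K M (r j)) ^ 2 = algebraMap K M (3 * r j ^ 2 + a) := by
  have key : ∀ (W : WeierstrassCurve M), W = CV (algebraMap K M a) (algebraMap K M b) →
      ∀ (hn : W.toAffine.Nonsingular (algebraMap K M (r j)) 0) (x y : M)
        (hxy : W.toAffine.Nonsingular x y),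
      (.some _ _ hxy + .some _ _ hxy : W.toAffine.Point) = .some _ _ hn →
        (x - algebraMap K M (r j)) ^ 2 = 3 * (algebraMap K M (r j)) ^ 2 + algebraMap K M a := by
    rintro _ rfl hn x y hxy e
    exact half_root (roots_map h) (two_ne (K := K) M) j hxy e
  rcases C with _ | ⟨x, y, hxy⟩
  · exfalso
    have h1 : (Affine.Point.zero : PM a b M) + Affine.Point.zero = 0 := add_zero _
    rw [h1] at hC
    exact TT_ne h M j hC.symm
  · refine ⟨x, y, hxy, rfl, ?_⟩
    rw [key _ (base_eq a b M) (nons h M j) x y hxy hC]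
    simp only [map_add, map_mul, map_pow, map_ofNat]

open scoped Classical in
/-- division points have coordinates in a field which is closed under the square roots of the
functions `x - r j` -/
theorem pow_memP (h : Roots a b r) (S : Subfield M) (hS : ∀ c : K, algebraMap K M c ∈ S)
    (hcl : ∀ x y, y ^ 2 = (x - algebraMap K M (r 0)) * (x - algebraMap K M (r 1)) *
        (x - algebraMap K M (r 2)) → x ∈ S → y ∈ S → ∀ j, ∃ β ∈ S, β ^ 2 = x - algebraMap K M (r j))
    (m : ℕ) (Q : PM a b M) (hQ : InP S (2 ^ m • Q)) : InP S Q := by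
  have key : ∀ (W : WeierstrassCurve M), W = CV (algebraMap K M a) (algebraMap K M b) →
      ∀ (I : W.toAffine.Point → Prop), (∀ x y hxy, I (.some x y hxy) ↔ x ∈ S ∧ y ∈ S) →
      I Affine.Point.zero → ∀ Q : W.toAffine.Point, I (2 ^ m • Q) → I Q := by
    rintro _ rfl I hI hI0 Q hQ
    have hIn : ∀ P : (CV (algebraMap K M a) (algebraMap K M b)).toAffine.Point,
        I P ↔ InS S P := by
      intro P
      rcases P with _ | ⟨x, y, hxy⟩
      · exact ⟨fun _ => trivial, fun _ => hI0⟩
      · exact hI x y hxy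
    rw [hIn] at hQ ⊢
    refine pow_mem (roots_map h) (two_ne (K := K) M) S (fun j => hS _) ?_ m Q hQ
    intro x y he hx hy j
    exact hcl x y ((roots_map h).eqn he) hx hy j
  exact key _ (base_eq a b M) (InP S) (fun _ _ _ => Iff.rfl) trivial Q hQ

lemma pm_TT (h : Roots a b r) {M' : Type} [Field M'] [Algebra K M'] (f : M →ₐ[K] M')
    (j : Fin 3) : pm (sw a b) f (TT h M j) = TT h M' j := by
  unfold TT
  obtain ⟨h', e⟩ := pm_some (E := sw a b) f (nons h M j)
  rw [e, Affine.Point.some.injEq]
  exact ⟨f.commutes _, map_zero f⟩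

/-- the negative of a point has the same first coordinate -/
lemma neg_x {x y : M} (hxy : ((sw a b).baseChange M).toAffine.Nonsingular x y) :
    ∃ y' h', -(.some x y hxy : PM a b M) = .some x y' h' :=
  ⟨_, _, Affine.Point.neg_some hxy⟩

section rigid

variable {κ : Type} [Field κ] [Algebra K κ] [IsAlgClosed κ]

open scoped Classical in
/-- the action of the automorphisms on the points -/
noncomputable def ptAct (a b : K) : DistribMulAction (κ ≃ₐ[K] κ) (PM a b κ) where
  smul g P := pm (sw a b) (g : κ →ₐ[K] κ) P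
  one_smul P := by cases P <;> rfl
  mul_smul g g' P := by cases P <;> rfl
  smul_zero g := rfl
  smul_add g P Q := map_add (pm (sw a b) (g : κ →ₐ[K] κ)) P Q

open scoped Classical in
/-- the rigidity theorem for elliptic curves -/
theorem rigid_ell (h : Roots a b r) (F : κ ≃ₐ[K] κ)
    (hF : ∀ j (δ : κ), δ ^ 2 = algebraMap K κ (3 * r j ^ 2 + a) → F δ = -δ)
    (hD : ∀ j, 3 * r j ^ 2 + a ≠ 0) (n : ℕ)
    (α : (κ ≃ₐ[K] κ) → PM a b κ)
    (hα : ∀ g g', α (g * g') = α g + pm (sw a b) (g : κ →ₐ[K] κ) (α g'))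
    (hα' : ∀ g, 2 ^ (2 * (n + 3) + 2) • α g = 0) (Q : PM a b κ)
    (hQ : ∀ g : κ ≃ₐ[K] κ, 2 ^ (2 * (n + 3) + 2) • (pm (sw a b) (g : κ →ₐ[K] κ) Q - Q) = 0)
    (hP : ∀ g : κ ≃ₐ[K] κ, (∃ t, 2 ^ (2 * (n + 3) + 2) • t = 0 ∧
        α g = pm (sw a b) (g : κ →ₐ[K] κ) t - t) ∨
      ∃ t, 2 ^ (2 * (n + 3) + 2) • t = 0 ∧
        α g + 2 • (pm (sw a b) (g : κ →ₐ[K] κ) Q - Q) = pm (sw a b) (g : κ →ₐ[K] κ) t - t) :
    (∃ t, 2 ^ (2 * (n + 3) + 2) • t = 0 ∧ ∀ g : κ ≃ₐ[K] κ,
        2 ^ (2 * (n + 3) + 2 - n) • (α g - (pm (sw a b) (g : κ →ₐ[K] κ) t - t)) = 0) ∨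
      (∃ t, 2 ^ (2 * (n + 3) + 2) • t = 0 ∧ ∀ g : κ ≃ₐ[K] κ,
        2 ^ (2 * (n + 3) + 2 - n) • (α g + 2 • (pm (sw a b) (g : κ →ₐ[K] κ) Q - Q) -
          (pm (sw a b) (g : κ →ₐ[K] κ) t - t)) = 0) := by
  letI := ptAct (κ := κ) a b
  refine Tor.rigid_abs (TT_data h κ) n (fun g j => pm_TT h _ j) F ?_ α hα hα' Q hQ hP
  intro C j hC
  obtain ⟨x, y, hxy, rfl, hx⟩ := half_TT h j hC
  have hx1 := hF j _ hx
  rw [map_sub, F.commutes] at hx1
  have hne : x - algebraMap K κ (r j) ≠ 0 := by
    intro h0
    rw [h0, zero_pow two_ne_zero] at hx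
    exact hD j ((map_eq_zero _).1 hx.symm)
  have hne' : F x ≠ x := by
    intro h0
    rw [h0] at hx1
    have h1 : (2 : κ) * (x - algebraMap K κ (r j)) = 0 := by linear_combination hx1
    rcases mul_eq_zero.1 h1 with h2 | h2
    · exact two_ne (K := K) κ h2
    · exact hne h2
  obtain ⟨h', e⟩ := pm_some (E := sw a b) (F : κ →ₐ[K] κ) hxy
  constructor
  · intro h1
    change pm (sw a b) (F : κ →ₐ[K] κ) _ = _ at h1
    rw [e, Affine.Point.some.injEq] at h1
    exact hne' h1.1
  · intro h1
    change pm (sw a b) (F : κ →ₐ[K] κ) _ = _ at h1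
    obtain ⟨y', h'', e'⟩ := neg_x hxy
    rw [e, e', Affine.Point.some.injEq] at h1
    exact hne' h1.1

end rigid

end Run7.h369.Bc
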