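import Pool.Agent.Run7.h369.Pw

/-!
# The Kummer class of a section on an elliptic curve

(helper369.)
-/

set_option autoImplicit false
set_option linter.unusedSectionVars false

open WeierstrassCurve Pool.Agent.H901R3.MS Pool.Agent.TH954 Pool.Agent.TH942

namespace Run7.h369.Kum

open Run7.h369.Ell Run7.h369.Bc Run7.h369.Pw

variable {K N Ω κ : Type} [Field K] [CharZero K] [Field N] [Algebra K N] [Field Ω] [Algebra K Ω]
  [IsAlgClosed Ω] [Field κ] [Algebra K κ] [IsAlgClosed κ] [Algebra.IsAlgebraic K κ]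
  {a b : K} {r : Fin 3 → K}

/-- `P` and `Q` have the same reduction at `W` -/
def Same (W : ValuationSubring N) (P Q : PM a b N) : Prop :=
  ∃ (xp yp xq yq : N) (hp : ((sw a b).baseChange N).toAffine.Nonsingular xp yp)
    (hq : ((sw a b).baseChange N).toAffine.Nonsingular xq yq), P = .some xp yp hp ∧
    Q = .some xq yq hq ∧ xq ∈ W ∧ yq ∈ W ∧ xp - xq ∈ W.nonunits ∧ yp - yq ∈ W.nonunits

open scoped Classical in
/-- a section whose image acts on a division point as elements of decomposition groups above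
`Q` or `-Q` has the Kummer class of `Q` or `-Q` -/
theorem kummer (h : Roots a b r) (e : N →ₐ[K] Ω) (j : κ →ₐ[K] N)
    (s : (κ ≃ₐ[K] κ) → (N →ₐ[K] N)) (hmul : ∀ σ σ', s (σ * σ') = (s σ).comp (s σ'))
    (hs : ∀ σ c, s σ (j c) = j (σ c)) (F : κ ≃ₐ[K] κ)
    (hF : ∀ i (δ : κ), δ ^ 2 = algebraMap K κ (3 * r i ^ 2 + a) → F δ = -δ)
    (hD : ∀ i, 3 * r i ^ 2 + a ≠ 0) (n : ℕ) (P R0 : PM a b N) (Qk : PM a b κ)
    (hQk : ∀ σ : κ ≃ₐ[K] κ, pm (sw a b) (σ : κ →ₐ[K] κ) Qk = Qk)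
    (hP : ∀ σ, pm (sw a b) (s σ) P = P)
    (hR0 : 2 ^ (2 * (n + 3) + 2) • R0 = P - pm (sw a b) j Qk)
    (hpt : ∀ σ : κ ≃ₐ[K] κ, ∃ (W : ValuationSubring N) (τ : N →ₐ[K] N),
      (∀ c : K, algebraMap K N c ∈ W) ∧ (∀ z, τ z ∈ W ↔ z ∈ W) ∧ (∀ c, τ (j c) = j (σ c)) ∧
      pm (sw a b) τ R0 = pm (sw a b) (s σ) R0 ∧ pm (sw a b) τ P = P ∧
      (Same W P (pm (sw a b) j Qk) ∨ Same W P (-pm (sw a b) j Qk))) :
    ∃ R : PM a b N, (∀ σ, pm (sw a b) (s σ) R = R) ∧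
      (2 ^ n • R = P - pm (sw a b) j Qk ∨ 2 ^ n • R = P + pm (sw a b) j Qk) := by
  have c2 : CharZero κ := charZero_of_injective_algebraMap (algebraMap K κ).injective
  set m := 2 * (n + 3) + 2 with hm
  have hsj : ∀ σ T, pm (sw a b) (s σ) (pm (sw a b) j T) =
      pm (sw a b) j (pm (sw a b) (σ : κ →ₐ[K] κ) T) := by
    intro σ T
    rw [pm_pm, pm_pm]
    congr 2
    apply AlgHom.ext
    intro c
    exact hs σ c
  have hsmul : ∀ σ σ' T, pm (sw a b) (s (σ * σ')) T = pm (sw a b) (s σ) (pm (sw a b) (s σ') T) := by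
    intro σ σ' T
    rw [pm_pm, hmul]
  have hjinj : Function.Injective (pm (sw a b) j) := pm_injective (E := sw a b) j
  have hSfix : ∀ σ, pm (sw a b) (s σ) (P - pm (sw a b) j Qk) = P - pm (sw a b) j Qk := by
    intro σ
    rw [map_sub, hP, hsj, hQk]
  have hex : ∀ σ, ∃ T0, pm (sw a b) j T0 = pm (sw a b) (s σ) R0 - R0 := by
    intro σ
    refine tors_N h e j (n := 2 ^ m) Nat.one_le_two_pow _ ?_
    rw [smul_sub, ← map_nsmul, hR0, hSfix, sub_self]
  choose α hα using hex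
  have hα1 : ∀ g g' : κ ≃ₐ[K] κ, α (g * g') = α g + pm (sw a b) (g : κ →ₐ[K] κ) (α g') := by
    intro g g'
    apply hjinj
    rw [map_add, hα, hα, ← hsj, hα, hsmul, map_sub]
    abel
  have hα2 : ∀ g, 2 ^ m • α g = 0 := by
    intro g
    apply hjinj
    rw [map_nsmul, hα, map_zero, smul_sub, ← map_nsmul, hR0, hSfix, sub_self]
  obtain ⟨Q', hQ'⟩ := exists_nsmul_base (disc4 h) κ (n := 2 ^ m) Nat.one_le_two_pow Qk
  have hQ2 : ∀ g : κ ≃ₐ[K] κ, 2 ^ m • (pm (sw a b) (g : κ →ₐ[K] κ) Q' - Q') = 0 := by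
    intro g
    rw [smul_sub, ← map_nsmul, hQ', hQk, sub_self]
  have hdich : ∀ g : κ ≃ₐ[K] κ, (∃ t, 2 ^ m • t = 0 ∧
        α g = pm (sw a b) (g : κ →ₐ[K] κ) t - t) ∨
      ∃ t, 2 ^ m • t = 0 ∧
        α g + 2 • (pm (sw a b) (g : κ →ₐ[K] κ) Q' - Q') =
          pm (sw a b) (g : κ →ₐ[K] κ) t - t := by
    intro g
    obtain ⟨W, τ, w1, w2, w3, w4, w5, w6⟩ := hpt g
    have hτj : ∀ T, pm (sw a b) τ (pm (sw a b) j T) =
        pm (sw a b) j (pm (sw a b) (g : κ →ₐ[K] κ) T) := by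
      intro T
      rw [pm_pm, pm_pm]
      congr 2
      apply AlgHom.ext
      intro c
      exact w3 c
    rcases w6 with w6 | w6
    · left
      obtain ⟨xp, yp, xq, yq, hp, hq, k1, k2, k3, k4, k5, k6⟩ := w6
      obtain ⟨t, ht1, ht2⟩ := dich h e j W w1 τ w2 (g : κ →ₐ[K] κ) w3 m R0 P
        (pm (sw a b) j Qk) hR0 (by rw [map_sub, w5, hτj, hQk]) k1 k2 k3 k4 k5 k6
      refine ⟨t, ht1, ?_⟩
      apply hjinj
      rw [hα, ← w4, ht2]
    · right
      obtain ⟨xp, yp, xq, yq, hp, hq, k1, k2, k3, k4, k5, k6⟩ := w6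
      obtain ⟨t, ht1, ht2⟩ := dich h e j W w1 τ w2 (g : κ →ₐ[K] κ) w3 m
        (R0 + pm (sw a b) j (2 • Q')) P (-pm (sw a b) j Qk) (by
          rw [smul_add, hR0, ← map_nsmul, smul_comm, hQ', map_nsmul, two_smul]
          abel) (by rw [map_sub, w5, map_neg, hτj, hQk]) k1 k2 k3 k4 k5 k6
      refine ⟨t, ht1, ?_⟩
      apply hjinj
      rw [← ht2, map_add, hα, map_add, hτj, w4, map_nsmul, map_sub, map_nsmul, map_nsmul,
        map_nsmul, smul_sub]
      abel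
  rcases rigid_ell h F hF hD n α hα1 hα2 Q' hQ2 hdich with ⟨t, ht1, ht2⟩ | ⟨t, ht1, ht2⟩
  · refine ⟨2 ^ (m - n) • (R0 - pm (sw a b) j t), fun σ => ?_, Or.inl ?_⟩
    · rw [← sub_eq_zero, map_nsmul, ← smul_sub, map_sub, hsj]
      have h1 := congrArg (pm (sw a b) j) (ht2 σ)
      rw [map_nsmul, map_zero, map_sub, hα, map_sub] at h1
      rw [← h1]
      congr 1
      abel
    · rw [← mul_smul, ← pow_add]
      have e1 : n + (m - n) = m := by omega
      rw [e1, smul_sub, hR0, ← map_nsmul, ht1, map_zero, sub_zero]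
  · refine ⟨2 ^ (m - n) • (R0 + pm (sw a b) j (2 • Q') - pm (sw a b) j t), fun σ => ?_,
      Or.inr ?_⟩
    · rw [← sub_eq_zero, map_nsmul, ← smul_sub, map_sub, map_add, hsj, hsj]
      have h1 := congrArg (pm (sw a b) j) (ht2 σ)
      rw [map_nsmul, map_zero, map_sub, map_add, hα, map_sub, map_nsmul, map_sub] at h1
      rw [← h1]
      congr 1
      rw [map_nsmul, map_nsmul, map_nsmul, smul_sub]
      abel
    · rw [← mul_smul, ← pow_add]
      have e1 : n + (m - n) = m := by omega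
      rw [e1, smul_sub, smul_add, hR0, ← map_nsmul, ← map_nsmul, ht1, map_zero, sub_zero,
        smul_comm, hQ', map_nsmul, two_smul]
      abel

end Run7.h369.Kum
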