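import Pool.Agent.Run7.h369.Kum
import Pool.Agent.Y157.PS.Tools

/-!
# The curve `D w² = (x - t) (x - c₀) (x - c₁) (x - c₂)` in Weierstrass form

(helper369.)
-/

set_option autoImplicit false
set_option linter.unusedSectionVars false

open WeierstrassCurve Pool.Agent.H901R3.MS Pool.Agent.TH954 Pool.Agent.TH942

namespace Run7.h369.Par

open Run7.h369.Ell Run7.h369.Bc Run7.h369.Kum

section par

variable {k : Type} [Field k] (u t : k) (c : Fin 3 → k)

/-- the constant `D` -/
def dd : k := (u - t) * ((u - c 0) * (u - c 1) * (u - c 2))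

/-- the constant `g` -/
def gg : k := -((c 0 - t) * (c 1 - t) * (c 2 - t)) / dd u t c

/-- the constant `h` -/
def hh : k := -(gg u t c / (c 0 - t) + gg u t c / (c 1 - t) + gg u t c / (c 2 - t)) / 3

/-- the roots -/
def rr (j : Fin 3) : k := gg u t c / (c j - t) + hh u t c

/-- the coefficient `a` -/
def aa : k := rr u t c 0 * rr u t c 1 + rr u t c 0 * rr u t c 2 + rr u t c 1 * rr u t c 2

/-- the coefficient `b` -/
def bb : k := -(rr u t c 0 * rr u t c 1 * rr u t c 2)

/-- the points are different -/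
structure Dis : Prop where
  inj : Function.Injective c
  ct : ∀ j, c j ≠ t
  ut : u ≠ t
  uc : ∀ j, u ≠ c j

variable {u t c}

lemma Dis.sub (h : Dis u t c) (j : Fin 3) : c j - t ≠ 0 := sub_ne_zero.2 (h.ct j)

lemma Dis.dd_ne (h : Dis u t c) : dd u t c ≠ 0 :=
  mul_ne_zero (sub_ne_zero.2 h.ut) (mul_ne_zero (mul_ne_zero (sub_ne_zero.2 (h.uc 0))
    (sub_ne_zero.2 (h.uc 1))) (sub_ne_zero.2 (h.uc 2)))

lemma Dis.gg_ne (h : Dis u t c) : gg u t c ≠ 0 :=
  div_ne_zero (neg_ne_zero.2 (mul_ne_zero (mul_ne_zero (h.sub 0) (h.sub 1)) (h.sub 2))) h.dd_ne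

lemma Dis.gdd (h : Dis u t c) : (c 0 - t) * (c 1 - t) * (c 2 - t) = -(gg u t c * dd u t c) := by
  unfold gg
  rw [div_mul_cancel₀ _ h.dd_ne, neg_neg]

lemma Dis.roots [CharZero k] (h : Dis u t c) : Roots (aa u t c) (bb u t c) (rr u t c) where
  sum := by
    unfold rr hh
    ring
  ha := rfl
  hb := rfl
  inj := by
    intro i j hij
    unfold rr at hij
    have h1 := add_right_cancel hij
    rw [div_eq_div_iff (h.sub i) (h.sub j)] at h1
    have h2 := mul_left_cancel₀ h.gg_ne h1
    exact (h.inj (sub_left_injective h2)).symm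

lemma Dis.sub_rr (h : Dis u t c) (i j : Fin 3) :
    rr u t c i - rr u t c j = gg u t c * (c j - c i) / ((c i - t) * (c j - t)) := by
  unfold rr
  have h1 := h.sub i
  have h2 := h.sub j
  field_simp
  ring

lemma Dj [CharZero k] (h : Dis u t c) (i j l : Fin 3)
    (hs : rr u t c i + rr u t c j + rr u t c l = 0)
    (ha : aa u t c = rr u t c i * rr u t c j + rr u t c i * rr u t c l +
      rr u t c j * rr u t c l) :
    3 * rr u t c i ^ 2 + aa u t c = (rr u t c i - rr u t c j) * (rr u t c i - rr u t c l) := by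
  rw [ha]
  linear_combination 2 * rr u t c i * hs

lemma sq_of_sq [CharZero k] (h : Dis u t c) (i j l : Fin 3)
    (hs : rr u t c i + rr u t c j + rr u t c l = 0)
    (ha : aa u t c = rr u t c i * rr u t c j + rr u t c i * rr u t c l +
      rr u t c j * rr u t c l) (hsq : IsSquare (3 * rr u t c i ^ 2 + aa u t c)) :
    IsSquare ((c i - c j) * (c i - c l) * ((t - c j) * (t - c l))) := by
  rw [Dj h i j l hs ha, h.sub_rr, h.sub_rr] at hsq
  obtain ⟨q, hq⟩ := hsq
  refine ⟨q * ((c i - t) * (c j - t) * (c l - t) / gg u t c), ?_⟩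
  have h1 := h.sub i
  have h2 := h.sub j
  have h3 := h.sub l
  have h4 := h.gg_ne
  have h5 : (c i - c j) * (c i - c l) * ((t - c j) * (t - c l)) =
      (gg u t c * (c j - c i) / ((c i - t) * (c j - t)) *
        (gg u t c * (c l - c i) / ((c i - t) * (c l - t)))) *
        (((c i - t) * (c j - t) * (c l - t) / gg u t c) *
          ((c i - t) * (c j - t) * (c l - t) / gg u t c)) := by
    field_simp
    ring
  rw [h5, hq]
  ring

/-- the condition on the four points -/
structure NonSq (t : k) (c : Fin 3 → k) : Prop where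
  n0 : ¬ IsSquare ((c 0 - c 1) * (c 0 - c 2) * ((t - c 1) * (t - c 2)))
  n1 : ¬ IsSquare ((c 1 - c 0) * (c 1 - c 2) * ((t - c 0) * (t - c 2)))
  n2 : ¬ IsSquare ((c 2 - c 0) * (c 2 - c 1) * ((t - c 0) * (t - c 1)))

lemma nonsq_D [CharZero k] (h : Dis u t c) (hn : NonSq t c) (j : Fin 3) :
    ¬ IsSquare (3 * rr u t c j ^ 2 + aa u t c) := by
  intro hsq
  have hr := h.roots.sum
  fin_cases j
  · exact hn.n0 (sq_of_sq h 0 1 2 hr rfl hsq)
  · exact hn.n1 (sq_of_sq h 1 0 2 (by linear_combination hr) (by unfold aa; ring) hsq)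
  · exact hn.n2 (sq_of_sq h 2 0 1 (by linear_combination hr) (by unfold aa; ring) hsq)

lemma nonsq_prod [CharZero k] (h : Dis u t c) (h1 : ¬ IsSquare (-1 : k)) :
    ¬ IsSquare ((3 * rr u t c 0 ^ 2 + aa u t c) * (3 * rr u t c 1 ^ 2 + aa u t c) *
      (3 * rr u t c 2 ^ 2 + aa u t c)) := by
  have hr := h.roots.sum
  rw [Dj h 0 1 2 hr rfl, Dj h 1 0 2 (by linear_combination hr) (by unfold aa; ring),
    Dj h 2 0 1 (by linear_combination hr) (by unfold aa; ring)]
  rintro ⟨q, hq⟩
  apply h1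
  have n1 : rr u t c 0 - rr u t c 1 ≠ 0 := sub_ne_zero.2 h.roots.ne01
  have n2 : rr u t c 0 - rr u t c 2 ≠ 0 := sub_ne_zero.2 h.roots.ne02
  have n3 : rr u t c 1 - rr u t c 2 ≠ 0 := sub_ne_zero.2 h.roots.ne12
  refine ⟨q / ((rr u t c 0 - rr u t c 1) * (rr u t c 0 - rr u t c 2) *
    (rr u t c 1 - rr u t c 2)), ?_⟩
  rw [div_mul_div_comm, ← hq, eq_div_iff (mul_ne_zero (mul_ne_zero (mul_ne_zero n1 n2) n3)
    (mul_ne_zero (mul_ne_zero n1 n2) n3))]
  ring

end par

section point

variable {k : Type} [Field k] [CharZero k] {u t : k} {c : Fin 3 → k} {Φ : Type} [Field Φ]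
  [Algebra k Φ]

/-- the first coordinate -/
def xp (u t : k) (c : Fin 3 → k) (X : Φ) : Φ :=
  algebraMap k Φ (gg u t c) / (X - algebraMap k Φ t) + algebraMap k Φ (hh u t c)

/-- the second coordinate -/
def yp (u t : k) (c : Fin 3 → k) (X w : Φ) : Φ :=
  algebraMap k Φ (gg u t c) * w / (X - algebraMap k Φ t) ^ 2

lemma pt_eqn (h : Dis u t c) {X w : Φ} (hX : X ≠ algebraMap k Φ t)
    (hw : algebraMap k Φ (dd u t c) * w ^ 2 = (X - algebraMap k Φ t) *
      ((X - algebraMap k Φ (c 0)) * (X - algebraMap k Φ (c 1)) * (X - algebraMap k Φ (c 2)))) :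
    yp u t c X w ^ 2 = (xp u t c X - algebraMap k Φ (rr u t c 0)) *
      (xp u t c X - algebraMap k Φ (rr u t c 1)) *
      (xp u t c X - algebraMap k Φ (rr u t c 2)) := by
  have hX' : X - algebraMap k Φ t ≠ 0 := sub_ne_zero.2 hX
  have hc : ∀ j, algebraMap k Φ (c j) - algebraMap k Φ t ≠ 0 := fun j => by
    rw [← map_sub]
    exact (_root_.map_ne_zero _).2 (h.sub j)
  have hD : algebraMap k Φ (dd u t c) ≠ 0 := (_root_.map_ne_zero _).2 h.dd_ne
  have hG : algebraMap k Φ (gg u t c) ≠ 0 := (_root_.map_ne_zero _).2 h.gg_ne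
  have hgd : (algebraMap k Φ (c 0) - algebraMap k Φ t) * (algebraMap k Φ (c 1) -
      algebraMap k Φ t) * (algebraMap k Φ (c 2) - algebraMap k Φ t) =
      -(algebraMap k Φ (gg u t c) * algebraMap k Φ (dd u t c)) := by
    have h1 := congrArg (algebraMap k Φ) h.gdd
    simpa only [map_mul, map_sub, map_neg] using h1
  have hx : ∀ j, xp u t c X - algebraMap k Φ (rr u t c j) =
      -(algebraMap k Φ (gg u t c) * (X - algebraMap k Φ (c j))) /
        ((X - algebraMap k Φ t) * (algebraMap k Φ (c j) - algebraMap k Φ t)) := by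
    intro j
    have h1 := hc j
    unfold xp rr
    rw [map_add, map_div₀, map_sub]
    field_simp
    ring
  rw [hx, hx, hx]
  unfold yp
  have e1 : -(algebraMap k Φ (gg u t c) * (X - algebraMap k Φ (c 0))) /
        ((X - algebraMap k Φ t) * (algebraMap k Φ (c 0) - algebraMap k Φ t)) *
      (-(algebraMap k Φ (gg u t c) * (X - algebraMap k Φ (c 1))) /
        ((X - algebraMap k Φ t) * (algebraMap k Φ (c 1) - algebraMap k Φ t))) *
      (-(algebraMap k Φ (gg u t c) * (X - algebraMap k Φ (c 2))) /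
        ((X - algebraMap k Φ t) * (algebraMap k Φ (c 2) - algebraMap k Φ t))) =
      -(algebraMap k Φ (gg u t c) ^ 3 * ((X - algebraMap k Φ t) *
        ((X - algebraMap k Φ (c 0)) * (X - algebraMap k Φ (c 1)) *
          (X - algebraMap k Φ (c 2))))) /
        ((X - algebraMap k Φ t) ^ 4 * ((algebraMap k Φ (c 0) - algebraMap k Φ t) *
          (algebraMap k Φ (c 1) - algebraMap k Φ t) *
          (algebraMap k Φ (c 2) - algebraMap k Φ t))) := by
    have h0 := hc 0
    have h1 := hc 1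
    have h2 := hc 2
    field_simp
  rw [e1, ← hw, hgd]
  field_simp

lemma nonsP (h : Dis u t c) {X w : Φ} (hX : X ≠ algebraMap k Φ t)
    (hw : algebraMap k Φ (dd u t c) * w ^ 2 = (X - algebraMap k Φ t) *
      ((X - algebraMap k Φ (c 0)) * (X - algebraMap k Φ (c 1)) * (X - algebraMap k Φ (c 2)))) :
    ((sw (aa u t c) (bb u t c)).baseChange Φ).toAffine.Nonsingular (xp u t c X)
      (yp u t c X w) := by
  have key : ∀ W : WeierstrassCurve Φ, W = CV (algebraMap k Φ (aa u t c))
      (algebraMap k Φ (bb u t c)) → W.toAffine.Nonsingular (xp u t c X) (yp u t c X w) := by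
    rintro _ rfl
    have hr := roots_map (M := Φ) h.roots
    rw [nonsingular_iff (hr.disc (two_ne (K := k) Φ))]
    unfold Eqn
    rw [hr.fac, pt_eqn h hX hw]
  exact key _ (base_eq _ _ Φ)

/-- the point -/
def pt (h : Dis u t c) (X w : Φ) (hX : X ≠ algebraMap k Φ t)
    (hw : algebraMap k Φ (dd u t c) * w ^ 2 = (X - algebraMap k Φ t) *
      ((X - algebraMap k Φ (c 0)) * (X - algebraMap k Φ (c 1)) *
        (X - algebraMap k Φ (c 2)))) : PM (aa u t c) (bb u t c) Φ :=
  .some _ _ (nonsP h hX hw)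

lemma neg_w {X w : Φ} (hw : algebraMap k Φ (dd u t c) * w ^ 2 = (X - algebraMap k Φ t) *
      ((X - algebraMap k Φ (c 0)) * (X - algebraMap k Φ (c 1)) * (X - algebraMap k Φ (c 2)))) :
    algebraMap k Φ (dd u t c) * (-w) ^ 2 = (X - algebraMap k Φ t) *
      ((X - algebraMap k Φ (c 0)) * (X - algebraMap k Φ (c 1)) *
        (X - algebraMap k Φ (c 2))) := by
  rw [neg_sq]
  exact hw

open scoped Classical in
lemma neg_pt (h : Dis u t c) {X w : Φ} (hX : X ≠ algebraMap k Φ t)
    (hw : algebraMap k Φ (dd u t c) * w ^ 2 = (X - algebraMap k Φ t) *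
      ((X - algebraMap k Φ (c 0)) * (X - algebraMap k Φ (c 1)) *
        (X - algebraMap k Φ (c 2)))) : -pt h X w hX hw = pt h X (-w) hX (neg_w hw) := by
  have key : ∀ W : WeierstrassCurve Φ, W = CV (algebraMap k Φ (aa u t c))
      (algebraMap k Φ (bb u t c)) → ∀ (x y : Φ) (h1 : W.toAffine.Nonsingular x y)
        (h2 : W.toAffine.Nonsingular x (-y)), -(.some x y h1 : W.toAffine.Point) =
          .some x (-y) h2 := by
    rintro _ rfl x y h1 h2
    exact neg_some' h1 h2
  have e : yp u t c X (-w) = -yp u t c X w := by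
    unfold yp
    ring
  have h2 := nonsP h hX (neg_w hw)
  rw [e] at h2
  unfold pt
  rw [key _ (base_eq _ _ Φ) _ _ (nonsP h hX hw) h2, Affine.Point.some.injEq]
  exact ⟨rfl, e.symm⟩

lemma pt_congr (h : Dis u t c) {X w X' w' : Φ} (hX : X ≠ algebraMap k Φ t)
    (hw : algebraMap k Φ (dd u t c) * w ^ 2 = (X - algebraMap k Φ t) *
      ((X - algebraMap k Φ (c 0)) * (X - algebraMap k Φ (c 1)) *
        (X - algebraMap k Φ (c 2)))) (hX' : X' ≠ algebraMap k Φ t)
    (hw' : algebraMap k Φ (dd u t c) * w' ^ 2 = (X' - algebraMap k Φ t) *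
      ((X' - algebraMap k Φ (c 0)) * (X' - algebraMap k Φ (c 1)) *
        (X' - algebraMap k Φ (c 2)))) (e1 : X = X') (e2 : w = w') :
    pt h X w hX hw = pt h X' w' hX' hw' := by
  subst e1
  subst e2
  rfl

lemma pm_pt (h : Dis u t c) {X w : Φ} (hX : X ≠ algebraMap k Φ t)
    (hw : algebraMap k Φ (dd u t c) * w ^ 2 = (X - algebraMap k Φ t) *
      ((X - algebraMap k Φ (c 0)) * (X - algebraMap k Φ (c 1)) *
        (X - algebraMap k Φ (c 2)))) {Φ' : Type} [Field Φ'] [Algebra k Φ'] (f : Φ →ₐ[k] Φ')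
    {X' w' : Φ'} (hX' : X' ≠ algebraMap k Φ' t)
    (hw' : algebraMap k Φ' (dd u t c) * w' ^ 2 = (X' - algebraMap k Φ' t) *
      ((X' - algebraMap k Φ' (c 0)) * (X' - algebraMap k Φ' (c 1)) *
        (X' - algebraMap k Φ' (c 2)))) (e1 : f X = X') (e2 : f w = w') :
    pm (sw (aa u t c) (bb u t c)) f (pt h X w hX hw) = pt h X' w' hX' hw' := by
  obtain ⟨h', e⟩ := pm_some (E := sw (aa u t c) (bb u t c)) f (nonsP h hX hw)
  unfold pt
  rw [e, Affine.Point.some.injEq]
  constructor
  · unfold xp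
    rw [map_add, map_div₀, map_sub, f.commutes, f.commutes, f.commutes, e1]
  · unfold yp
    rw [map_div₀, map_mul, map_pow, map_sub, f.commutes, f.commutes, e1, e2]

end point

section same

open Pool.Agent.Y157.PS

variable {k : Type} [Field k] [CharZero k] {u t : k} {c : Fin 3 → k} {N : Type} [Field N]
  [Algebra k N]

/-- the reduction of the point -/
lemma same_at (h : Dis u t c) (W : ValuationSubring N) (hW : ∀ z : k, algebraMap k N z ∈ W)
    {X w w0 : N} (hX : X ≠ algebraMap k N t)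
    (hw : algebraMap k N (dd u t c) * w ^ 2 = (X - algebraMap k N t) *
      ((X - algebraMap k N (c 0)) * (X - algebraMap k N (c 1)) *
        (X - algebraMap k N (c 2)))) (hU : algebraMap k N u ≠ algebraMap k N t)
    (hw0 : algebraMap k N (dd u t c) * w0 ^ 2 = (algebraMap k N u - algebraMap k N t) *
      ((algebraMap k N u - algebraMap k N (c 0)) * (algebraMap k N u - algebraMap k N (c 1)) *
        (algebraMap k N u - algebraMap k N (c 2))))
    (hw0W : w0 ∈ W) (h1 : X - algebraMap k N u ∈ W.nonunits) (h2 : w - w0 ∈ W.nonunits) :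
    Same W (pt h X w hX hw) (pt h (algebraMap k N u) w0 hU hw0) := by
  have hkU : ∀ z : k, z ≠ 0 → IsU W (algebraMap k N z) := fun z hz =>
    ⟨(_root_.map_ne_zero _).2 hz, hW z, by rw [← map_inv₀]; exact hW _⟩
  have hut : IsU W (algebraMap k N u - algebraMap k N t) := by
    rw [← map_sub]
    exact hkU _ (sub_ne_zero.2 h.ut)
  have hXt : IsU W (X - algebraMap k N t) := by
    have e1 : X - algebraMap k N t = (algebraMap k N u - algebraMap k N t) +
        (X - algebraMap k N u) := by ring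
    have h3 : X - algebraMap k N t ∈ W := by
      rw [e1]
      exact add_mem hut.2.1 (non_mem h1)
    refine isU_of_not_nonunit h3 fun h4 => hut.not_nonunit ?_
    have h5 := non_sub h4 h1
    have e2 : X - algebraMap k N t - (X - algebraMap k N u) =
        algebraMap k N u - algebraMap k N t := by ring
    rwa [e2] at h5
  have hwW : w ∈ W := by
    have := add_mem (non_mem h2) hw0W
    rwa [sub_add_cancel] at this
  refine ⟨_, _, _, _, nonsP h hX hw, nonsP h hU hw0, rfl, rfl, ?_, ?_, ?_, ?_⟩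
  · unfold xp
    exact add_mem (by rw [div_eq_mul_inv]; exact mul_mem (hW _) hut.2.2) (hW _)
  · unfold yp
    rw [div_eq_mul_inv, ← inv_pow]
    exact mul_mem (mul_mem (hW _) hw0W) (pow_mem hut.2.2 2)
  · have e1 : xp u t c X - xp u t c (algebraMap k N u) =
        -(algebraMap k N (gg u t c) * (X - algebraMap k N t)⁻¹ *
          (algebraMap k N u - algebraMap k N t)⁻¹) * (X - algebraMap k N u) := by
      unfold xp
      have n1 := hXt.1
      have n2 := hut.1
      field_simp
      ring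
    rw [e1]
    exact non_mul (neg_mem (mul_mem (mul_mem (hW _) hXt.2.2) hut.2.2)) h1
  · have e1 : yp u t c X w - yp u t c (algebraMap k N u) w0 =
        algebraMap k N (gg u t c) * ((X - algebraMap k N t)⁻¹) ^ 2 * (w - w0) +
        -(algebraMap k N (gg u t c) * w0 * ((X - algebraMap k N t)⁻¹) ^ 2 *
          ((algebraMap k N u - algebraMap k N t)⁻¹) ^ 2 *
          ((X - algebraMap k N t) + (algebraMap k N u - algebraMap k N t))) *
          (X - algebraMap k N u) := by
      unfold yp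
      have n1 := hXt.1
      have n2 := hut.1
      field_simp
      ring
    rw [e1]
    refine non_add (non_mul (mul_mem (hW _) (pow_mem hXt.2.2 2)) h2) (non_mul ?_ h1)
    exact neg_mem (mul_mem (mul_mem (mul_mem (mul_mem (hW _) hw0W) (pow_mem hXt.2.2 2))
      (pow_mem hut.2.2 2)) (add_mem hXt.2.1 hut.2.1))

end same

end Run7.h369.Par
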