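import Pool.Agent.TH954.SPt
import Pool.Agent.Run7.h369.Bc

/-!
# Points over a function field which are divisible at a place

(helper369.)
-/

set_option autoImplicit false
set_option linter.unusedSectionVars false

open WeierstrassCurve Pool.Agent.H901R3.MS Pool.Agent.TH954 Pool.Agent.TH942

namespace Run7.h369.Pw

open Run7.h369.Ell Run7.h369.Bc

section place

variable {K N : Type} [Field K] [CharZero K] [Field N] [Algebra K N]

/-- the residue map of a valuation ring as a place with values in an algebraically closed field -/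
lemma exists_plc (W : ValuationSubring N) (hW : ∀ c : K, algebraMap K N c ∈ W) :
    ∃ (C : Type) (_ : Field C) (_ : Algebra K C) (_ : CharZero C) (_ : IsAlgClosed C)
      (pl : Plc K N C), pl.W = W ∧ ∀ (z : N) (hz : z ∈ pl.W), z ∈ W.nonunits →
        pl.ρ ⟨z, hz⟩ = 0 := by
  let f : K →+* AlgebraicClosure (IsLocalRing.ResidueField W) :=
    (algebraMap _ _ : IsLocalRing.ResidueField W →+* _).comp
      ((IsLocalRing.residue W).comp ((algebraMap K N).codRestrict W hW))
  let _ : Algebra K (AlgebraicClosure (IsLocalRing.ResidueField W)) := f.toAlgebra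
  have hc : CharZero (AlgebraicClosure (IsLocalRing.ResidueField W)) :=
    charZero_of_injective_algebraMap f.injective
  refine ⟨AlgebraicClosure (IsLocalRing.ResidueField W), inferInstance, inferInstance, hc,
    inferInstance, ⟨W, (algebraMap _ _ : IsLocalRing.ResidueField W →+* _).comp
      (IsLocalRing.residue W), ?_, fun c => ⟨hW c, rfl⟩⟩, rfl, ?_⟩
  · intro x hx
    have h1 : IsUnit x := by
      rw [← not_not (a := IsUnit x)]
      intro h
      apply hx
      rw [RingHom.comp_apply, (IsLocalRing.residue_eq_zero_iff x).2 h, map_zero]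
    obtain ⟨u, rfl⟩ := h1
    have h2 : ((u : W) : N)⁻¹ = ((u⁻¹ : Wˣ) : W) := by
      apply inv_eq_of_mul_eq_one_right
      have h3 : ((u : W) : N) * (((u⁻¹ : Wˣ) : W) : N) = ((u : W) * ((u⁻¹ : Wˣ) : W) : W) := rfl
      rw [h3, Units.mul_inv]
      rfl
    rw [h2]
    exact ((u⁻¹ : Wˣ) : W).2
  · intro z hz hn
    obtain ⟨h3, h4⟩ := ValuationSubring.mem_nonunits_iff_exists_mem_maximalIdeal.1 hn
    rw [RingHom.comp_apply, (IsLocalRing.residue_eq_zero_iff _).2 h4, map_zero]

end place

section main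

variable {K N Ω κ : Type} [Field K] [CharZero K] [Field N] [Algebra K N] [Field Ω] [Algebra K Ω]
  [IsAlgClosed Ω] [Field κ] [Algebra K κ] [IsAlgClosed κ] [Algebra.IsAlgebraic K κ]
  {a b : K} {r : Fin 3 → K}

open scoped Classical in
/-- the torsion points are defined over the constants -/
lemma tors_N (h : Roots a b r) (e : N →ₐ[K] Ω) (j : κ →ₐ[K] N) {n : ℕ} (hn : 1 ≤ n)
    (T : PM a b N) (hT : n • T = 0) : ∃ T0, pm (sw a b) j T0 = T := by
  have c1 : CharZero Ω := charZero_of_injective_algebraMap (algebraMap K Ω).injective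
  have c2 : CharZero κ := charZero_of_injective_algebraMap (algebraMap K κ).injective
  obtain ⟨T0, hT0⟩ := torsion_mem (disc4 h) (e.comp j) n hn (pm (sw a b) e T) (by
    rw [← map_nsmul, hT, map_zero])
  refine ⟨T0, pm_injective (E := sw a b) e ?_⟩
  rw [pm_pm, hT0]

open scoped Classical in
/-- the cocycle of a division point at a place where the point reduces to zero -/
theorem dich (h : Roots a b r) (e : N →ₐ[K] Ω) (j : κ →ₐ[K] N) (W : ValuationSubring N)
    (hW : ∀ c : K, algebraMap K N c ∈ W) (τ : N →ₐ[K] N) (hτ : ∀ z, τ z ∈ W ↔ z ∈ W)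
    (σ : κ →ₐ[K] κ) (hσ : ∀ c, τ (j c) = j (σ c)) (m : ℕ) (R0 P Q : PM a b N)
    (hR : 2 ^ m • R0 = P - Q) (hPQ : pm (sw a b) τ (P - Q) = P - Q)
    {xp yp xq yq : N} {hp : ((sw a b).baseChange N).toAffine.Nonsingular xp yp}
    {hq : ((sw a b).baseChange N).toAffine.Nonsingular xq yq} (hP : P = .some xp yp hp)
    (hQ : Q = .some xq yq hq) (hx0 : xq ∈ W) (hy0 : yq ∈ W) (hx : xp - xq ∈ W.nonunits)
    (hy : yp - yq ∈ W.nonunits) :
    ∃ t : PM a b κ, 2 ^ m • t = 0 ∧
      pm (sw a b) τ R0 - R0 = pm (sw a b) j (pm (sw a b) σ t - t) := by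
  obtain ⟨C, _, _, _, _, pl, hplW, hpl0⟩ := exists_plc W hW
  obtain ⟨red, h1, h2⟩ := exists_redM pl (disc4 h)
  have hnon : ∀ z, z ∈ W.nonunits → z ∈ W := fun z hz =>
    (ValuationSubring.mem_nonunits_iff_exists_mem_maximalIdeal.1 hz).1
  have hredpm := fun T : PM a b κ => red_pm (pl := pl) (a := a) (b := b) (red := red)
    (map_zero red) h1 h2 j (pl.iot j) (pl.iot_spec j) T
  have c2 : CharZero κ := charZero_of_injective_algebraMap (algebraMap K κ).injective
  -- the two points have the same reduction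
  have hPQ0 : red (P - Q) = 0 := by
    rw [map_sub, sub_eq_zero, hP, hQ]
    have hxpW : xp ∈ pl.W := by
      rw [hplW]
      have := W.add_mem _ _ (hnon _ hx) hx0
      rwa [sub_add_cancel] at this
    have hxqW : xq ∈ pl.W := by rw [hplW]; exact hx0
    obtain ⟨hyp, h3, e1⟩ := h2 xp yp hp hxpW
    obtain ⟨hyq, h4, e2⟩ := h2 xq yq hq hxqW
    rw [e1, e2, Affine.Point.some.injEq]
    constructor
    · rw [← sub_eq_zero, ← map_sub]
      exact hpl0 (xp - xq) (sub_mem hxpW hxqW) hx
    · rw [← sub_eq_zero, ← map_sub]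
      exact hpl0 (yp - yq) (sub_mem hyp hyq) hy
  -- the torsion point
  have h3 : 2 ^ m • red R0 = 0 := by rw [← map_nsmul, hR, hPQ0]
  obtain ⟨t, ht⟩ := torsion_mem (disc4 h) (pl.iot j) (2 ^ m) Nat.one_le_two_pow (red R0) h3
  have ht0 : 2 ^ m • t = 0 := pm_injective (E := sw a b) (pl.iot j) (by
    rw [map_nsmul, ht, h3, map_zero])
  refine ⟨t, ht0, ?_⟩
  -- the kernel of the reduction is stable
  have hker : ∀ X : PM a b N, red X = 0 → red (pm (sw a b) τ X) = 0 := by
    intro X hX
    rcases X with _ | ⟨x, y, hxy⟩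
    · exact map_zero red
    · obtain ⟨h', e'⟩ := pm_some (E := sw a b) τ hxy
      rw [e']
      apply h1
      intro hmem
      rw [hplW, hτ, ← hplW] at hmem
      obtain ⟨hy', h'', e''⟩ := h2 x y hxy hmem
      rw [e''] at hX
      cases hX
  have h4 : red (R0 - pm (sw a b) j t) = 0 := by
    rw [map_sub, hredpm, ht, sub_self]
  have h5 := hker _ h4
  have hj : pm (sw a b) τ (pm (sw a b) j t) = pm (sw a b) j (pm (sw a b) σ t) := by
    rw [pm_pm, pm_pm]
    congr 2
    apply AlgHom.ext
    intro c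
    exact hσ c
  rw [map_sub, hj] at h5
  -- torsion points in the kernel are zero
  have hinj : ∀ X : PM a b N, 2 ^ m • X = 0 → red X = 0 → X = 0 := by
    intro X hX hX0
    obtain ⟨X0, rfl⟩ := tors_N h e j Nat.one_le_two_pow X hX
    rw [hredpm] at hX0
    have h6 : X0 = 0 := pm_injective (E := sw a b) (pl.iot j) (by rw [hX0, map_zero])
    rw [h6, map_zero]
  have h6 : (pm (sw a b) τ R0 - pm (sw a b) j (pm (sw a b) σ t)) -
      (R0 - pm (sw a b) j t) = 0 := by
    apply hinj
    · rw [smul_sub, smul_sub, smul_sub, ← map_nsmul, ← map_nsmul, ← map_nsmul, ← map_nsmul, hR,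
        hPQ, ht0, map_zero, map_zero]
      abel
    · rw [map_sub, h5, h4, sub_zero]
  rw [map_sub, ← sub_eq_zero, ← h6]
  abel

end main

end Run7.h369.Pw
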