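import Mathlib

/-!
# Rigidity of cocycles with values in `(ℤ/2^m)²`

(helper369.)  Let a group `G` act on `V = (ℤ/2^m)²`, and let `a`, `b` be
cocycles such that for every `g` the value `a g` or the value `(a - b) g` is in `(g - 1) V`.  If some
element of `G` acts as `1 + 2 A` with `A² + A + 1 ≡ 0` modulo 2, then `a` or `a - b` is a coboundary
modulo a power of 2 that tends to infinity with `m`.
-/

set_option autoImplicit false

open Matrix

namespace Run7.h369.Rig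

section alg

variable {R : Type*} [CommRing R]

/-- the identity for 2 by 2 matrices behind the theorem -/
lemma mat_id (f X : Matrix (Fin 2) (Fin 2) R) :
    f * (f * X * f.adjugate - f.det • X) * f.adjugate +
      f.adjugate * (f * X * f.adjugate - f.det • X) * f =
      (f.trace ^ 2 - 2 * f.det) • (f * X * f.adjugate - f.det • X) := by
  obtain ⟨p, q, r, s, rfl⟩ : ∃ p q r s, f = !![p, q; r, s] := ⟨_, _, _, _, Matrix.eta_fin_two f⟩
  obtain ⟨x, y, z, w, rfl⟩ : ∃ p q r s, X = !![p, q; r, s] := ⟨_, _, _, _, Matrix.eta_fin_two X⟩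
  rw [Matrix.adjugate_fin_two_of, Matrix.det_fin_two_of, Matrix.trace_fin_two_of]
  simp only [Matrix.mul_fin_two, Matrix.smul_of, Matrix.smul_cons, Matrix.smul_empty, smul_eq_mul]
  ext i j
  fin_cases i <;> fin_cases j <;> simp <;> ring

/-- the operator acting on the values of the cocycle -/
lemma mat_op (A : Matrix (Fin 2) (Fin 2) R) :
    ((1 + (2 : R) • A).det • (1 + (2 : R) • A) + (1 + (2 : R) • A).adjugate -
      ((1 + (2 : R) • A).trace ^ 2 - 2 * (1 + (2 : R) • A).det) • (1 : Matrix (Fin 2) (Fin 2) R)) *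
        ((2 : R) • A) =
      (8 : R) • (A.adjugate * ((2 : R) • (A + A * A) - A.adjugate) * A) := by
  obtain ⟨p, q, r, s, rfl⟩ : ∃ p q r s, A = !![p, q; r, s] := ⟨_, _, _, _, Matrix.eta_fin_two A⟩
  have h1 : (1 : Matrix (Fin 2) (Fin 2) R) + (2 : R) • !![p, q; r, s] =
      !![1 + 2 * p, 2 * q; 2 * r, 1 + 2 * s] := by
    ext i j
    fin_cases i <;> fin_cases j <;> simp
  rw [h1, Matrix.adjugate_fin_two_of, Matrix.adjugate_fin_two_of, Matrix.det_fin_two_of,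
    Matrix.trace_fin_two_of]
  have h2 : (1 : Matrix (Fin 2) (Fin 2) R) = !![1, 0; 0, 1] := Matrix.one_fin_two
  rw [h2]
  ext i j
  fin_cases i <;> fin_cases j <;> simp [Matrix.mul_apply, Fin.sum_univ_two] <;> ring

end alg

section two

variable {m : ℕ}

lemma two_pow_zero : (2 : ZMod (2 ^ m)) ^ m = 0 := by
  have h : ((2 ^ m : ℕ) : ZMod (2 ^ m)) = 0 := ZMod.natCast_self _
  push_cast at h
  exact h

lemma two_pow_zero' {k : ℕ} (h : m ≤ k) : (2 : ZMod (2 ^ m)) ^ k = 0 := by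
  rw [← Nat.add_sub_cancel' h, pow_add, two_pow_zero, zero_mul]

lemma div_scalar {k : ℕ} (hk : k ≤ m) (z : ZMod (2 ^ m)) (h : (2 : ZMod (2 ^ m)) ^ k * z = 0) :
    ∃ w : ZMod (2 ^ m), z = (2 : ZMod (2 ^ m)) ^ (m - k) * w := by
  have : NeZero (2 ^ m) := ⟨pow_ne_zero _ two_ne_zero⟩
  have h1 : ((2 ^ k * z.val : ℕ) : ZMod (2 ^ m)) = 0 := by
    push_cast
    rw [ZMod.natCast_zmod_val]
    exact h
  rw [ZMod.natCast_eq_zero_iff] at h1
  have h2 : 2 ^ m = 2 ^ k * 2 ^ (m - k) := by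
    rw [← pow_add, Nat.add_sub_cancel' hk]
  have h1' : 2 ^ k * 2 ^ (m - k) ∣ 2 ^ k * z.val := (dvd_of_eq h2.symm).trans h1
  obtain ⟨c, hc⟩ := Nat.dvd_of_mul_dvd_mul_left (pow_pos two_pos k) h1'
  refine ⟨c, ?_⟩
  have h3 : ((z.val : ℕ) : ZMod (2 ^ m)) = z := ZMod.natCast_zmod_val z
  rw [← h3, hc]
  push_cast
  rfl

lemma div_vec {k : ℕ} (hk : k ≤ m) (v : Fin 2 → ZMod (2 ^ m))
    (h : (2 : ZMod (2 ^ m)) ^ k • v = 0) :
    ∃ w : Fin 2 → ZMod (2 ^ m), v = (2 : ZMod (2 ^ m)) ^ (m - k) • w := by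
  have h1 : ∀ i, ∃ w : ZMod (2 ^ m), v i = (2 : ZMod (2 ^ m)) ^ (m - k) * w := fun i =>
    div_scalar hk _ (by simpa using congrFun h i)
  choose w hw using h1
  exact ⟨w, funext fun i => by rw [Pi.smul_apply, smul_eq_mul]; exact hw i⟩

lemma nilp (X : Matrix (Fin 2) (Fin 2) (ZMod (2 ^ m))) :
    IsNilpotent ((2 : ZMod (2 ^ m)) • X) := by
  refine ⟨m, ?_⟩
  rw [smul_pow, two_pow_zero, zero_smul]

lemma unit_one_add (X : Matrix (Fin 2) (Fin 2) (ZMod (2 ^ m))) :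
    IsUnit (1 + (2 : ZMod (2 ^ m)) • X) := (nilp X).isUnit_one_add

lemma unit_add {M : Matrix (Fin 2) (Fin 2) (ZMod (2 ^ m))} (hM : IsUnit M)
    (X : Matrix (Fin 2) (Fin 2) (ZMod (2 ^ m))) : IsUnit (M + (2 : ZMod (2 ^ m)) • X) := by
  obtain ⟨u, rfl⟩ := hM
  have h : (u : Matrix (Fin 2) (Fin 2) (ZMod (2 ^ m))) + (2 : ZMod (2 ^ m)) • X =
      u * (1 + (2 : ZMod (2 ^ m)) • ((u⁻¹ : (Matrix (Fin 2) (Fin 2) (ZMod (2 ^ m)))ˣ) * X)) := by
    rw [mul_add, mul_one, mul_smul_comm, ← mul_assoc, Units.mul_inv, one_mul]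
  rw [h]
  exact u.isUnit.mul (unit_one_add _)

lemma unit_A {A X : Matrix (Fin 2) (Fin 2) (ZMod (2 ^ m))}
    (hA : A * A + A + 1 = (2 : ZMod (2 ^ m)) • X) : IsUnit A ∧ IsUnit (A + A * A) := by
  have h1 : A + A * A = -1 + (2 : ZMod (2 ^ m)) • X := by
    rw [← hA]
    abel
  have h2 : IsUnit (A + A * A) := by
    rw [h1]
    exact unit_add isUnit_one.neg X
  refine ⟨?_, h2⟩
  have h3 : A + A * A = A * (1 + A) := by rw [mul_add, mul_one]
  rw [h3, Matrix.isUnit_iff_isUnit_det, Matrix.det_mul] at h2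
  rw [Matrix.isUnit_iff_isUnit_det]
  exact isUnit_of_mul_isUnit_left h2

lemma unit_adj {A : Matrix (Fin 2) (Fin 2) (ZMod (2 ^ m))} (hA : IsUnit A) :
    IsUnit A.adjugate := by
  rw [Matrix.isUnit_iff_isUnit_det] at hA ⊢
  rw [Matrix.det_adjugate]
  exact hA.pow _

end two

section main

variable {G : Type*} [Group G] {m : ℕ}

/-- a cocycle -/
def Coc (ρ : G →* Matrix (Fin 2) (Fin 2) (ZMod (2 ^ m))) (c : G → Fin 2 → ZMod (2 ^ m)) : Prop :=
  ∀ g h, c (g * h) = c g + ρ g *ᵥ c h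

lemma Coc.one {ρ : G →* Matrix (Fin 2) (Fin 2) (ZMod (2 ^ m))} {c : G → Fin 2 → ZMod (2 ^ m)}
    (hc : Coc ρ c) : c 1 = 0 := by
  have h := hc 1 1
  rw [mul_one, map_one, Matrix.one_mulVec] at h
  exact left_eq_add.1 h

lemma Coc.sub {ρ : G →* Matrix (Fin 2) (Fin 2) (ZMod (2 ^ m))} {c d : G → Fin 2 → ZMod (2 ^ m)}
    (hc : Coc ρ c) (hd : Coc ρ d) : Coc ρ (fun g => c g - d g) := by
  intro g h
  change c (g * h) - d (g * h) = (c g - d g) + ρ g *ᵥ (c h - d h)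
  rw [hc, hd, Matrix.mulVec_sub]
  abel

lemma Coc.bdry (ρ : G →* Matrix (Fin 2) (Fin 2) (ZMod (2 ^ m))) (t : Fin 2 → ZMod (2 ^ m)) :
    Coc ρ (fun g => (ρ g - 1) *ᵥ t) := by
  intro g h
  change (ρ (g * h) - 1) *ᵥ t = (ρ g - 1) *ᵥ t + ρ g *ᵥ ((ρ h - 1) *ᵥ t)
  rw [map_mul, Matrix.mulVec_mulVec, ← Matrix.add_mulVec]
  congr 1
  rw [mul_sub, mul_one]
  abel

/-- powers of an element which is trivial modulo 4 -/
lemma pow_step {ρ : G →* Matrix (Fin 2) (Fin 2) (ZMod (2 ^ m))} {u : G}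
    (hu : ∃ X, ρ u = 1 + (4 : ZMod (2 ^ m)) • X) (i : ℕ) :
    ∃ X E, IsUnit E ∧ ρ (u ^ 2 ^ i) = 1 + (2 : ZMod (2 ^ m)) ^ (i + 2) • X ∧
      ∀ c : G → Fin 2 → ZMod (2 ^ m), Coc ρ c →
        c (u ^ 2 ^ i) = (2 : ZMod (2 ^ m)) ^ i • (E *ᵥ c u) := by
  induction i with
  | zero =>
    obtain ⟨X, hX⟩ := hu
    refine ⟨X, 1, isUnit_one, ?_, fun c hc => ?_⟩
    · rw [pow_zero, pow_one, hX]
      norm_num
    · rw [pow_zero, pow_one, pow_zero, one_smul, Matrix.one_mulVec]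
  | succ i ih =>
    obtain ⟨X, E, hE, hX, hc⟩ := ih
    have e1 : u ^ 2 ^ (i + 1) = u ^ 2 ^ i * u ^ 2 ^ i := by
      rw [← pow_add, pow_succ]
      congr 1
      ring
    refine ⟨X + (2 : ZMod (2 ^ m)) ^ (i + 1) • (X * X),
      (1 + (2 : ZMod (2 ^ m)) • ((2 : ZMod (2 ^ m)) ^ i • X)) * E,
      (unit_one_add _).mul hE, ?_, fun c hc' => ?_⟩
    · rw [e1, map_mul, hX, mul_add, add_mul, add_mul, one_mul, one_mul, mul_one, smul_mul_smul_comm,
        smul_add, smul_smul, ← pow_add, ← pow_add]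
      have e2 : (2 : ZMod (2 ^ m)) ^ (i + 1 + 2) = 2 ^ (i + 2) + 2 ^ (i + 2) := by ring
      have e3 : i + 1 + 2 + (i + 1) = i + 2 + (i + 2) := by ring
      rw [e3, e2, add_smul]
      abel
    · rw [e1, hc', hX, hc c hc', ← Matrix.mulVec_mulVec, Matrix.add_mulVec, Matrix.add_mulVec,
        Matrix.one_mulVec, Matrix.one_mulVec, Matrix.smul_mulVec, Matrix.mulVec_smul,
        Matrix.smul_mulVec, Matrix.smul_mulVec, smul_add, smul_smul, smul_smul, smul_smul,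
        ← add_assoc, ← add_smul]
      congr 1
      · congr 1
        ring
      · congr 1
        ring

/-- conjugation and powers for elements `1 + ε Z` -/
lemma pow_eps {M : Type*} [Ring M] {e : M} (he : e * e = 0) (k : ℕ) :
    (1 + e) ^ k = 1 + (k : M) * e := by
  induction k with
  | zero => simp
  | succ k ih =>
    rw [pow_succ, ih, add_mul, mul_add, mul_add, mul_one, mul_one, one_mul, mul_assoc, he, mul_zero,
      add_zero, Nat.cast_succ, add_mul, one_mul]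
    abel

/-- the main computation -/
lemma key {j : ℕ} {ρ : G →* Matrix (Fin 2) (Fin 2) (ZMod (2 ^ (2 * j + 2)))}
    {F : G} {A X : Matrix (Fin 2) (Fin 2) (ZMod (2 ^ (2 * j + 2)))}
    (hF : ρ F = 1 + (2 : ZMod (2 ^ (2 * j + 2))) • A)
    (hA : A * A + A + 1 = (2 : ZMod (2 ^ (2 * j + 2))) • X)
    (u : G) (hu : ∃ X, ρ u = 1 + (4 : ZMod (2 ^ (2 * j + 2))) • X) :
    ∃ (w : G) (U : Matrix (Fin 2) (Fin 2) (ZMod (2 ^ (2 * j + 2)))), IsUnit U ∧ ρ w = 1 ∧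
      ∀ c : G → Fin 2 → ZMod (2 ^ (2 * j + 2)), Coc ρ c → c F = 0 →
        c w = (2 : ZMod (2 ^ (2 * j + 2))) ^ (j + 3) • (U *ᵥ c u) := by
  obtain ⟨Y, E, hE, hY, hcE⟩ := pow_step hu j
  set V := u ^ 2 ^ j with hV
  set f := ρ F with hf
  set f' := ρ F⁻¹ with hf'
  have hff' : f * f' = 1 := by rw [hf, hf', ← map_mul, mul_inv_cancel, map_one]
  have hf'f : f' * f = 1 := by rw [hf, hf', ← map_mul, inv_mul_cancel, map_one]
  have hadj : f.adjugate = f.det • f' := by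
    have h1 : f' * (f * f.adjugate) = f.adjugate := by rw [← mul_assoc, hf'f, one_mul]
    rw [← h1, Matrix.mul_adjugate, mul_smul_comm, mul_one]
  have : NeZero (2 ^ (2 * j + 2)) := ⟨pow_ne_zero _ two_ne_zero⟩
  set N := f.det.val with hN
  have hNc : (N : ZMod (2 ^ (2 * j + 2))) = f.det := ZMod.natCast_zmod_val _
  set s := (-(f.trace ^ 2 - 2 * f.det)).val with hs
  have hsc : (s : ZMod (2 ^ (2 * j + 2))) = -(f.trace ^ 2 - 2 * f.det) := ZMod.natCast_zmod_val _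
  set ε : ZMod (2 ^ (2 * j + 2)) := 2 ^ (j + 2) with hε
  have hεε : ε * ε = 0 := by
    rw [hε, ← pow_add]
    exact two_pow_zero' (by omega)
  have hεj : ε * 2 ^ j = 0 := by
    rw [hε, ← pow_add]
    exact two_pow_zero' (by omega)
  have hsq : ∀ P Q : Matrix (Fin 2) (Fin 2) (ZMod (2 ^ (2 * j + 2))), (ε • P) * (ε • Q) = 0 := by
    intro P Q
    rw [smul_mul_smul_comm, hεε, zero_smul]
  have hVinv : ρ V⁻¹ = 1 - ε • Y := by
    have h1 : (1 - ε • Y) * ρ V = 1 := by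
      rw [hY, sub_mul, one_mul, mul_add, mul_one, hsq, add_zero]
      abel
    have h2 : ρ V * ρ V⁻¹ = 1 := by rw [← map_mul, mul_inv_cancel, map_one]
    calc ρ V⁻¹ = (1 - ε • Y) * ρ V * ρ V⁻¹ := by rw [h1, one_mul]
      _ = 1 - ε • Y := by rw [mul_assoc, h2, mul_one]
  set v := F * V * F⁻¹ * V⁻¹ with hv
  set Z := f * Y * f' - Y with hZ
  have hρv : ρ v = 1 + ε • Z := by
    rw [hv, map_mul, map_mul, map_mul, hVinv, hY, mul_add, mul_one, add_mul, hff', mul_sub,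
      mul_one, add_mul, one_mul, mul_smul_comm, smul_mul_assoc, hsq, add_zero, hZ, smul_sub]
    abel
  have hpw : ∀ k : ℕ, ρ (v ^ k) = 1 + (k : ZMod (2 ^ (2 * j + 2))) • (ε • Z) := by
    intro k
    rw [map_pow, hρv, pow_eps (hsq Z Z)]
    congr 1
    rw [← nsmul_eq_mul, Nat.cast_smul_eq_nsmul]
  -- the values on `v`
  have hval : ∀ c : G → Fin 2 → ZMod (2 ^ (2 * j + 2)), Coc ρ c → c F = 0 →
      ∀ P : Matrix (Fin 2) (Fin 2) (ZMod (2 ^ (2 * j + 2))), ε • (P *ᵥ c V) = 0 := by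
    intro c hc _ P
    rw [hcE c hc, Matrix.mulVec_smul, smul_smul, hεj, zero_smul]
  have hFinv : ∀ c : G → Fin 2 → ZMod (2 ^ (2 * j + 2)), Coc ρ c → c F = 0 → c F⁻¹ = 0 := by
    intro c hc h0
    have h1 := hc F⁻¹ F
    rw [inv_mul_cancel, hc.one, h0, Matrix.mulVec_zero, add_zero] at h1
    exact h1.symm
  have hcv : ∀ c : G → Fin 2 → ZMod (2 ^ (2 * j + 2)), Coc ρ c → c F = 0 →
      c v = (f - 1) *ᵥ c V := by
    intro c hc h0
    have h1 : c (F * V * F⁻¹) = f *ᵥ c V := by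
      rw [hc, hc, h0, hFinv c hc h0, zero_add, Matrix.mulVec_zero, add_zero]
    have h2 : c V⁻¹ = -(ρ V⁻¹ *ᵥ c V) := by
      have h3 := hc V⁻¹ V
      rw [inv_mul_cancel, hc.one] at h3
      exact eq_neg_of_add_eq_zero_left h3.symm
    have h4 : c v = f *ᵥ c V - ρ v *ᵥ c V := by
      rw [hv, hc, h1, h2, Matrix.mulVec_neg, Matrix.mulVec_mulVec, ← map_mul, ← sub_eq_add_neg]
    rw [h4, hρv, Matrix.add_mulVec, Matrix.one_mulVec, Matrix.smul_mulVec, hval c hc h0,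
      add_zero, Matrix.sub_mulVec, Matrix.one_mulVec]
  have hεcv : ∀ c : G → Fin 2 → ZMod (2 ^ (2 * j + 2)), Coc ρ c → c F = 0 →
      ∀ P : Matrix (Fin 2) (Fin 2) (ZMod (2 ^ (2 * j + 2))), ε • (P *ᵥ c v) = 0 := by
    intro c hc h0 P
    rw [hcv c hc h0, Matrix.mulVec_mulVec]
    exact hval c hc h0 _
  have hcpow : ∀ c : G → Fin 2 → ZMod (2 ^ (2 * j + 2)), Coc ρ c → c F = 0 → ∀ k : ℕ,
      c (v ^ k) = (k : ZMod (2 ^ (2 * j + 2))) • c v := by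
    intro c hc h0 k
    induction k with
    | zero => rw [pow_zero, hc.one, Nat.cast_zero, zero_smul]
    | succ k ih =>
      have e0 : v ^ (k + 1) = v ^ k * v := pow_succ v k
      rw [e0, hc, ih, hpw, Matrix.add_mulVec, Matrix.one_mulVec, Matrix.smul_mulVec,
        Matrix.smul_mulVec, hεcv c hc h0, smul_zero, add_zero, Nat.cast_succ, add_smul, one_smul]
  -- the element `w`
  set w := (F * v ^ N * F⁻¹) * ((F⁻¹ * v ^ N * F) * v ^ s) with hw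
  have hρ1 : ρ (F * v ^ N * F⁻¹) = 1 + ε • (f * ((N : ZMod (2 ^ (2 * j + 2))) • Z) * f') := by
    rw [map_mul, map_mul, hpw, mul_add, mul_one, add_mul, hff']
    congr 1
    rw [smul_comm, mul_smul_comm, smul_mul_assoc]
  have hρ2 : ρ (F⁻¹ * v ^ N * F) = 1 + ε • (f' * ((N : ZMod (2 ^ (2 * j + 2))) • Z) * f) := by
    rw [map_mul, map_mul, hpw, mul_add, mul_one, add_mul, hf'f]
    congr 1
    rw [smul_comm, mul_smul_comm, smul_mul_assoc]
  have hρ3 : ρ (v ^ s) = 1 + ε • ((s : ZMod (2 ^ (2 * j + 2))) • Z) := by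
    rw [hpw, smul_comm]
  have hprod : ∀ P Q : Matrix (Fin 2) (Fin 2) (ZMod (2 ^ (2 * j + 2))),
      (1 + ε • P) * (1 + ε • Q) = 1 + ε • (P + Q) := by
    intro P Q
    rw [add_mul, mul_add, mul_add, mul_one, mul_one, one_mul, hsq, add_zero, smul_add]
    abel
  have hdetu : IsUnit f.det := by
    rw [← Matrix.isUnit_iff_isUnit_det]
    exact ⟨⟨f, f', hff', hf'f⟩, rfl⟩
  have hident : f * ((N : ZMod (2 ^ (2 * j + 2))) • Z) * f' +
      (f' * ((N : ZMod (2 ^ (2 * j + 2))) • Z) * f + (s : ZMod (2 ^ (2 * j + 2))) • Z) = 0 := by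
    have h1 := mat_id f Y
    rw [hadj] at h1
    have h2 : f * Y * (f.det • f') - f.det • Y = f.det • Z := by
      rw [hZ, smul_sub, mul_smul_comm]
    rw [h2] at h1
    simp only [mul_smul_comm, smul_mul_assoc, smul_smul] at h1
    rw [hNc, hsc, neg_smul]
    simp only [mul_smul_comm, smul_mul_assoc]
    have h3 : f.det • (f.det • (f * Z * f') + (f.det • (f' * Z * f) +
        -((f.trace ^ 2 - 2 * f.det) • Z))) = 0 := by
      rw [smul_add, smul_add, smul_smul, smul_smul, smul_neg, smul_smul, ← add_assoc, h1,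
        mul_comm f.det (f.trace ^ 2 - 2 * f.det)]
      abel
    obtain ⟨d, hd⟩ := hdetu
    have h4 := congrArg (fun M => (d⁻¹ : (ZMod (2 ^ (2 * j + 2)))ˣ) • M) h3
    simp only [smul_zero] at h4
    rw [← hd] at h4 ⊢
    rw [← h4, Units.smul_def, smul_smul, ← Units.val_mul, inv_mul_cancel, Units.val_one, one_smul]
  have hρw : ρ w = 1 := by
    rw [hw, map_mul, map_mul _ (F⁻¹ * v ^ N * F), hρ1, hρ2, hρ3, hprod, hprod, hident, smul_zero,
      add_zero]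
  have hUu : IsUnit ((A.adjugate * ((2 : ZMod (2 ^ (2 * j + 2))) • (A + A * A) - A.adjugate) * A)
      * E) := by
    obtain ⟨hA1, hA2⟩ := unit_A hA
    refine (IsUnit.mul (IsUnit.mul (unit_adj hA1) ?_) hA1).mul hE
    have h1 : (2 : ZMod (2 ^ (2 * j + 2))) • (A + A * A) - A.adjugate =
        -A.adjugate + (2 : ZMod (2 ^ (2 * j + 2))) • (A + A * A) := by abel
    rw [h1]
    exact unit_add (unit_adj hA1).neg _
  refine ⟨w, _, hUu, hρw, fun c hc h0 => ?_⟩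
  have hid : ∀ P x, ε • (P *ᵥ x) = (0 : Fin 2 → ZMod (2 ^ (2 * j + 2))) →
      (1 + ε • P) *ᵥ x = x := by
    intro P x h
    rw [Matrix.add_mulVec, Matrix.one_mulVec, Matrix.smul_mulVec, h, add_zero]
  have c1 : c (F * v ^ N * F⁻¹) = f *ᵥ ((N : ZMod (2 ^ (2 * j + 2))) • c v) := by
    rw [hc, hc, h0, hFinv c hc h0, zero_add, Matrix.mulVec_zero, add_zero, hcpow c hc h0]
  have c2 : c (F⁻¹ * v ^ N * F) = f' *ᵥ ((N : ZMod (2 ^ (2 * j + 2))) • c v) := by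
    rw [hc, hc, h0, hFinv c hc h0, zero_add, Matrix.mulVec_zero, add_zero, hcpow c hc h0]
  have c3 : c w = (f.det • f + f.adjugate -
      (f.trace ^ 2 - 2 * f.det) • (1 : Matrix (Fin 2) (Fin 2) (ZMod (2 ^ (2 * j + 2))))) *ᵥ
        c v := by
    rw [hw, hc (F * v ^ N * F⁻¹) (F⁻¹ * v ^ N * F * v ^ s), hc (F⁻¹ * v ^ N * F) (v ^ s), c1, c2,
      hcpow c hc h0, hρ1, hρ2]
    rw [Matrix.mulVec_add]
    have d1 : ∀ P Q : Matrix (Fin 2) (Fin 2) (ZMod (2 ^ (2 * j + 2))),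
        ∀ z : ZMod (2 ^ (2 * j + 2)), (1 + ε • P) *ᵥ (Q *ᵥ (z • c v)) = Q *ᵥ (z • c v) := by
      intro P Q z
      refine hid _ _ ?_
      rw [Matrix.mulVec_mulVec, Matrix.mulVec_smul, smul_comm, hεcv c hc h0, smul_zero]
    have d2 : ∀ P : Matrix (Fin 2) (Fin 2) (ZMod (2 ^ (2 * j + 2))),
        ∀ z : ZMod (2 ^ (2 * j + 2)), (1 + ε • P) *ᵥ (z • c v) = z • c v := by
      intro P z
      refine hid _ _ ?_
      rw [Matrix.mulVec_smul, smul_comm, hεcv c hc h0, smul_zero]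
    rw [d1, d2, d2, hNc, hsc, hadj, Matrix.sub_mulVec, Matrix.add_mulVec, Matrix.smul_mulVec,
      Matrix.smul_mulVec, Matrix.smul_mulVec, Matrix.one_mulVec, Matrix.mulVec_smul,
      Matrix.mulVec_smul, neg_smul]
    abel
  have hf2 : f - 1 = (2 : ZMod (2 ^ (2 * j + 2))) • A := by rw [hF]; abel
  rw [c3, hcv c hc h0, Matrix.mulVec_mulVec, hf2, hF, mat_op, hcE c hc, ← Matrix.mulVec_mulVec,
    Matrix.mulVec_smul, Matrix.smul_mulVec, smul_smul]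
  congr 1
  ring

/-- the subgroup of the elements which are trivial modulo 4 and at which a cocycle is small -/
lemma small_mul {ρ : G →* Matrix (Fin 2) (Fin 2) (ZMod (2 ^ m))} {c : G → Fin 2 → ZMod (2 ^ m)}
    (hc : Coc ρ c) {z : ZMod (2 ^ m)} {g h : G} (hg : ∃ v, c g = z • v) (hh : ∃ v, c h = z • v) :
    ∃ v, c (g * h) = z • v := by
  obtain ⟨v, hv⟩ := hg
  obtain ⟨w, hw⟩ := hh
  exact ⟨v + ρ g *ᵥ w, by rw [hc, hv, hw, Matrix.mulVec_smul, smul_add]⟩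

lemma small_inv {ρ : G →* Matrix (Fin 2) (Fin 2) (ZMod (2 ^ m))} {c : G → Fin 2 → ZMod (2 ^ m)}
    (hc : Coc ρ c) {z : ZMod (2 ^ m)} {g : G} (hg : ∃ v, c g = z • v) :
    ∃ v, c g⁻¹ = z • v := by
  obtain ⟨v, hv⟩ := hg
  have h3 := hc g⁻¹ g
  rw [inv_mul_cancel, hc.one] at h3
  refine ⟨-(ρ g⁻¹ *ᵥ v), ?_⟩
  rw [eq_neg_of_add_eq_zero_left h3.symm, hv, Matrix.mulVec_smul, smul_neg]

/-- the elements trivial modulo 4 -/
def triv4 (ρ : G →* Matrix (Fin 2) (Fin 2) (ZMod (2 ^ m))) : Subgroup G where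
  carrier := {u | ∃ X, ρ u = 1 + (4 : ZMod (2 ^ m)) • X}
  one_mem' := ⟨0, by rw [map_one, smul_zero, add_zero]⟩
  mul_mem' := by
    rintro u v ⟨X, hX⟩ ⟨Y, hY⟩
    refine ⟨X + Y + (4 : ZMod (2 ^ m)) • (X * Y), ?_⟩
    have h4 : (4 : ZMod (2 ^ m)) • X * (4 : ZMod (2 ^ m)) • Y =
        (4 : ZMod (2 ^ m)) • ((4 : ZMod (2 ^ m)) • (X * Y)) := by
      rw [smul_mul_smul_comm, mul_smul]
    have h5 : ρ u * ρ v = ρ v + (4 : ZMod (2 ^ m)) • X + (4 : ZMod (2 ^ m)) • X *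
        (4 : ZMod (2 ^ m)) • Y := by
      rw [hX, add_mul, one_mul, hY, mul_add, mul_one]
      abel
    rw [map_mul, h5, h4, hY, smul_add, smul_add]
    abel
  inv_mem' := by
    rintro u ⟨X, hX⟩
    have h1 : ρ u⁻¹ * ρ u = 1 := by rw [← map_mul, inv_mul_cancel, map_one]
    refine ⟨-(ρ u⁻¹ * X), ?_⟩
    rw [hX, mul_add, mul_one, mul_smul_comm] at h1
    rw [smul_neg, ← sub_eq_add_neg]
    exact eq_sub_of_add_eq h1

/-- the subgroup at which a cocycle is small -/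
def smallSub (ρ : G →* Matrix (Fin 2) (Fin 2) (ZMod (2 ^ m))) (c : G → Fin 2 → ZMod (2 ^ m))
    (hc : Coc ρ c) (z : ZMod (2 ^ m)) : Subgroup G where
  carrier := {u | ∃ v, c u = z • v}
  one_mem' := ⟨0, by rw [hc.one, smul_zero]⟩
  mul_mem' := fun h1 h2 => small_mul hc h1 h2
  inv_mem' := fun h => small_inv hc h

/-- a group is not the union of two proper subgroups -/
lemma union_two {K S T : Subgroup G} (h : ∀ g ∈ K, g ∈ S ∨ g ∈ T) : K ≤ S ∨ K ≤ T := by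
  by_contra hcon
  rw [not_or, SetLike.not_le_iff_exists, SetLike.not_le_iff_exists] at hcon
  obtain ⟨⟨x, hxK, hxS⟩, ⟨y, hyK, hyT⟩⟩ := hcon
  have hxT : x ∈ T := (h x hxK).resolve_left hxS
  have hyS : y ∈ S := (h y hyK).resolve_right hyT
  rcases h (x * y) (mul_mem hxK hyK) with h1 | h1
  · exact hxS ((Subgroup.mul_mem_cancel_right S hyS).1 h1)
  · exact hyT ((Subgroup.mul_mem_cancel_left T hxT).1 h1)

lemma cancel_unit {U : Matrix (Fin 2) (Fin 2) (ZMod (2 ^ m))} (hU : IsUnit U)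
    {z : ZMod (2 ^ m)} {x : Fin 2 → ZMod (2 ^ m)} (h : ∃ v, U *ᵥ x = z • v) :
    ∃ v, x = z • v := by
  obtain ⟨u, rfl⟩ := hU
  obtain ⟨v, hv⟩ := h
  refine ⟨(u⁻¹ : (Matrix (Fin 2) (Fin 2) (ZMod (2 ^ m)))ˣ).val *ᵥ v, ?_⟩
  rw [← Matrix.mulVec_smul, ← hv, Matrix.mulVec_mulVec, Units.inv_mul, Matrix.one_mulVec]

/-- the rigidity theorem, normalised form -/
theorem rigid_norm {j : ℕ} (hj : 3 ≤ j)
    {ρ : G →* Matrix (Fin 2) (Fin 2) (ZMod (2 ^ (2 * j + 2)))}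
    {F : G} {A X : Matrix (Fin 2) (Fin 2) (ZMod (2 ^ (2 * j + 2)))}
    (hF : ρ F = 1 + (2 : ZMod (2 ^ (2 * j + 2))) • A)
    (hA : A * A + A + 1 = (2 : ZMod (2 ^ (2 * j + 2))) • X)
    {a b : G → Fin 2 → ZMod (2 ^ (2 * j + 2))} (ha : Coc ρ a) (hb : Coc ρ b)
    (haF : a F = 0) (hbF : b F = 0)
    (hP : ∀ g, ρ g = 1 → a g = 0 ∨ b g = 0) :
    (∀ g, ∃ v, a g = (2 : ZMod (2 ^ (2 * j + 2))) ^ (j - 3) • v) ∨
      (∀ g, ∃ v, b g = (2 : ZMod (2 ^ (2 * j + 2))) ^ (j - 3) • v) := by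
  obtain ⟨_, hAu⟩ := unit_A hA
  have hstep : ∀ (c : G → Fin 2 → ZMod (2 ^ (2 * j + 2))) (hc : Coc ρ c), c F = 0 →
      triv4 ρ ≤ smallSub ρ c hc ((2 : ZMod (2 ^ (2 * j + 2))) ^ (j - 1)) →
      ∀ g, ∃ v, c g = (2 : ZMod (2 ^ (2 * j + 2))) ^ (j - 3) • v := by
    intro c hc h0 hle g
    have hFF : ρ (F * F) = 1 + (4 : ZMod (2 ^ (2 * j + 2))) • (A + A * A) := by
      have h24 : (4 : ZMod (2 ^ (2 * j + 2))) = 2 * 2 := by norm_num
      have h25 : (2 : ZMod (2 ^ (2 * j + 2))) • A * (2 : ZMod (2 ^ (2 * j + 2))) • A =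
          (4 : ZMod (2 ^ (2 * j + 2))) • (A * A) := by
        rw [smul_mul_smul_comm, h24]
      have h26 : (4 : ZMod (2 ^ (2 * j + 2))) • A =
          (2 : ZMod (2 ^ (2 * j + 2))) • A + (2 : ZMod (2 ^ (2 * j + 2))) • A := by
        rw [h24, mul_smul, two_smul _ ((2 : ZMod (2 ^ (2 * j + 2))) • A)]
      have h27 : ρ F * ρ F = ρ F + (2 : ZMod (2 ^ (2 * j + 2))) • A +
          (2 : ZMod (2 ^ (2 * j + 2))) • A * (2 : ZMod (2 ^ (2 * j + 2))) • A := by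
        rw [hF, add_mul, one_mul, mul_add, mul_one]
        abel
      rw [map_mul, h27, h25, hF, smul_add, h26]
      abel
    have hmem : g⁻¹ * (F * F) * g ∈ triv4 ρ := by
      refine ⟨ρ g⁻¹ * (A + A * A) * ρ g, ?_⟩
      have h1 : ρ g⁻¹ * ρ g = 1 := by rw [← map_mul, inv_mul_cancel, map_one]
      rw [map_mul, map_mul, hFF, mul_add, add_mul, mul_one, h1, mul_smul_comm, smul_mul_assoc]
    obtain ⟨v, hv⟩ := hle hmem
    have h1 : c (g * (g⁻¹ * (F * F) * g)) = c (F * F * g) := by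
      congr 1
      group
    rw [hc g, hc (F * F) g, hc F F, h0, Matrix.mulVec_zero, add_zero, zero_add, hFF, hv,
      Matrix.add_mulVec, Matrix.one_mulVec, add_right_inj, Matrix.smul_mulVec,
      Matrix.mulVec_smul] at h1
    -- `4 (A + A²) c g = 2^(j-1) ρ g v`
    have h2 : (A + A * A) *ᵥ ((4 : ZMod (2 ^ (2 * j + 2))) • c g) =
        (2 : ZMod (2 ^ (2 * j + 2))) ^ (j - 1) • (ρ g *ᵥ v) := by
      rw [Matrix.mulVec_smul, ← h1]
    obtain ⟨w, hw⟩ := cancel_unit hAu ⟨_, h2⟩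
    have h3 : (2 : ZMod (2 ^ (2 * j + 2))) ^ 2 •
        (c g - (2 : ZMod (2 ^ (2 * j + 2))) ^ (j - 3) • w) = 0 := by
      rw [smul_sub, smul_smul, ← pow_add]
      have e1 : 2 + (j - 3) = j - 1 := by omega
      have e2 : (2 : ZMod (2 ^ (2 * j + 2))) ^ 2 = 4 := by norm_num
      rw [e1, e2, hw, sub_self]
    obtain ⟨x, hx⟩ := div_vec (by omega) _ h3
    refine ⟨w + (2 : ZMod (2 ^ (2 * j + 2))) ^ (j + 3) • x, ?_⟩
    rw [smul_add, smul_smul, ← pow_add]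
    have e3 : j - 3 + (j + 3) = 2 * j + 2 - 2 := by omega
    rw [e3, ← hx]
    abel
  have hun : ∀ g ∈ triv4 ρ, g ∈ smallSub ρ a ha ((2 : ZMod (2 ^ (2 * j + 2))) ^ (j - 1)) ∨
      g ∈ smallSub ρ b hb ((2 : ZMod (2 ^ (2 * j + 2))) ^ (j - 1)) := by
    intro u hu
    obtain ⟨w, U, hU, hw1, hw2⟩ := key hF hA u hu
    have hfin : ∀ c : G → Fin 2 → ZMod (2 ^ (2 * j + 2)), Coc ρ c → c F = 0 → c w = 0 →
        ∃ v, c u = (2 : ZMod (2 ^ (2 * j + 2))) ^ (j - 1) • v := by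
      intro c hc h0 hcw
      have h1 := hw2 c hc h0
      rw [hcw, ← Matrix.mulVec_smul] at h1
      have h2 : (2 : ZMod (2 ^ (2 * j + 2))) ^ (j + 3) • c u = 0 := by
        obtain ⟨U', rfl⟩ := hU
        have h3 := congrArg (fun x =>
          (U'⁻¹ : (Matrix (Fin 2) (Fin 2) (ZMod (2 ^ (2 * j + 2))))ˣ).val *ᵥ x) h1
        simp only [Matrix.mulVec_zero, Matrix.mulVec_mulVec, Units.inv_mul,
          Matrix.one_mulVec] at h3
        exact h3.symm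
      obtain ⟨v, hv⟩ := div_vec (by omega) _ h2
      have e1 : 2 * j + 2 - (j + 3) = j - 1 := by omega
      exact ⟨v, by rw [hv, e1]⟩
    rcases hP w hw1 with h | h
    · exact Or.inl (hfin a ha haF h)
    · exact Or.inr (hfin b hb hbF h)
  rcases union_two hun with h | h
  · exact Or.inl (hstep a ha haF h)
  · exact Or.inr (hstep b hb hbF h)

/-- **The rigidity theorem.** -/
theorem rigid {j : ℕ} (hj : 3 ≤ j)
    {ρ : G →* Matrix (Fin 2) (Fin 2) (ZMod (2 ^ (2 * j + 2)))}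
    {F : G} {A X : Matrix (Fin 2) (Fin 2) (ZMod (2 ^ (2 * j + 2)))}
    (hF : ρ F = 1 + (2 : ZMod (2 ^ (2 * j + 2))) • A)
    (hA : A * A + A + 1 = (2 : ZMod (2 ^ (2 * j + 2))) • X)
    {a b : G → Fin 2 → ZMod (2 ^ (2 * j + 2))} (ha : Coc ρ a) (hb : Coc ρ b)
    (hbF : ∃ t, b F = (2 : ZMod (2 ^ (2 * j + 2))) • t)
    (hP : ∀ g, (∃ t, a g = (ρ g - 1) *ᵥ t) ∨ ∃ t, a g - b g = (ρ g - 1) *ᵥ t) :
    (∃ t, ∀ g, ∃ v, a g - (ρ g - 1) *ᵥ t = (2 : ZMod (2 ^ (2 * j + 2))) ^ (j - 3) • v) ∨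
      (∃ t, ∀ g, ∃ v, a g - b g - (ρ g - 1) *ᵥ t =
        (2 : ZMod (2 ^ (2 * j + 2))) ^ (j - 3) • v) := by
  obtain ⟨hAu, _⟩ := unit_A hA
  have hF1 : ρ F - 1 = (2 : ZMod (2 ^ (2 * j + 2))) • A := by rw [hF]; abel
  have hdiv : ∀ t, ∃ t', (2 : ZMod (2 ^ (2 * j + 2))) • t = (ρ F - 1) *ᵥ t' := by
    intro t
    obtain ⟨u, rfl⟩ := hAu
    refine ⟨(u⁻¹ : (Matrix (Fin 2) (Fin 2) (ZMod (2 ^ (2 * j + 2))))ˣ).val *ᵥ t, ?_⟩
    rw [hF1, Matrix.smul_mulVec, Matrix.mulVec_mulVec, Units.mul_inv, Matrix.one_mulVec]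
  obtain ⟨t0, ht0⟩ := hbF
  obtain ⟨tb, htb⟩ := hdiv t0
  have hbF' : b F = (ρ F - 1) *ᵥ tb := by rw [ht0, htb]
  obtain ⟨ta, hta⟩ : ∃ ta, a F = (ρ F - 1) *ᵥ ta := by
    rcases hP F with ⟨t, ht⟩ | ⟨t, ht⟩
    · exact ⟨t, ht⟩
    · refine ⟨t + tb, ?_⟩
      rw [Matrix.mulVec_add, ← ht, hbF']
      abel
  have ha' := ha.sub (Coc.bdry ρ ta)
  have hab' := (ha.sub hb).sub (Coc.bdry ρ (ta - tb))
  have h1 := rigid_norm hj hF hA ha' hab' (by rw [hta]; abel)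
    (by rw [Matrix.mulVec_sub, hta, hbF']; abel) (by
      intro g hg
      have hz : ∀ t, (ρ g - 1) *ᵥ t = 0 := fun t => by
        rw [hg, sub_self, Matrix.zero_mulVec]
      rcases hP g with ⟨t, ht⟩ | ⟨t, ht⟩
      · left
        rw [ht, hz, hz, sub_zero]
      · right
        rw [ht, hz, hz, sub_zero])
  rcases h1 with h | h
  · exact Or.inl ⟨ta, h⟩
  · exact Or.inr ⟨ta - tb, h⟩

end main

end Run7.h369.Rig
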